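import Pool.Agent.Helper80.MX.Cn
import Pool.Agent.Helper80.MX.Rich

/-! Extensions of the space over a label, and events of them, are extensions of the space of the label: rates over the
label on an event are rates over the restricted label. -/

set_option autoImplicit false

namespace Pool.Agent.Helper80.HCI

open Finset Filter Topology Pool.Agent.Helper69.RK Pool.Agent.Helper31.EC Pool.Agent.Helper40.EL
open Pool.Agent.Helper80.MX

noncomputable section

open Sp

variable {S : Sp} (l : Lab S) {c : ℝ} {hc : 0 < c} {W : Sp} (p : Pj W (l.ovr c hc))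

/-- an extension of the space over a label, with the base and the depth of the space of the label -/
def unO : Sp where
  F := fun k =>
    { Ω := (W.F k).Ω
      ft := (W.F k).ft
      μ := (W.F k).μ
      nn := (W.F k).nn
      ms := (W.F k).ms
      Z := Setoid.comap (p.π k) (l k).T.Z
      n := (l k).T.n
      pos := (l k).T.pos }
  lim := l.sp.lim

/-- the finite projections -/
def unP (k : ℕ) : FPj ((unO l p).F k) (l k).T := ⟨p.π k, p.law k, fun _ _ _ _ => Iff.rfl⟩

/-- the label on the extension -/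
def exl : Lab S := fun k => (l k).ext (unP l p k) rfl

theorem exl_leak (k : ℕ) (x : FL (S.F k)) : ((exl l p) k).leak x = (l k).leak x := (l k).ext_leak (unP l p k) rfl x

theorem exl_info_k (k : ℕ) : ((exl l p) k).info = (l k).info := (l k).ext_info (unP l p k) rfl

theorem exl_info : (exl l p).info = l.info := by
  show ul (fun k => ((exl l p) k).info / (S.F k).n) = ul (fun k => (l k).info / (S.F k).n)
  have e : (fun k => ((exl l p) k).info / (S.F k).n) = fun k => (l k).info / (S.F k).n := by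
    funext k
    rw [exl_info_k]
  rw [e]

theorem exl_DM {A B : Part S} : (exl l p).DM A B ↔ l.DM A B := by
  have e : ∀ A : Part S, (fun k => ((exl l p) k).leak (A k)) = fun k => (l k).leak (A k) := fun A => by
    funext k
    rw [exl_leak]
  unfold Lab.DM
  rw [e A, e B]

theorem exl_IsMax {A B : Part S} (h : l.IsMax A B) : (exl l p).IsMax A B := by
  refine ⟨(exl_DM l p).mpr h.1, fun l' hl' => ?_⟩
  rw [exl_info]
  exact h.2 l' hl'

theorem exl_DMc {m : ℕ} {s : Sys S m} {a : ℝ} (h : DMc s a l) : DMc s a (exl l p) := (exl_DM l p).mpr h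

theorem exl_IsKap {m : ℕ} {s : Sys S m} {a : ℝ} (h : IsKap s a l) : IsKap s a (exl l p) := exl_IsMax l p h

theorem exl_pr (E : ∀ k, (W.F k).Ω → Prop) : (exl l p).sp.pr E = W.pr E := rfl

variable (E : ∀ k, (W.F k).Ω → Prop) (hE : 0 < ul (W.pr E))

/-- the space `S` under the law of the event -/
abbrev imS : Sp := Sp.im (exl l p).pj E

/-- the restricted label -/
abbrev exE : Lab (imS l p E) := (exl l p).im E

theorem rt_ovr (A B : ∀ k, Setoid (W.F k).Ω) (k : ℕ) :
    (W.rest E).rt A B k = ((exE l p E).ovr 1 one_pos).rt A B k / c := by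
  have h1 : (W.rest E).rt A B k = ((W.F k).rest (E k)).e (A k) (B k ⊓ (W.F k).Z) / (W.F k).n := rfl
  have h2 : ((exE l p E).ovr 1 one_pos).rt A B k =
      ((W.F k).rest (E k)).e (A k) (B k ⊓ (Setoid.comap (p.π k) (l k).V ⊓ Setoid.comap (p.π k) (l k).T.Z)) / (1 * (l k).T.n) := rfl
  rw [h1, h2, one_mul, div_div, mul_comm (l k).T.n c]
  have h3 : (W.F k).n = c * (l k).T.n := p.hn k
  rw [h3]
  congr 1
  apply ((W.F k).rest (E k)).e_congr_right
  intro ω ω' hω hω'
  have h4 : (W.F k).Z ω ω' ↔ (Setoid.comap (p.π k) (l k).V ⊓ Setoid.comap (p.π k) (l k).T.Z) ω ω' :=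
    p.hZ k ω ω' ((W.F k).rest_supp (E k) ω hω).1 ((W.F k).rest_supp (E k) ω' hω').1
  exact ⟨fun h => ⟨h.1, h4.mp h.2⟩, fun h => ⟨h.1, h4.mpr h.2⟩⟩

/-- RATES OVER A LABEL ON EVENTS OF EXTENSIONS -/
theorem h_ovr (A B : S.Inf) :
    h (restL E hE (p.map (l.upL c hc (Sp.cl A)))) (restL E hE (p.map (l.upL c hc (Sp.cl B)))) =
      h (up1 (exE l p E) (Sp.cl (Sp.imI (exl l p).pj E A))) (up1 (exE l p E) (Sp.cl (Sp.imI (exl l p).pj E B))) / c := by
  obtain ⟨A', hA'⟩ : ∃ A' : (W.rest E).Inf, A' = Sp.restI E (p.mapI (l.upI c hc A)) := ⟨_, rfl⟩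
  obtain ⟨B', hB'⟩ : ∃ B' : (W.rest E).Inf, B' = Sp.restI E (p.mapI (l.upI c hc B)) := ⟨_, rfl⟩
  have e1 : restL E hE (p.map (l.upL c hc (Sp.cl A))) = Sp.cl A' := by rw [hA']; rfl
  have e2 : restL E hE (p.map (l.upL c hc (Sp.cl B))) = Sp.cl B' := by rw [hB']; rfl
  obtain ⟨A1, hA1⟩ : ∃ A1 : ((exE l p E).ovr 1 one_pos).Inf,
      A1 = (exE l p E).upI 1 one_pos (Sp.imI (exl l p).pj E A) := ⟨_, rfl⟩
  obtain ⟨B1, hB1⟩ : ∃ B1 : ((exE l p E).ovr 1 one_pos).Inf,
      B1 = (exE l p E).upI 1 one_pos (Sp.imI (exl l p).pj E B) := ⟨_, rfl⟩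
  have e3 : up1 (exE l p E) (Sp.cl (Sp.imI (exl l p).pj E A)) = Sp.cl A1 := by rw [hA1]; rfl
  have e4 : up1 (exE l p E) (Sp.cl (Sp.imI (exl l p).pj E B)) = Sp.cl B1 := by rw [hB1]; rfl
  rw [e1, e2, e3, e4, h_cl, h_cl]
  have key : (W.rest E).rt A'.1 B'.1 = fun k => c⁻¹ * ((exE l p E).ovr 1 one_pos).rt A1.1 B1.1 k := by
    funext k
    have h5 := rt_ovr l p E A'.1 B'.1 k
    rw [h5, div_eq_inv_mul]
    rw [hA', hB', hA1, hB1]
    rfl
  rw [key]
  have h6 : UB (((exE l p E).ovr 1 one_pos).rt A1.1 B1.1) := UB_rt A1 B1.1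
  rw [ul_const_mul _ h6]
  rw [div_eq_inv_mul]

/-! ### systems -/

section sys

variable {m : ℕ} (s : Sys S m)

/-- the system under the law of the event -/
abbrev sysE : Sys (imS l p E) m := s.im (exl l p).pj E hE

theorem imI_Ix (r : ℝ) : Sp.imI (exl l p).pj E (s.Ix r) = (sysE l p E hE s).Ix r := rfl
theorem imI_IP (r : ℝ) : Sp.imI (exl l p).pj E (s.IP r) = (sysE l p E hE s).IP r := rfl
theorem imI_It (r : ℝ) : Sp.imI (exl l p).pj E (s.It r) = (sysE l p E hE s).It r := rfl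
theorem imI_Ia (r : ℝ) : Sp.imI (exl l p).pj E (s.Ia r) = (sysE l p E hE s).Ia r := rfl
theorem imI_sup (A B : S.Inf) : Sp.imI (exl l p).pj E (Inf.sup A B) =
    Inf.sup (Sp.imI (exl l p).pj E A) (Sp.imI (exl l p).pj E B) := rfl

/-- the restricted label is a label of the restricted system -/
theorem exE_DMc {a : ℝ} (h : DMc s a l) : DMc (sysE l p E hE s) a (exE l p E) :=
  Lab.DM.im (exl_DMc l p h) E hE

/-- the restricted label is maximal -/
theorem exE_IsKap {a : ℝ} (h : IsKap s a l) : IsKap (sysE l p E hE s) a (exE l p E) :=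
  Lab.IsMax.im_max (exl_IsKap l p h) E hE (cA_Bd s a) (cA_im_Bd s a (exl l p).pj (fun k ω => ¬ E k ω))

/-- RICHNESS OVER A LABEL, all events of all extensions -/
theorem rich_ovr {g : ℝ} (hr : Rich s g) {a : ℝ} (hl : DMc s a l) {r : ℝ} (h0 : 0 ≤ r) (h1 : c * r ≤ 1) :
    g * r ≤ h (restL E hE (p.map (l.upL c hc (s.x.dg (c * r))))) (restL E hE (p.map (l.upL c hc (lB s)))) := by
  rw [← s.cl_Ix, ← cl_B, h_ovr]
  rw [imI_Ix l p E hE s, imI_sup, imI_IP l p E hE s, imI_It l p E hE s, Sys.cl_Ix, cl_B]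
  rw [DMc.h_B (exE_DMc l p E hE s hl) le_rfl]
  have h2 := (hr.im (exl l p).pj E hE).base (mul_nonneg hc.le h0) h1
  rw [le_div_iff₀ hc]
  have e : g * r * c = g * (c * r) := by ring
  rw [e]
  exact h2

end sys

end

end Pool.Agent.Helper80.HCI
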