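import Pool.Agent.Helper80.HCI.Ov
import Pool.Agent.Helper80.MX.R1

/-! Information facts in the space over a label `l` with the depth `e n`: informations which are functions of a finer
label; time, leak of the line, direction. -/

set_option autoImplicit false

namespace Pool.Agent.Helper80.HCI

open Finset Filter Topology Pool.Agent.Helper69.RK Pool.Agent.Helper31.EC Pool.Agent.Helper40.EL
open Pool.Agent.Helper80.MX

noncomputable section

open Sp

/-! ### a finer base -/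

section chg

variable {S : Sp} (Z : ∀ k, Setoid (S.F k).Ω)

/-- conditioning on a finer base -/
theorem h_chg_le (u w : S.L) : h (chgL Z 1 one_pos u) (chgL Z 1 one_pos w) ≤ h u w := by
  induction u using Sp.cl_ind with | h A
  induction w using Sp.cl_ind with | h B
  rw [chgL_cl, chgL_cl, h_cl, h_cl]
  apply ul_mono (UB_rt _ _) (UB_rt _ _)
  refine Eventually.of_forall fun k => ?_
  have h1 : (S.chg Z 1 one_pos).rt (chgI Z 1 one_pos A).1 (chgI Z 1 one_pos B).1 k =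
      S.rt A.1 (fun k => B.1 k ⊓ Z k) k / 1 := chg_rt Z 1 one_pos A.1 B.1 k
  rw [h1, div_one]
  exact rt_anti _ _ _ k inf_le_left

theorem h_chg_le_sup {x u y : S.L} (hx : chgL Z 1 one_pos x = ⊥) :
    h (chgL Z 1 one_pos u) (chgL Z 1 one_pos y) ≤ h u (x ⊔ y) := by
  have h1 := h_chg_le Z u (x ⊔ y)
  rw [chgL_sup, hx, bot_sup_eq] at h1
  exact h1

theorem chg_bot_mono {x y : S.L} (hy : chgL Z 1 one_pos y = ⊥) (h : x ≤ y) : chgL Z 1 one_pos x = ⊥ :=
  le_antisymm (hy ▸ chgL_mono Z 1 one_pos h) bot_le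

theorem chg_bot_sup {x y : S.L} (hx : chgL Z 1 one_pos x = ⊥) (hy : chgL Z 1 one_pos y = ⊥) :
    chgL Z 1 one_pos (x ⊔ y) = ⊥ := by
  rw [chgL_sup, hx, hy, bot_sup_eq]

variable {Z} {Z' : ∀ k, Setoid (S.F k).Ω}

/-- a partition as a partition of the changed space -/
def zc (Z : ∀ k, Setoid (S.F k).Ω) {e : ℝ} (he : 0 < e) (Z' : ∀ k, Setoid (S.F k).Ω) :
    ∀ k, Setoid ((S.chg Z e he).F k).Ω := Z'

/-- two changes of the base -/
theorem chg_chg_rt (hZ : ∀ k ω ω', (S.F k).μ ω ≠ 0 → (S.F k).μ ω' ≠ 0 → (S.F k).Z ω ω' → Z' k ω ω' → Z k ω ω')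
    {e : ℝ} (he : 0 < e) (A B : ∀ k, Setoid (S.F k).Ω) (k : ℕ) :
    ((S.chg Z e he).chg (zc Z he Z') 1 one_pos).rt A B k = (S.chg Z' 1 one_pos).rt A B k / e := by
  have h1 : ((S.chg Z e he).chg (zc Z he Z') 1 one_pos).rt A B k =
      (S.F k).e (A k) (B k ⊓ (Z' k ⊓ (Z k ⊓ (S.F k).Z))) / (1 * (e * (S.F k).n)) := rfl
  have h2 : (S.chg Z' 1 one_pos).rt A B k = (S.F k).e (A k) (B k ⊓ (Z' k ⊓ (S.F k).Z)) / (1 * (S.F k).n) := rfl
  rw [h1, h2, one_mul, one_mul, div_div, mul_comm (S.F k).n e]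
  congr 1
  apply (S.F k).e_congr_right
  intro ω ω' hω hω'
  constructor
  · intro h
    exact ⟨h.1, h.2.1, h.2.2.2⟩
  · intro h
    exact ⟨h.1, h.2.1, hZ k ω ω' hω hω' h.2.2 h.2.1, h.2.2⟩

theorem chg_chg (hZ : ∀ k ω ω', (S.F k).μ ω ≠ 0 → (S.F k).μ ω' ≠ 0 → (S.F k).Z ω ω' → Z' k ω ω' → Z k ω ω')
    {e : ℝ} (he : 0 < e) (x y : S.L) :
    h (chgL (zc Z he Z') 1 one_pos (chgL Z e he x)) (chgL (zc Z he Z') 1 one_pos (chgL Z e he y)) =
      h (chgL Z' 1 one_pos x) (chgL Z' 1 one_pos y) / e := by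
  induction x using Sp.cl_ind with | h A
  induction y using Sp.cl_ind with | h B
  have a1 : ∀ A : S.Inf, chgL (zc Z he Z') 1 one_pos (chgL Z e he (cl A)) =
      cl (chgI (zc Z he Z') 1 one_pos (chgI Z e he A)) := fun _ => rfl
  rw [a1, a1, chgL_cl, chgL_cl, h_cl, h_cl]
  have key : ((S.chg Z e he).chg (zc Z he Z') 1 one_pos).rt (chgI (zc Z he Z') 1 one_pos (chgI Z e he A)).1
      (chgI (zc Z he Z') 1 one_pos (chgI Z e he B)).1 =
      fun k => e⁻¹ * (S.chg Z' 1 one_pos).rt (chgI Z' 1 one_pos A).1 (chgI Z' 1 one_pos B).1 k := by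
    funext k
    have h5 := chg_chg_rt hZ he A.1 B.1 k
    rw [div_eq_inv_mul] at h5
    exact h5
  rw [key, ul_const_mul _ (UB_rt _ _), div_eq_inv_mul]

theorem chg_chg_H (hZ : ∀ k ω ω', (S.F k).μ ω ≠ 0 → (S.F k).μ ω' ≠ 0 → (S.F k).Z ω ω' → Z' k ω ω' → Z k ω ω')
    {e : ℝ} (he : 0 < e) (x : S.L) :
    H (chgL (zc Z he Z') 1 one_pos (chgL Z e he x)) = H (chgL Z' 1 one_pos x) / e := by
  have h1 := chg_chg hZ he x ⊥
  have a1 : chgL (zc Z he Z') 1 one_pos (chgL Z e he (⊥ : S.L)) = ⊥ := rfl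
  rw [a1, chgL_bot, h_bot, h_bot] at h1
  exact h1

theorem chg_chg_bot (hZ : ∀ k ω ω', (S.F k).μ ω ≠ 0 → (S.F k).μ ω' ≠ 0 → (S.F k).Z ω ω' → Z' k ω ω' → Z k ω ω')
    {e : ℝ} (he : 0 < e) {x : S.L} (hx : chgL Z' 1 one_pos x = ⊥) :
    chgL (zc Z he Z') 1 one_pos (chgL Z e he x) = ⊥ := by
  have h1 := chg_chg hZ he x ⊥
  have a1 : chgL (zc Z he Z') 1 one_pos (chgL Z e he (⊥ : S.L)) = ⊥ := rfl
  rw [hx, a1, chgL_bot, h_zero le_rfl, zero_div] at h1
  exact le_bot_iff.mp (h_eq_zero_iff.mp h1)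

end chg

/-! ### two labels on one space -/

section lab

variable {S : Sp} (l : Lab S)

/-- another label on the space of a label -/
def wV (V' : ∀ k, Setoid (l.sp.F k).Ω) : Lab S := fun k => ⟨(l k).T, (l k).p, (l k).hn, V' k⟩

/-- `V'` is literally finer than the label -/
def Fnr (V' : ∀ k, Setoid (l.sp.F k).Ω) : Prop :=
  ∀ k ω ω', (l.sp.F k).μ ω ≠ 0 → (l.sp.F k).μ ω' ≠ 0 → (l.sp.F k).Z ω ω' → V' k ω ω' → l.V k ω ω'

variable {l} {V' : ∀ k, Setoid (l.sp.F k).Ω} (hV : Fnr l V') {e : ℝ} (he : 0 < e)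

/-- the passage to the finer base -/
def fb (l : Lab S) (V' : ∀ k, Setoid (l.sp.F k).Ω) {e : ℝ} (he : 0 < e) (x : (l.ovr e he).L) :
    ((l.ovr e he).chg (zc (S := l.sp) l.V he V') 1 one_pos).L :=
  chgL (S := l.ovr e he) (zc (S := l.sp) l.V he V') 1 one_pos x

theorem fb_mono {x y : (l.ovr e he).L} (h : x ≤ y) : fb l V' he x ≤ fb l V' he y := chgL_mono _ 1 one_pos h

theorem fb_sup (x y : (l.ovr e he).L) : fb l V' he (x ⊔ y) = fb l V' he x ⊔ fb l V' he y := chgL_sup _ 1 one_pos x y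

theorem fb_h_le (x y : (l.ovr e he).L) : h (fb l V' he x) (fb l V' he y) ≤ h x y := h_chg_le _ x y

theorem fb_h_le_sup {x u y : (l.ovr e he).L} (hx : fb l V' he x = ⊥) : h (fb l V' he u) (fb l V' he y) ≤ h u (x ⊔ y) :=
  h_chg_le_sup _ hx

theorem fb_bot_mono {x y : (l.ovr e he).L} (hy : fb l V' he y = ⊥) (h : x ≤ y) : fb l V' he x = ⊥ :=
  chg_bot_mono _ hy h

theorem fb_bot_sup {x y : (l.ovr e he).L} (hx : fb l V' he x = ⊥) (hy : fb l V' he y = ⊥) :
    fb l V' he (x ⊔ y) = ⊥ := chg_bot_sup _ hx hy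

include hV in
theorem fb_h (x y : S.L) : h (fb l V' he (l.upL e he x)) (fb l V' he (l.upL e he y)) =
    h (up1 (wV l V') x) (up1 (wV l V') y) / e :=
  chg_chg (S := l.sp) (Z := l.V) (Z' := V') hV he (l.pj.map x) (l.pj.map y)

include hV in
theorem fb_H (x : S.L) : H (fb l V' he (l.upL e he x)) = H (up1 (wV l V') x) / e :=
  chg_chg_H (S := l.sp) (Z := l.V) (Z' := V') hV he (l.pj.map x)

include hV in
theorem fb_bot {x : S.L} (hx : up1 (wV l V') x = ⊥) : fb l V' he (l.upL e he x) = ⊥ :=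
  chg_chg_bot (S := l.sp) (Z := l.V) (Z' := V') hV he hx

/-- rates at the depth `e n` -/
theorem upL_h (x y : S.L) : h (l.upL e he x) (l.upL e he y) = h (up1 l x) (up1 l y) / e := by
  rw [l.hr_upL, l.hr_upL, div_one]

theorem upL_H (x : S.L) : H (l.upL e he x) = H (up1 l x) / e := by
  rw [l.H_upL, l.H_upL, div_one]

theorem upL_h_le (x y : S.L) : h (l.upL e he x) (l.upL e he y) ≤ h x y / e := by
  rw [upL_h]
  exact div_le_div_of_nonneg_right (h_up1_le l x y) he.le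

end lab

/-! ### systems -/

section sys

variable {S : Sp} {m : ℕ} (s : Sys S m) {l : Lab S} {V' : ∀ k, Setoid (l.sp.F k).Ω} (hV : Fnr l V') {e : ℝ} (he : 0 < e)

/-- digits of the time given the line -/
theorem h_t_line {a b : ℝ} (h0 : 0 ≤ a) (hab : a ≤ b) (h1 : b ≤ 1) : h (s.t.dg b) (lA s a) = b - a := by
  have e1 := s.h_t_xi h0 (hab.trans h1)
  have e2 := s.h_t_xi (h0.trans hab) h1
  have e3 : h (s.t.dg a ⊔ s.t.dg b) (s.xi 1) = h (s.t.dg a) (s.xi 1) + h (s.t.dg b) (s.t.dg a ⊔ s.xi 1) := h_chain _ _ _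
  rw [sup_eq_right.mpr (s.t.dg_mono hab), e1, e2, sup_comm (s.t.dg a)] at e3
  unfold lA
  linarith

/-- TIME: the digits of the time over a label of the window `a` are uniform given the line -/
theorem time_ovr {a b : ℝ} (h0 : 0 ≤ a) (hab : a ≤ b) (h1 : b ≤ 1) (hl : DMc s a l)
    (ht : up1 l (s.t.dg a) = ⊥) {L : (l.ovr e he).L} (hL : L ≤ l.upL e he (s.xi 1)) :
    h (l.upL e he (s.t.dg b)) L = (b - a) / e := by
  apply le_antisymm
  · refine (h_le_H _ _).trans ?_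
    rw [upL_H]
    apply div_le_div_of_nonneg_right _ he.le
    have e1 : H (up1 l (s.t.dg b)) = h (up1 l (s.t.dg b)) (up1 l (s.t.dg a)) := by rw [ht, h_bot]
    rw [e1]
    refine (h_up1_le l _ _).trans ?_
    have e2 := s.t.h_dg_dg hab
    rw [Nat.cast_one, one_mul] at e2
    exact e2
  · have e1 : l.upL e he (lA s a) = l.upL e he (s.xi 1) := by
      have e2 : l.upL e he (s.t.dg a) = ⊥ := by
        have e3 := upL_H (l := l) he (s.t.dg a)
        rw [ht, H_bot, zero_div] at e3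
        rw [← h_bot] at e3
        exact le_bot_iff.mp (h_eq_zero_iff.mp e3)
      unfold lA
      rw [l.upL_sup, e2, sup_bot_eq]
    have e4 : h (l.upL e he (s.t.dg b)) (l.upL e he (lA s a)) = (b - a) / e := by
      rw [upL_h, DMc.h_A hl le_rfl, h_t_line s h0 hab h1]
    rw [← e4, e1]
    exact h_anti hL

include hV in
/-- LEAK OF THE LINE: a function `K` of a label of the window `a` is independent of the time given the line and the first
digits of the time -/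
theorem leakA_ovr {a b : ℝ} (h0 : 0 ≤ a) (hab : a ≤ b) (h1 : b ≤ 1) (hl : DMc s a (wV l V'))
    {K L : (l.ovr e he).L} (hK : fb l V' he K = ⊥) (hL : L ≤ l.upL e he (s.xi 1)) :
    I K (l.upL e he (s.t.dg b)) (L ⊔ l.upL e he (s.t.dg a)) = 0 := by
  apply le_antisymm _ (I_nonneg _ _ _)
  rw [I_eq']
  have e1 : h (l.upL e he (s.t.dg b)) (L ⊔ l.upL e he (s.t.dg a)) ≤ (b - a) / e := by
    refine (h_anti le_sup_right).trans ((upL_h_le he _ _).trans ?_)
    apply div_le_div_of_nonneg_right _ he.le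
    have e2 := s.t.h_dg_dg hab
    rw [Nat.cast_one, one_mul] at e2
    exact e2
  have e2 : (b - a) / e ≤ h (l.upL e he (s.t.dg b)) (K ⊔ (L ⊔ l.upL e he (s.t.dg a))) := by
    refine le_trans ?_ (fb_h_le_sup he hK)
    have e3 : fb l V' he (L ⊔ l.upL e he (s.t.dg a)) ≤ fb l V' he (l.upL e he (lA s a)) := by
      apply fb_mono
      unfold lA
      rw [l.upL_sup]
      exact sup_le_sup_right hL _
    refine le_trans ?_ (h_anti e3)
    rw [fb_h hV, DMc.h_A hl le_rfl, h_t_line s h0 hab h1]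
  linarith

include hV in
/-- DIRECTION (R1): a function of a maximal label of the window `a'` is independent of the first digits of the
direction, up to the difference of the informations -/
theorem T1_ovr {a a' u : ℝ} (hl : IsKap s a l) (hl' : IsKap s a' (wV l V'))
    {X K : (l.ovr e he).L} (hX : X ≤ l.upL e he (s.x.dg u)) (hK : fb l V' he K = ⊥) :
    I X K ⊥ ≤ (fx s u a - fx s u a') / e := by
  refine (I_mono_left (hX.trans le_sup_left)).trans ?_
  rw [I_eq, h_bot, sup_bot_eq, upL_H, fx_eq hl]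
  have e1 : fx s u a' / e ≤ h (l.upL e he (s.x.dg u)) K := by
    have e2 := fb_h_le_sup (u := l.upL e he (s.x.dg u)) (y := ⊥) he hK
    have e3 : fb l V' he (⊥ : (l.ovr e he).L) = ⊥ := rfl
    rw [e3, h_bot, fb_H hV, fx_eq hl', sup_bot_eq] at e2
    exact e2
  rw [sub_div]
  linarith

end sys

/-! ### counts -/

section iso

open QS

/-- digits of a linear form -/
theorem lin_dg_le {U : Sp} (r0 rt ry t y : QS U) {r : ℝ} (hr : r ≤ 1) {A : U.L} (h0 : dg r0 1 ≤ A) (h1 : dg rt 1 ≤ A)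
    (h2 : dg ry 1 ≤ A) (ht : dg t r ≤ A) (hy : dg y r ≤ A) : dg (r0 + rt * t + ry * y) r ≤ A := by
  have g0 : r0 ∈ Kn U r hr A := mem_Kn.mpr ((dg_mono r0 hr).trans h0)
  have g1 : rt ∈ Kn U r hr A := mem_Kn.mpr ((dg_mono rt hr).trans h1)
  have g2 : ry ∈ Kn U r hr A := mem_Kn.mpr ((dg_mono ry hr).trans h2)
  have g3 : t ∈ Kn U r hr A := mem_Kn.mpr ht
  have g4 : y ∈ Kn U r hr A := mem_Kn.mpr hy
  exact mem_Kn.mp (add_mem (add_mem g0 (mul_mem g1 g3)) (mul_mem g2 g4))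

/-- `K` is a function of the finer base `Z`; `M = (t, y, R)` is full over `Z` inside its box of weights `(1, 1, w)` -/
theorem isoM_of_full {U : Sp} (Z : ∀ k, Setoid (U.F k).Ω) {K : U.L} (hK : chgL Z 1 one_pos K = ⊥) {t y R r0 rt ry : QS U}
    {s w ε : ℝ} (hs : 0 ≤ s) (hw : 1 ≤ w) (hws : w * s ≤ 1) (ht : chgL Z 1 one_pos (dg t s) = ⊥)
    (hy : chgL Z 1 one_pos (dg y s) = ⊥) (h0 : chgL Z 1 one_pos (dg r0 1) = ⊥)
    (h1 : chgL Z 1 one_pos (dg rt 1) = ⊥) (h2 : chgL Z 1 one_pos (dg ry 1) = ⊥)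
    (hR : R - (r0 + rt * t + ry * y) ∈ Id U (w * s))
    (hf : 3 - (2 + w) * s - ε ≤ H (chgL Z 1 one_pos (dg t 1 ⊔ dg y 1 ⊔ dg R 1))) :
    I K (dg t 1 ⊔ dg y 1 ⊔ dg R 1) (dg t (w * s) ⊔ dg y (w * s) ⊔ dg R (w * s)) ≤ ε := by
  obtain ⟨f, hff⟩ : ∃ f : U.L → (U.chg Z 1 one_pos).L, f = chgL Z 1 one_pos := ⟨_, rfl⟩
  have fm : ∀ {x y : U.L}, x ≤ y → f x ≤ f y := fun h => by rw [hff]; exact chgL_mono Z 1 one_pos h
  have fs : ∀ x y : U.L, f (x ⊔ y) = f x ⊔ f y := fun x y => by rw [hff]; exact chgL_sup Z 1 one_pos x y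
  have fh : ∀ x y : U.L, h (f x) (f y) ≤ h x y := fun x y => by rw [hff]; exact h_chg_le Z x y
  rw [← hff] at hK ht hy h0 h1 h2 hf
  obtain ⟨c, hc⟩ : ∃ c, c = w * s := ⟨_, rfl⟩
  rw [← hc] at hws hR ⊢
  have hsc : s ≤ c := by rw [hc]; nlinarith
  -- the digits of `R` over the finer base
  have k1 : dg R c ≤ dg r0 1 ⊔ dg rt 1 ⊔ dg ry 1 ⊔ (dg t c ⊔ dg y c) := by
    rw [dg_eq_of_sub_mem hR le_rfl hws]
    apply lin_dg_le r0 rt ry t y hws <;> order
  have k2 : f (dg R c) ≤ f (dg t c ⊔ dg y c) := by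
    refine (fm k1).trans ?_
    rw [fs, fs, fs, h0, h1, h2, bot_sup_eq, bot_sup_eq, bot_sup_eq]
  -- the entropy of the isotropic digits over the finer base
  have k3 : ∀ g : QS U, f (dg g s) = ⊥ → H (f (dg g c)) ≤ c - s := by
    intro g hg
    have e1 : H (f (dg g c)) = h (f (dg g c)) (f (dg g s)) := by rw [hg, h_bot]
    rw [e1]
    exact (fh _ _).trans (QS.h_dg_dg g hsc)
  have k4 : H (f (dg t c ⊔ dg y c ⊔ dg R c)) ≤ 2 * (c - s) := by
    have e1 : f (dg t c ⊔ dg y c ⊔ dg R c) = f (dg t c) ⊔ f (dg y c) := by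
      rw [fs, sup_eq_left.mpr k2, fs]
    rw [e1, H_chain]
    have e2 := k3 t ht
    have e3 := (h_le_H (f (dg y c)) (f (dg t c))).trans (k3 y hy)
    linarith
  -- conditional entropies
  obtain ⟨M, hM⟩ : ∃ M, M = dg t 1 ⊔ dg y 1 ⊔ dg R 1 := ⟨_, rfl⟩
  obtain ⟨J, hJ⟩ : ∃ J, J = dg t c ⊔ dg y c ⊔ dg R c := ⟨_, rfl⟩
  rw [← hM] at hf ⊢
  rw [← hJ] at k4 ⊢
  have k5 : h M J ≤ 3 * (1 - c) := by
    have e1 : h M J ≤ h (dg t 1) J + h (dg y 1) J + h (dg R 1) J := by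
      rw [hM]
      have a1 := h_sup_le (dg t 1 ⊔ dg y 1) (dg R 1) J
      have a2 := h_sup_le (dg t 1) (dg y 1) J
      linarith
    have e2 : h (dg t 1) J ≤ 1 - c := (h_anti (by rw [hJ]; order)).trans (QS.h_dg_dg t hws)
    have e3 : h (dg y 1) J ≤ 1 - c := (h_anti (by rw [hJ]; order)).trans (QS.h_dg_dg y hws)
    have e4 : h (dg R 1) J ≤ 1 - c := (h_anti (by rw [hJ]; order)).trans (QS.h_dg_dg R hws)
    linarith
  have k6 : H (f M) - H (f J) ≤ h M (K ⊔ J) := by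
    have e1 : h (f M) (f J) ≤ h M (K ⊔ J) := by
      have a1 := fh M (K ⊔ J)
      rw [fs, hK, bot_sup_eq] at a1
      exact a1
    have e2 : H (f M) ≤ h (f M) (f J) + H (f J) := by
      have a1 := H_chain (f J) (f M)
      have a2 := H_mono (show f M ≤ f J ⊔ f M from le_sup_right)
      linarith
    linarith
  rw [I_eq']
  have e5 : (2 + w) * s = 2 * s + c := by rw [hc]; ring
  rw [e5] at hf
  linarith

end iso

end

end Pool.Agent.Helper80.HCI
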