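import Pool.Agent.Helper80.HCI.Dcc
import Pool.Agent.Helper80.HCI.Lk

/-! TRIMMING. A variable with arbitrarily many values but few of them on a typical event `E` is replaced by `some` of
it on `E` and by `none` off `E`. -/

set_option autoImplicit false

namespace Pool.Agent.Helper80.HCI

open Finset Filter Topology Pool.Agent.Helper69.RK Pool.Agent.Helper31.EC Pool.Agent.Helper40.EL
open Pool.Agent.Helper60.CS Pool.Agent.Helper82.TP Pool.Agent.Helper79.NF Pool.Agent.Helper31.NSB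

noncomputable section

open Sp

section basic

variable {S : Sp} {β : ℕ → Type} (E : ∀ k, (S.F k).Ω → Prop) (V : ∀ k, (S.F k).Ω → β k)

open Classical in
/-- the trimmed variable -/
def trm : ∀ k, (S.F k).Ω → Option (β k) := fun k ω => if E k ω then some (V k ω) else none

variable {E V}

theorem trm_pos {k : ℕ} {ω : (S.F k).Ω} (h : E k ω) : trm E V k ω = some (V k ω) := if_pos h

theorem trm_neg {k : ℕ} {ω : (S.F k).Ω} (h : ¬ E k ω) : trm E V k ω = none := if_neg h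

theorem trm_eq {k : ℕ} {ω ω' : (S.F k).Ω} (h : E k ω ↔ E k ω') (hV : V k ω = V k ω') :
    trm E V k ω = trm E V k ω' := by
  by_cases h1 : E k ω
  · rw [trm_pos h1, trm_pos (h.mp h1), hV]
  · rw [trm_neg h1, trm_neg fun h2 => h1 (h.mpr h2)]

theorem trm_iff {k : ℕ} {ω ω' : (S.F k).Ω} (h : trm E V k ω = trm E V k ω') : E k ω ↔ E k ω' := by
  by_cases h1 : E k ω
  · by_cases h2 : E k ω'
    · exact ⟨fun _ => h2, fun _ => h1⟩
    · rw [trm_pos h1, trm_neg h2] at h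
      exact absurd h (by simp)
  · by_cases h2 : E k ω'
    · rw [trm_neg h1, trm_pos h2] at h
      exact absurd h (by simp)
    · exact ⟨fun h => absurd h h1, fun h => absurd h h2⟩

theorem trm_val {k : ℕ} {ω ω' : (S.F k).Ω} (h : trm E V k ω = trm E V k ω') (h1 : E k ω) : V k ω = V k ω' := by
  have h2 := (trm_iff h).mp h1
  rw [trm_pos h1, trm_pos h2] at h
  exact Option.some.inj h

/-- few values on the event -/
def FewV (E : ∀ k, (S.F k).Ω → Prop) (V : ∀ k, (S.F k).Ω → β k) (C : ℝ) : Prop :=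
  ∀ᶠ k in UF, ∀ ω, (S.F k).μ ω ≠ 0 →
    (nvf (res (S.F k).μ (E k)) (V k) (Quotient.mk (S.F k).Z) ω : ℝ) ≤ 2 ^ (C * (S.F k).n)

/-- few values from cells of large conditional probability of a finer partition -/
theorem FewV.of_large {A : ∀ k, Setoid (S.F k).Ω} {C : ℝ}
    (hE : ∀ᶠ k in UF, ∀ ω, (S.F k).μ ω ≠ 0 → E k ω → Lgc A C k ω)
    (hA : ∀ᶠ k in UF, ∀ ω ω', (S.F k).μ ω ≠ 0 → (S.F k).μ ω' ≠ 0 → (S.F k).Z ω ω' → A k ω ω' → V k ω = V k ω') :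
    FewV E V C := by
  filter_upwards [hE, hA] with k h1 h2 ω hω
  have h3 : ∀ ω', res (S.F k).μ (E k) ω' ≠ 0 → (S.F k).μ ω' ≠ 0 ∧ E k ω' := by
    intro ω' h
    by_cases h4 : E k ω'
    · rw [res_pos _ _ _ h4] at h
      exact ⟨h, h4⟩
    · rw [res_neg _ _ _ h4] at h
      exact absurd rfl h
  have h4 : nvf (res (S.F k).μ (E k)) (V k) (Quotient.mk (S.F k).Z) ω ≤
      nvf (res (S.F k).μ (E k)) (Quotient.mk (A k)) (Quotient.mk (S.F k).Z) ω := by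
    apply nvf_mono
    intro ω₁ ω₂ a b c d e
    exact h2 ω₁ ω₂ (h3 _ a).1 (h3 _ b).1 (Quotient.exact (c.trans d.symm)) (Quotient.exact e)
  have h5 : (nvf (res (S.F k).μ (E k)) (Quotient.mk (A k)) (Quotient.mk (S.F k).Z) ω : ℝ) ≤ 2 ^ (C * (S.F k).n) := by
    apply nvf_le_of_large (S.F k).nn
    · exact (lt_of_le_of_ne ((S.F k).nn ω) (Ne.symm hω)).trans_le (pr_self (S.F k).nn _ ω)
    · intro ω' hω'
      exact h1 ω' (h3 ω' hω').1 (h3 ω' hω').2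
  exact le_trans (by exact_mod_cast h4) h5

theorem FewV.mono {C C' : ℝ} (h : FewV E V C) (hC : C ≤ C') : FewV E V C' := by
  filter_upwards [h] with k h ω hω
  refine (h ω hω).trans ?_
  apply Real.rpow_le_rpow_of_exponent_le (by norm_num)
  exact mul_le_mul_of_nonneg_right hC (S.F k).pos.le

theorem nvf_opt {Ω α γ : Type} [Fintype Ω] (μ ν : Ω → ℝ) (f : Ω → Option α) (X : Ω → α) (g : Ω → γ) (ω : Ω)
    (h : ∀ ω', μ ω' ≠ 0 → f ω' = none ∨ (ν ω' ≠ 0 ∧ f ω' = some (X ω'))) : nvf μ f g ω ≤ nvf ν X g ω + 1 := by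
  classical
  unfold nvf
  rw [← Finset.card_insertNone]
  apply Finset.card_le_card
  intro q hq
  obtain ⟨ω', h2, h3⟩ := e3_mem_image hq
  rw [Finset.mem_filter] at h2
  rw [Finset.mem_insertNone]
  intro a ha
  rcases h ω' h2.2.1 with h4 | ⟨h4, h5⟩
  · rw [← h3, h4] at ha
    exact absurd ha (by simp)
  · rw [← h3, h5] at ha
    have h6 : X ω' = a := Option.some.inj ha
    rw [Finset.mem_image]
    refine ⟨ω', ?_, h6⟩
    rw [Finset.mem_filter]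
    exact ⟨Finset.mem_univ _, h4, h2.2.2⟩

theorem nvf_trm (k : ℕ) (ω : (S.F k).Ω) : nvf (S.F k).μ (trm E V k) (Quotient.mk (S.F k).Z) ω ≤
    nvf (res (S.F k).μ (E k)) (V k) (Quotient.mk (S.F k).Z) ω + 1 := by
  apply nvf_opt
  intro ω' h
  by_cases h1 : E k ω'
  · right
    rw [res_pos _ _ _ h1]
    exact ⟨h, trm_pos h1⟩
  · left
    exact trm_neg h1

theorem two_pow_add_one {C n : ℝ} (hn : 1 ≤ n) : (2 : ℝ) ^ (C * n) + 1 ≤ 2 ^ ((|C| + 1) * n) := by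
  have h1 : (2 : ℝ) ^ (C * n) ≤ 2 ^ (|C| * n) := by
    apply Real.rpow_le_rpow_of_exponent_le (by norm_num)
    exact mul_le_mul_of_nonneg_right (le_abs_self C) (by linarith)
  have h2 : (1 : ℝ) ≤ 2 ^ (|C| * n) := by
    apply Real.one_le_rpow (by norm_num)
    exact mul_nonneg (abs_nonneg _) (by linarith)
  have h3 : (2 : ℝ) ^ ((|C| + 1) * n) = 2 ^ (|C| * n) * 2 ^ n := by
    rw [← Real.rpow_add (by norm_num)]
    congr 1
    ring
  have h4 : (2 : ℝ) ≤ 2 ^ n := by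
    calc (2 : ℝ) = 2 ^ (1 : ℝ) := (Real.rpow_one 2).symm
      _ ≤ 2 ^ n := Real.rpow_le_rpow_of_exponent_le (by norm_num) hn
  rw [h3]
  nlinarith

theorem FewV.nv_le {C : ℝ} (h : FewV E V C) : ∀ᶠ k in UF, ∀ ω, (S.F k).μ ω ≠ 0 →
    (nv (S.F k) (Setoid.ker (trm E V k)) ω : ℝ) ≤ 2 ^ ((|C| + 1) * (S.F k).n) := by
  filter_upwards [h, S.lim.eventually (eventually_ge_atTop 1)] with k h hn ω hω
  rw [nv_ker]
  have h1 : (nvf (S.F k).μ (trm E V k) (Quotient.mk (S.F k).Z) ω : ℝ) ≤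
      nvf (res (S.F k).μ (E k)) (V k) (Quotient.mk (S.F k).Z) ω + 1 := by
    exact_mod_cast nvf_trm (E := E) (V := V) k ω
  refine h1.trans (le_trans ?_ (two_pow_add_one hn))
  have := h ω hω
  linarith

/-- trimmed variables are bounded -/
theorem FewV.bdd {C : ℝ} (h : FewV E V C) : Bdd (trm E V) := ⟨_, h.nv_le⟩

theorem FewV.ubd {S : ℕ → Sp} {β : ℕ → ℕ → Type} {E : ∀ j k, ((S j).F k).Ω → Prop} {V : ∀ j k, ((S j).F k).Ω → β j k}
    {C : ℝ} (h : ∀ j, FewV (S := S j) (E j) (V j) C) : UBd fun j k => trm (S := S j) (E j) (V j) k :=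
  ⟨_, fun j => (h j).nv_le⟩

open Classical in
/-- literal functions of a trimmed variable vanish off the event -/
def trf (E : ∀ k, (S.F k).Ω → Prop) (g : TR S) : TR S := ⟨fun k ω => if E k ω then g.1 k ω else 0, by
  obtain ⟨K, hK, hb⟩ := g.2
  refine ⟨K, hK, ?_⟩
  filter_upwards [hb, hK.1] with k hb hk ω hω
  show |if E k ω then g.1 k ω else 0| ≤ K k
  split_ifs
  · exact hb ω hω
  · rw [abs_zero]
    exact hk⟩

theorem trf_pos {g : TR S} {k : ℕ} {ω : (S.F k).Ω} (h : E k ω) : (trf E g).1 k ω = g.1 k ω := if_pos h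

theorem trf_neg {g : TR S} {k : ℕ} {ω : (S.F k).Ω} (h : ¬ E k ω) : (trf E g).1 k ω = 0 := if_neg h

theorem trf_mk (hE : Typ E) (g : TR S) : QS.mk (trf E g) = QS.mk g := by
  rw [QS.mk_eq]
  refine ⟨E, fun _ => 0, hE, S.Sub_const le_rfl, Eventually.of_forall fun k ω _ h => ?_⟩
  show |(trf E g).1 k ω - g.1 k ω| ≤ _
  rw [trf_pos h, sub_self, abs_zero, zero_mul]

theorem trf_lit {g : TR S} {k : ℕ} (h : FLit (S.F k) (V k) (g.1 k)) : FLit (S.F k) (trm E V k) ((trf E g).1 k) := by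
  intro ω ω' a b c d
  by_cases h1 : E k ω
  · rw [trf_pos h1, trf_pos ((trm_iff d).mp h1)]
    exact h ω ω' a b c (trm_val d h1)
  · rw [trf_neg h1, trf_neg fun h2 => h1 ((trm_iff d).mpr h2)]

/-- a trimmed variable is known to the variable -/
theorem chg_trm (Z' : ∀ k, Setoid (S.F k).Ω) (hb : Bdd (trm E V))
    (hV : ∀ᶠ k in UF, ∀ ω ω', (S.F k).μ ω ≠ 0 → (S.F k).μ ω' ≠ 0 → (S.F k).Z ω ω' → Z' k ω ω' → V k ω = V k ω') :
    chgL Z' 1 one_pos (io (trm E V)) = ⊥ := by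
  classical
  rw [io_eq hb, chgL_cl, ← le_bot_iff, ← h_eq_zero_iff]
  apply le_antisymm _ (h_nonneg _ _)
  rw [← cl_bot, h_cl]
  apply le_of_forall_pos_le_add
  intro ε hε
  rw [zero_add]
  apply ul_le_const (UB_rt _ _)
  filter_upwards [hV, (S.div_n_tendsto 1).eventually (gt_mem_nhds hε)] with k h1 h2
  have e1 : (S.chg Z' 1 one_pos).rt (chgI Z' 1 one_pos hb.toInf).1 (Inf.bot (S := S.chg Z' 1 one_pos)).1 k =
      (S.F k).e (Setoid.ker (trm E V k)) (⊤ ⊓ (Z' k ⊓ (S.F k).Z)) / (1 * (S.F k).n) := rfl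
  rw [e1, one_mul, top_inf_eq]
  refine le_trans ?_ h2.le
  apply div_le_div_of_nonneg_right _ (S.F k).pos.le
  obtain ⟨X, hX⟩ : ∃ X : (S.F k).Ω → Fin 1 → ℤ, X = fun ω _ => if E k ω then 1 else 0 := ⟨_, rfl⟩
  have e2 := (S.F k).e_triangle (Setoid.ker (trm E V k)) (Setoid.ker X) (Z' k ⊓ (S.F k).Z)
  have e3 : (S.F k).e (Setoid.ker (trm E V k)) (Setoid.ker X ⊓ (Z' k ⊓ (S.F k).Z)) = 0 := by
    apply (S.F k).e_zero
    intro ω ω' a b c
    have c1 : X ω = X ω' := c.1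
    have c2 : V k ω = V k ω' := h1 ω ω' a b c.2.2 c.2.1
    apply trm_eq _ c2
    have c3 := congrFun c1 0
    rw [hX] at c3
    simp only at c3
    constructor
    · intro h
      by_contra h'
      rw [if_pos h, if_neg h'] at c3
      exact absurd c3 (by norm_num)
    · intro h
      by_contra h'
      rw [if_neg h', if_pos h] at c3
      exact absurd c3 (by norm_num)
  have e4 : (S.F k).e (Setoid.ker X) (Z' k ⊓ (S.F k).Z) ≤ 1 := by
    have e5 := (S.F k).e_int_le X (Z' k ⊓ (S.F k).Z) 1 (by norm_num) (by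
      intro ω ω' _ _ _ i
      rw [hX]
      show |(((if E k ω then 1 else 0 : ℤ)) : ℝ) - ((if E k ω' then 1 else 0 : ℤ) : ℝ)| ≤ 1
      split_ifs <;> simp)
    refine e5.trans (le_of_eq ?_)
    rw [show (1 : ℝ) + 1 = 2 by norm_num, Real.logb_self_eq_one (by norm_num)]
    simp
  linarith

end basic

/-! ### agreement -/

section agree

variable {S : Sp} {α β β' γ : ℕ → Type} {VA : ∀ k, (S.F k).Ω → α k} {VB : ∀ k, (S.F k).Ω → γ k}
  {E : ∀ k, (S.F k).Ω → Prop} {V : ∀ k, (S.F k).Ω → β k} {V' : ∀ k, (S.F k).Ω → β' k}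

/-- extension of a literal function of trimmed variables by its formula -/
theorem ext_lit {F : FSp} {α β : Type} {X : F.Ω → α} {Y : F.Ω → β} {e : F.Ω → Prop} {g : F.Ω → ℝ}
    (h : ∀ ω ω', F.μ ω ≠ 0 → F.μ ω' ≠ 0 → F.Z ω ω' → e ω → e ω' → X ω = X ω' → Y ω = Y ω' → g ω = g ω') :
    ∃ g' : F.Ω → ℝ, FLit F (fun ω => (X ω, Y ω)) g' ∧ ∀ ω, F.μ ω ≠ 0 → e ω → g' ω = g ω := by
  classical
  refine ⟨fun ω => if h : ∃ ω', F.μ ω' ≠ 0 ∧ e ω' ∧ F.Z ω ω' ∧ X ω = X ω' ∧ Y ω = Y ω' then g h.choose else 0,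
    ?_, ?_⟩
  · intro ω ω' a b c d
    rw [Prod.mk.injEq] at d
    by_cases h1 : ∃ ω1, F.μ ω1 ≠ 0 ∧ e ω1 ∧ F.Z ω ω1 ∧ X ω = X ω1 ∧ Y ω = Y ω1
    · have h2 : ∃ ω1, F.μ ω1 ≠ 0 ∧ e ω1 ∧ F.Z ω' ω1 ∧ X ω' = X ω1 ∧ Y ω' = Y ω1 := by
        obtain ⟨ω1, a1, a2, a3, a4, a5⟩ := h1
        exact ⟨ω1, a1, a2, F.Z.trans (F.Z.symm c) a3, d.1.symm.trans a4, d.2.symm.trans a5⟩
      have e1 : (if h : ∃ ω1, F.μ ω1 ≠ 0 ∧ e ω1 ∧ F.Z ω ω1 ∧ X ω = X ω1 ∧ Y ω = Y ω1 then g h.choose else 0) =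
          g h1.choose := dif_pos h1
      have e2 : (if h : ∃ ω1, F.μ ω1 ≠ 0 ∧ e ω1 ∧ F.Z ω' ω1 ∧ X ω' = X ω1 ∧ Y ω' = Y ω1 then g h.choose else 0) =
          g h2.choose := dif_pos h2
      show (if h : ∃ ω1, F.μ ω1 ≠ 0 ∧ e ω1 ∧ F.Z ω ω1 ∧ X ω = X ω1 ∧ Y ω = Y ω1 then g h.choose else 0) =
        (if h : ∃ ω1, F.μ ω1 ≠ 0 ∧ e ω1 ∧ F.Z ω' ω1 ∧ X ω' = X ω1 ∧ Y ω' = Y ω1 then g h.choose else 0)
      rw [e1, e2]
      obtain ⟨a1, a2, a3, a4, a5⟩ := h1.choose_spec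
      obtain ⟨b1, b2, b3, b4, b5⟩ := h2.choose_spec
      exact h _ _ a1 b1 (F.Z.trans (F.Z.symm a3) (F.Z.trans c b3)) a2 b2 (a4.symm.trans (d.1.trans b4))
        (a5.symm.trans (d.2.trans b5))
    · have h2 : ¬ ∃ ω1, F.μ ω1 ≠ 0 ∧ e ω1 ∧ F.Z ω' ω1 ∧ X ω' = X ω1 ∧ Y ω' = Y ω1 := by
        rintro ⟨ω1, a1, a2, a3, a4, a5⟩
        exact h1 ⟨ω1, a1, a2, F.Z.trans c a3, d.1.trans a4, d.2.trans a5⟩
      have e1 : (if h : ∃ ω1, F.μ ω1 ≠ 0 ∧ e ω1 ∧ F.Z ω ω1 ∧ X ω = X ω1 ∧ Y ω = Y ω1 then g h.choose else 0) =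
          0 := dif_neg h1
      have e2 : (if h : ∃ ω1, F.μ ω1 ≠ 0 ∧ e ω1 ∧ F.Z ω' ω1 ∧ X ω' = X ω1 ∧ Y ω' = Y ω1 then g h.choose else 0) =
          0 := dif_neg h2
      show (if h : ∃ ω1, F.μ ω1 ≠ 0 ∧ e ω1 ∧ F.Z ω ω1 ∧ X ω = X ω1 ∧ Y ω = Y ω1 then g h.choose else 0) =
        (if h : ∃ ω1, F.μ ω1 ≠ 0 ∧ e ω1 ∧ F.Z ω' ω1 ∧ X ω' = X ω1 ∧ Y ω' = Y ω1 then g h.choose else 0)
      rw [e1, e2]
  · intro ω a b
    have h1 : ∃ ω1, F.μ ω1 ≠ 0 ∧ e ω1 ∧ F.Z ω ω1 ∧ X ω = X ω1 ∧ Y ω = Y ω1 := ⟨ω, a, b, F.Z.refl ω, rfl, rfl⟩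
    show (if h : ∃ ω1, F.μ ω1 ≠ 0 ∧ e ω1 ∧ F.Z ω ω1 ∧ X ω = X ω1 ∧ Y ω = Y ω1 then g h.choose else 0) = g ω
    rw [dif_pos h1]
    obtain ⟨a1, a2, a3, a4, a5⟩ := h1.choose_spec
    exact (h _ _ a a1 a3 b a2 a4 a5).symm

theorem CH_floor_rt {F : FSp} {α β : Type} (X : F.Ω → α) (K : F.Ω → β) (E : F.Ω → Prop) :
    CH (F.rest E).μ X (fun ω => (K ω, Quotient.mk F.Z ω)) =
      (F.rest E).e (Setoid.ker X) (Setoid.ker K ⊓ F.Z) := by
  have key1 : ∀ ω ω' : F.Ω, (Quotient.mk (Setoid.ker K ⊓ F.Z) ω' = Quotient.mk (Setoid.ker K ⊓ F.Z) ω) ↔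
      ((K ω', Quotient.mk F.Z ω') = (K ω, Quotient.mk F.Z ω)) := by
    intro ω ω'
    rw [Prod.mk.injEq]
    constructor
    · intro h
      have h' := Quotient.exact h
      exact ⟨h'.1, Quotient.sound h'.2⟩
    · intro h
      exact Quotient.sound ⟨h.1, Quotient.exact h.2⟩
  have key2 : ∀ ω ω' : F.Ω, (Quotient.mk (Setoid.ker X) ω' = Quotient.mk (Setoid.ker X) ω) ↔ X ω' = X ω := by
    intro ω ω'
    constructor
    · intro h
      exact Quotient.exact h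
    · intro h
      exact Quotient.sound h
  symm
  apply e2_CH_congr
  · intro ω ω' _ _
    exact key1 ω ω'
  · intro ω ω' _ _
    rw [Prod.mk.injEq, Prod.mk.injEq]
    exact and_congr (key2 ω ω') (key1 ω ω')

/-- AGREEMENT passes to trimmed labels -/
theorem AGr.trm (hE : Typ E) (hB : Bdd VB) (hV : Bdd (trm E V)) (hV' : Bdd (trm E V'))
    (h : AGr (fun k ω => (VA k ω, V k ω)) (fun k ω => (VB k ω, V' k ω)) V) :
    AGr (fun k ω => (VA k ω, HCI.trm E V k ω)) (fun k ω => (VB k ω, HCI.trm E V' k ω)) (HCI.trm E V) := by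
  classical
  intro G gA gB δ r hG hr0 hr hδ hA hB' hm η hη
  have hxA : ∀ k, ∃ g' : (S.F k).Ω → ℝ, FLit (S.F k) (fun ω => (VA k ω, HCI.trm E V k ω)) (gA k) →
      FLit (S.F k) (fun ω => (VA k ω, V k ω)) g' ∧ ∀ ω, (S.F k).μ ω ≠ 0 → E k ω → g' ω = gA k ω := by
    intro k
    by_cases h1 : FLit (S.F k) (fun ω => (VA k ω, HCI.trm E V k ω)) (gA k)
    · obtain ⟨g', h2, h3⟩ := ext_lit (F := S.F k) (X := VA k) (Y := V k) (e := E k) (g := gA k) (by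
        intro ω ω' a b c d e f g
        apply h1 ω ω' a b c
        rw [Prod.mk.injEq]
        exact ⟨f, trm_eq ⟨fun _ => e, fun _ => d⟩ g⟩)
      exact ⟨g', fun _ => ⟨h2, h3⟩⟩
    · exact ⟨gA k, fun h2 => absurd h2 h1⟩
  have hxB : ∀ k, ∃ g' : (S.F k).Ω → ℝ, FLit (S.F k) (fun ω => (VB k ω, HCI.trm E V' k ω)) (gB k) →
      FLit (S.F k) (fun ω => (VB k ω, V' k ω)) g' ∧ ∀ ω, (S.F k).μ ω ≠ 0 → E k ω → g' ω = gB k ω := by
    intro k
    by_cases h1 : FLit (S.F k) (fun ω => (VB k ω, HCI.trm E V' k ω)) (gB k)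
    · obtain ⟨g', h2, h3⟩ := ext_lit (F := S.F k) (X := VB k) (Y := V' k) (e := E k) (g := gB k) (by
        intro ω ω' a b c d e f g
        apply h1 ω ω' a b c
        rw [Prod.mk.injEq]
        exact ⟨f, trm_eq ⟨fun _ => e, fun _ => d⟩ g⟩)
      exact ⟨g', fun _ => ⟨h2, h3⟩⟩
    · exact ⟨gB k, fun h2 => absurd h2 h1⟩
  choose gA' hgA using hxA
  choose gB' hgB using hxB
  -- the event
  have hT : Typ (S := S.rest G) E := Sp.Typ.rest (S := S) G hG hE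
  have hG' : 0 < ul (S.pr fun k ω => G k ω ∧ E k ω) := by
    have h1 : ∀ᶠ k in UF, ul (S.pr G) / 4 ≤ S.pr (fun k ω => G k ω ∧ E k ω) k := by
      have h2 : ∀ᶠ k in UF, (1 : ℝ) / 2 ≤ (S.rest G).pr E k := by
        have h3 := pr_half' (S := S.rest G) (E := E) (by rw [ul_pr_typ _ hT]; norm_num)
        rw [ul_pr_typ _ hT] at h3
        exact h3
      filter_upwards [pr_half' hG, h2] with k h3 h4
      refine le_trans ?_ (pb_and (S.F k) (G k) (E k))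
      have h5 : (1 : ℝ) / 2 ≤ ((S.F k).rest (G k)).pb (E k) := h4
      have h6 : ul (S.pr G) / 2 ≤ (S.F k).pb (G k) := h3
      nlinarith
    have h2 := const_le_ul (UB_pr (S := S) fun k ω => G k ω ∧ E k ω) h1
    linarith
  have hfin := h (fun k ω => G k ω ∧ E k ω) gA' gB' δ r hG' hr0 hr hδ
    (by filter_upwards [hA] with k hk using (hgA k hk).1) (by filter_upwards [hB'] with k hk using (hgB k hk).1)
    (by
      filter_upwards [hA, hB', hm] with k h1 h2 h3 ω a b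
      rw [(hgA k h1).2 ω a b.2, (hgB k h2).2 ω a b.2]
      exact h3 ω a b.1) (η / 2) (half_pos hη)
  -- classes in the space of the event
  obtain ⟨X, hX⟩ : ∃ X : ∀ k, ((S.rest G).F k).Ω → ℤ, X = fun k ω => ⌊gB k ω / S.dl r k⌋ := ⟨_, rfl⟩
  have bX : Bdd (S := S.rest G) X := by
    have b1 : Bdd (S := S.rest G) fun k ω => (VB k ω, HCI.trm E V' k ω) := rest_VB G (hB.pair hV')
    refine b1.of_fun ?_
    filter_upwards [hB'] with k hk ω ω' a b c d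
    have h1 := hk ω ω' ((S.F k).rest_supp (G k) ω a).1 ((S.F k).rest_supp (G k) ω' b).1 c d
    rw [hX]
    show ⌊gB k ω / S.dl r k⌋ = ⌊gB k ω' / S.dl r k⌋
    rw [h1]
  have bK : Bdd (S := S.rest G) (HCI.trm E V) := rest_VB G hV
  have key : Pool.Agent.Helper31.EC.h (io (S := S.rest G) X) (io (S := S.rest G) (HCI.trm E V)) ≤ η / 2 := by
    obtain ⟨E1, hE1⟩ : ∃ E1 : ∀ k, ((S.rest G).F k).Ω → Prop, E1 = E := ⟨_, rfl⟩
    have hT1 : Typ E1 := by rw [hE1]; exact hT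
    have e0 := Sp.h_restL_typ (S := S.rest G) E1 hT1 (io X) (io (HCI.trm E V))
    have bX' : Bdd (S := (S.rest G).rest E1) X := rest_VB E1 bX
    have bK' : Bdd (S := (S.rest G).rest E1) (HCI.trm E V) := rest_VB E1 bK
    have e01 : restL E1 (ul_pr_typ_pos E1 hT1) (io (S := S.rest G) X) = io (S := (S.rest G).rest E1) X :=
      restL_io E1 _ bX
    have e02 : restL E1 (ul_pr_typ_pos E1 hT1) (io (S := S.rest G) (HCI.trm E V)) =
        io (S := (S.rest G).rest E1) (HCI.trm E V) := restL_io E1 _ bK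
    rw [e01, e02, h_io bX' bK'] at e0
    rw [← e0]
    clear e0 e01 e02
    have hE1' : E = E1 := hE1.symm
    clear hE1
    subst hE1'
    apply ul_le_const (UB_rt bX'.toInf _)
    have hEE : ∀ᶠ k in UF, ul (S.pr fun k ω => G k ω ∧ E k ω) / 2 ≤ S.pr (fun k ω => G k ω ∧ E k ω) k := pr_half' hG'
    filter_upwards [hfin, hEE, hB'] with k h1 h2 h3
    have hn := (S.F k).pos
    have h8 : (S.F k).pb (fun ω => G k ω ∧ E k ω) ≠ 0 := ((half_pos hG').trans_le h2).ne'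
    show (((S.F k).rest (G k)).rest (E k)).e (Setoid.ker (X k)) (Setoid.ker (HCI.trm E V k) ⊓ (S.F k).Z) /
      (S.F k).n ≤ η / 2
    rw [div_le_iff₀ hn]
    refine le_trans (le_of_eq ?_) h1
    have e1 : (((S.F k).rest (G k)).rest (E k)).e (Setoid.ker (X k)) (Setoid.ker (HCI.trm E V k) ⊓ (S.F k).Z) =
        ((S.F k).rest fun ω => G k ω ∧ E k ω).e (Setoid.ker (X k)) (Setoid.ker (HCI.trm E V k) ⊓ (S.F k).Z) := by
      show CH (((S.F k).rest (G k)).rest (E k)).μ _ _ = CH ((S.F k).rest fun ω => G k ω ∧ E k ω).μ _ _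
      rw [rest_rest_mu (S.F k) (G k) (E k) h8]
      rfl
    rw [e1, ← CH_floor_rt (F := S.F k) (X k) (HCI.trm E V k) fun ω => G k ω ∧ E k ω]
    have hs : ∀ ω, ((S.F k).rest fun ω => G k ω ∧ E k ω).μ ω ≠ 0 → (S.F k).μ ω ≠ 0 ∧ E k ω := fun ω hω =>
      ⟨((S.F k).rest_supp _ ω hω).1, (((S.F k).rest_supp _ ω hω).2 h8).2⟩
    apply e2_CH_congr
    · intro ω ω' a b
      have a1 := (hs ω a).2
      have b1 := (hs ω' b).2
      rw [Prod.mk.injEq, Prod.mk.injEq, trm_pos a1, trm_pos b1, Option.some.injEq]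
    · intro ω ω' a b
      have a1 := (hs ω a).2
      have b1 := (hs ω' b).2
      have e2 : X k ω' = ⌊gB' k ω' / S.dl r k⌋ := by
        rw [hX, (hgB k h3).2 ω' (hs ω' b).1 b1]
      have e3 : X k ω = ⌊gB' k ω / S.dl r k⌋ := by
        rw [hX, (hgB k h3).2 ω (hs ω a).1 a1]
      rw [Prod.mk.injEq, Prod.mk.injEq, Prod.mk.injEq, Prod.mk.injEq, trm_pos a1, trm_pos b1, Option.some.injEq,
        e2, e3]
  rw [h_io bX bK] at key
  have k2 := eventually_lt_of_ul_lt (UB_rt bX.toInf _) (lt_of_le_of_lt key (half_lt_self hη))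
  filter_upwards [k2] with k hk
  have hn := (S.F k).pos
  have h1 : ((S.F k).rest (G k)).e (Setoid.ker (X k)) (Setoid.ker (HCI.trm E V k) ⊓ (S.F k).Z) / (S.F k).n < η := hk
  rw [div_lt_iff₀ hn, ← CH_floor_rt (F := S.F k) (X k) (HCI.trm E V k) (G k)] at h1
  rw [hX] at h1
  exact h1.le

end agree

/-! ### order -/

section order

variable {S : Sp} {β β' : ℕ → Type} {E : ∀ k, (S.F k).Ω → Prop} {V : ∀ k, (S.F k).Ω → β k}
  {V' : ∀ k, (S.F k).Ω → β' k}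

/-- `V` is literally a function of `V'` over the base -/
def LFn (V : ∀ k, (S.F k).Ω → β k) (V' : ∀ k, (S.F k).Ω → β' k) (k : ℕ) : Prop :=
  ∀ ω ω', (S.F k).μ ω ≠ 0 → (S.F k).μ ω' ≠ 0 → (S.F k).Z ω ω' → V' k ω = V' k ω' → V k ω = V k ω'

theorem LFn.trm {k : ℕ} (h : LFn V V' k) : LFn (HCI.trm E V) (HCI.trm E V') k := by
  intro ω ω' a b c d
  by_cases h1 : E k ω
  · exact trm_eq (trm_iff d) (h ω ω' a b c (trm_val d h1))
  · rw [trm_neg h1, trm_neg fun h2 => h1 ((trm_iff d).mpr h2)]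

theorem io_trm_mono (hb : Bdd (HCI.trm E V')) (h : ∀ᶠ k in UF, LFn V V' k) :
    io (HCI.trm E V) ≤ io (HCI.trm E V') := by
  apply io_le_of_fun hb
  filter_upwards [h] with k h ω ω' a b c d using h.trm ω ω' a b c d

/-- a trimmed function of the base is trivial -/
theorem io_trm_bot (hb : Bdd (HCI.trm E V))
    (h : ∀ᶠ k in UF, ∀ ω ω', (S.F k).μ ω ≠ 0 → (S.F k).μ ω' ≠ 0 → (S.F k).Z ω ω' → V k ω = V k ω') :
    io (HCI.trm E V) = ⊥ := by
  have h1 := chg_trm (E := E) (V := V) (S.tr) hb (h.mono fun k h ω ω' a b c _ => h ω ω' a b c)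
  rw [io_eq hb] at h1 ⊢
  have h2 := h_cl hb.toInf (Inf.bot (S := S))
  rw [chgL_cl, ← le_bot_iff, ← h_eq_zero_iff, ← cl_bot, h_cl] at h1
  rw [← le_bot_iff, ← h_eq_zero_iff, ← cl_bot, h_cl]
  rw [← h1]
  congr 1
  funext k
  have e1 := chg_rt S.tr 1 one_pos hb.toInf.1 (Inf.bot (S := S)).1 k
  rw [div_one] at e1
  have e2 : S.rt hb.toInf.1 (fun k => (Inf.bot (S := S)).1 k ⊓ S.tr k) k = S.rt hb.toInf.1 (Inf.bot (S := S)).1 k := by
    have e3 : (fun k => (Inf.bot (S := S)).1 k ⊓ S.tr k) = (Inf.bot (S := S)).1 := by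
      funext k
      exact inf_top_eq _
    rw [e3]
  exact e2.symm.trans e1.symm

end order

/-! ### corners -/

section corner

variable {S : Sp}

/-- trimming of the labels of a corner -/
def rdt (H : RD S) (E : ∀ k, (S.F k).Ω → Prop) : RD S :=
  { H with
    β := fun s k => Option (H.β s k)
    K := fun s => trm E (H.K s) }

theorem AgW.rdt {H : RD S} {E : ∀ k, (S.F k).Ω → Prop} (hE : Typ E) {s s' : ℝ} (hB : Bdd H.VB)
    (hV : Bdd (trm E (H.K s))) (hV' : Bdd (trm E (H.K s'))) (h : AgW H s s') : AgW (HCI.rdt H E) s s' :=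
  AGr.trm hE hB hV hV' h

theorem NsAt.rdt {H : RD S} {E : ∀ k, (S.F k).Ω → Prop} {s s' : ℝ} {k : ℕ} (h : NsAt H s s' k) :
    NsAt (HCI.rdt H E) s s' k := LFn.trm (V := H.K s) (V' := H.K s') h

theorem lnest_rdt {H : RD S} {Sc : Set ℝ} (h : LNest H Sc) (E : ∀ k, (S.F k).Ω → Prop) : LNest (HCI.rdt H E) Sc := by
  intro s hs s' hs' hss
  filter_upwards [h s hs s' hs' hss] with k hk using NsAt.rdt hk

/-- raw input of the diagonal of corners: labels with few cells on a typical event -/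
structure RIn (Sc : Set ℝ) where
  S : ℕ → Sp
  H : ∀ j, RD (S j)
  f : ∀ j, FR (S j)
  E : ∀ j k, ((S j).F k).Ω → Prop
  hE : ∀ j, Typ (E j)
  fw : ∀ s ∈ Sc, ∃ C : ℝ, ∀ j, FewV (S := S j) (E j) ((H j).K s) C
  bA : UBd fun j k => (H j).VA k
  bB : UBd fun j k => (H j).VB k
  r10 : Fin 10 → ∀ j, TR (S j)
  r10_mk : ∀ i j, QS.mk (r10 i j) = b10 (H j) i
  r10_litB : ∀ (i : Fin 10), (i : ℕ) < 4 → ∀ j, ∀ᶠ k in UF, FLit ((S j).F k) ((H j).VB k) ((r10 i j).1 k)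
  r10_litA : ∀ (i : Fin 10), ¬ (i : ℕ) < 4 → ∀ j, ∀ᶠ k in UF, FLit ((S j).F k) ((H j).VA k) ((r10 i j).1 k)
  r9 : Fin 9 → Sc → ∀ j, TR (S j)
  r9_mk : ∀ i (s : Sc) j, QS.mk (r9 i s j) = f9 (f j) s i
  r9_lit : ∀ i (s : Sc) j, ∀ᶠ k in UF, FLit ((S j).F k) ((H j).K s k) ((r9 i s j).1 k)

namespace RIn

variable {Sc : Set ℝ} (I : RIn Sc)

theorem bdd {s : ℝ} (hs : s ∈ Sc) (j : ℕ) : Bdd (trm (I.E j) ((I.H j).K s)) := by
  obtain ⟨C, hC⟩ := I.fw s hs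
  exact (hC j).bdd

/-- the trimmed input -/
def inp : Inp Sc where
  S := I.S
  H := fun j => rdt (I.H j) (I.E j)
  f := I.f
  bK := fun s hs => by
    obtain ⟨C, hC⟩ := I.fw s hs
    exact FewV.ubd hC
  bA := I.bA
  bB := I.bB
  r10 := I.r10
  r10_mk := I.r10_mk
  r10_litB := I.r10_litB
  r10_litA := I.r10_litA
  r9 := fun i s j => trf (I.E j) (I.r9 i s j)
  r9_mk := fun i s j => (trf_mk (I.hE j) _).trans (I.r9_mk i s j)
  r9_lit := fun i s j => by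
    filter_upwards [I.r9_lit i s j] with k hk using trf_lit hk

theorem agw {j : ℕ} {s s' : ℝ} (hs : s ∈ Sc) (hs' : s' ∈ Sc) (h : AgW (I.H j) s s') : AgW (I.inp.H j) s s' :=
  AgW.rdt (I.hE j) (I.bB.bdd j) (I.bdd hs j) (I.bdd hs' j) h

theorem nest {j : ℕ} (h : LNest (I.H j) Sc) : LNest (I.inp.H j) Sc := lnest_rdt h _

theorem mono {j : ℕ} (h : LNest (I.H j) Sc) {s s' : ℝ} (hs : s ∈ Sc) (hs' : s' ∈ Sc) (hss : s ≤ s') :
    (I.inp.H j).κ s ≤ (I.inp.H j).κ s' := io_trm_mono (I.bdd hs' j) (h s hs s' hs' hss)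

/-- the trimmed labels are known to finer bases -/
theorem chg_bot {j : ℕ} (Z' : ∀ k, Setoid ((I.S j).F k).Ω) {s : ℝ} (hs : s ∈ Sc)
    (hV : ∀ᶠ k in UF, ∀ ω ω', ((I.S j).F k).μ ω ≠ 0 → ((I.S j).F k).μ ω' ≠ 0 → ((I.S j).F k).Z ω ω' → Z' k ω ω' →
      (I.H j).K s k ω = (I.H j).K s k ω') : chgL Z' 1 one_pos ((I.inp.H j).κ s) = ⊥ :=
  chg_trm Z' (I.bdd hs j) hV

end RIn

end corner

end

end Pool.Agent.Helper80.HCI
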