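import Pool.Agent.Helper80.HCI.Fzf

/-! Fullness of the projections at a space of the sequence (`FzE`) from the exact fullness of all projections
`be z^ + al R^` over the label of a window. -/

set_option autoImplicit false

namespace Pool.Agent.Helper80.HCI

open Finset Filter Topology Pool.Agent.Helper69.RK Pool.Agent.Helper31.EC Pool.Agent.Helper40.EL
open Pool.Agent.Helper60.CS Pool.Agent.Helper82.TP Pool.Agent.Helper79.NF Pool.Agent.Helper31.NSB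

noncomputable section

open Sp QS

/-- the entropy of a trimmed variable given a partition which determines the variable -/
theorem e_trm_le (F : FSp) {β : Type} (E : F.Ω → Prop) (V : F.Ω → β) (V' : F.Ω → Option β)
    (hV' : ∀ ω, (E ω → V' ω = some (V ω)) ∧ (¬ E ω → V' ω = none)) (C : Setoid F.Ω)
    (h : ∀ ω ω', F.μ ω ≠ 0 → F.μ ω' ≠ 0 → C ω ω' → V ω = V ω') : F.e (Setoid.ker V') C ≤ 1 := by
  classical
  obtain ⟨X, hX⟩ : ∃ X : F.Ω → Fin 1 → ℤ, X = fun ω _ => if E ω then 1 else 0 := ⟨_, rfl⟩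
  have e2 := F.e_triangle (Setoid.ker V') (Setoid.ker X) C
  have e3 : F.e (Setoid.ker V') (Setoid.ker X ⊓ C) = 0 := by
    apply F.e_zero
    intro ω ω' a b c
    have c1 : X ω = X ω' := c.1
    have c2 : V ω = V ω' := h ω ω' a b c.2
    have c3 := congrFun c1 0
    rw [hX] at c3
    simp only at c3
    show V' ω = V' ω'
    by_cases h1 : E ω
    · by_cases h2 : E ω'
      · rw [(hV' ω).1 h1, (hV' ω').1 h2, c2]
      · rw [if_pos h1, if_neg h2] at c3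
        exact absurd c3 (by norm_num)
    · by_cases h2 : E ω'
      · rw [if_neg h1, if_pos h2] at c3
        exact absurd c3 (by norm_num)
      · rw [(hV' ω).2 h1, (hV' ω').2 h2]
  have e4 : F.e (Setoid.ker X) C ≤ 1 := by
    have e5 := F.e_int_le X C 1 (by norm_num) (by
      intro ω ω' _ _ _ i
      rw [hX]
      show |(((if E ω then 1 else 0 : ℤ)) : ℝ) - ((if E ω' then 1 else 0 : ℤ) : ℝ)| ≤ 1
      split_ifs <;> simp)
    refine e5.trans (le_of_eq ?_)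
    rw [show (1 : ℝ) + 1 = 2 by norm_num, Real.logb_self_eq_one (by norm_num)]
    simp
  linarith

theorem trm_spec {S : Sp} {β : ℕ → Type} (E : ∀ k, (S.F k).Ω → Prop) (V : ∀ k, (S.F k).Ω → β k) (k : ℕ)
    (ω : (S.F k).Ω) : (E k ω → trm E V k ω = some (V k ω)) ∧ (¬ E k ω → trm E V k ω = none) :=
  ⟨trm_pos, trm_neg⟩

section chg

variable {S : Sp} {V0 V1 : ∀ k, Setoid (S.F k).Ω} {e0 e1 : ℝ} {he0 : 0 < e0} {he1 : 0 < e1}

/-- `V1` is literally finer than `V0` -/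
def FnS (V1 V0 : ∀ k, Setoid (S.F k).Ω) (k : ℕ) : Prop :=
  ∀ ω ω', (S.F k).μ ω ≠ 0 → (S.F k).μ ω' ≠ 0 → (S.F k).Z ω ω' → V1 k ω ω' → V0 k ω ω'

/-- bounded variables over a finer base -/
theorem bdd_chg (hV : ∀ᶠ k in UF, FnS V1 V0 k) {α : ℕ → Type} {X : ∀ k, (S.F k).Ω → α k}
    (hX : Bdd (S := S.chg V0 e0 he0) X) : Bdd (S := S.chg V1 e1 he1) X := by
  obtain ⟨C, hC⟩ := hX
  refine ⟨C * e0 / e1, ?_⟩
  filter_upwards [hC, hV] with k h1 h2 ω hω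
  have h3 := h1 ω hω
  have e2 : (2 : ℝ) ^ (C * ((S.chg V0 e0 he0).F k).n) = 2 ^ (C * e0 / e1 * ((S.chg V1 e1 he1).F k).n) := by
    show (2 : ℝ) ^ (C * (e0 * (S.F k).n)) = 2 ^ (C * e0 / e1 * (e1 * (S.F k).n))
    congr 1
    field_simp
  rw [← e2]
  refine le_trans ?_ h3
  have h4 : nv ((S.chg V1 e1 he1).F k) (Setoid.ker (X k)) ω ≤ nv ((S.chg V0 e0 he0).F k) (Setoid.ker (X k)) ω := by
    apply nvf_le_of_rel
    intro ω' hω' hh
    apply Quotient.sound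
    have h5 : (V1 k ⊓ (S.F k).Z) ω' ω := Quotient.exact hh
    show (V0 k ⊓ (S.F k).Z) ω' ω
    exact ⟨h2 ω' ω hω' hω h5.2 h5.1, h5.2⟩
  exact_mod_cast h4

theorem sub_unchg {K : ℕ → ℝ} (hK : (S.chg V0 e0 he0).Sub K) : S.Sub K := by
  refine ⟨hK.1, ?_⟩
  have h1 := hK.2.const_mul e0
  rw [mul_zero] at h1
  refine h1.congr fun k => ?_
  show e0 * (Real.logb 2 (K k + 2) / (e0 * (S.F k).n)) = Real.logb 2 (K k + 2) / (S.F k).n
  field_simp

end chg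

/-- the inequality between real numbers -/
theorem fz_ineq {z R t y z' R' t' y' c2 c3 c4 c5 c6 c7 g gB gB' Pz PR Pz' PR' d r K L : ℝ} (hK : 0 ≤ K)
    (hL : 0 ≤ L)
    (hR : |R - (c2 + c3 * t + c4 * y + PR)| ≤ K * d) (hR' : |R' - (c2 + c3 * t' + c4 * y' + PR')| ≤ K * d)
    (hz : |z - (c5 + c6 * t + c7 * y + Pz)| ≤ K * d)
    (hz' : |z' - (c5 + c6 * t' + c7 * y' + Pz')| ≤ K * d)
    (hg : |gB - g| ≤ r) (hg' : |gB' - g| ≤ r) (hRK : |R| ≤ K) (hRK' : |R'| ≤ K) (ht : |t - t'| ≤ d)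
    (hy : |y - y'| ≤ d) (hX : |(z - gB * R) - (z' - gB' * R')| ≤ d) (h3 : |c3| ≤ K) (h4 : |c4| ≤ K) (h6 : |c6| ≤ K)
    (h7 : |c7| ≤ K) (hgc : |g| ≤ L) :
    |(Pz - g * PR) - (Pz' - g * PR')| ≤ d + 2 * (r * K) + 4 * (K * d) + 4 * (L * (K * d)) := by
  obtain ⟨a, ha⟩ : ∃ a, a = R - (c2 + c3 * t + c4 * y + PR) := ⟨_, rfl⟩
  obtain ⟨a', ha'⟩ : ∃ a', a' = R' - (c2 + c3 * t' + c4 * y' + PR') := ⟨_, rfl⟩
  obtain ⟨b, hb⟩ : ∃ b, b = z - (c5 + c6 * t + c7 * y + Pz) := ⟨_, rfl⟩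
  obtain ⟨b', hb'⟩ : ∃ b', b' = z' - (c5 + c6 * t' + c7 * y' + Pz') := ⟨_, rfl⟩
  rw [← ha] at hR
  rw [← ha'] at hR'
  rw [← hb] at hz
  rw [← hb'] at hz'
  have e1 : (Pz - g * PR) - (Pz' - g * PR') =
      ((z - gB * R) - (z' - gB' * R')) + (gB - g) * R - (gB' - g) * R' + (-c6 * (t - t')) + g * (c3 * (t - t')) +
        (-c7 * (y - y')) + g * (c4 * (y - y')) - b + b' + g * a - g * a' := by
    rw [ha, ha', hb, hb']
    ring
  rw [e1]
  have b1 : |(gB - g) * R| ≤ r * K := by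
    rw [abs_mul]; exact mul_le_mul hg hRK (abs_nonneg _) ((abs_nonneg _).trans hg)
  have b2 : |(gB' - g) * R'| ≤ r * K := by
    rw [abs_mul]; exact mul_le_mul hg' hRK' (abs_nonneg _) ((abs_nonneg _).trans hg')
  have b3 : |(-c6 * (t - t'))| ≤ K * d := by
    rw [abs_mul, abs_neg]; exact mul_le_mul h6 ht (abs_nonneg _) hK
  have b4 : |(-c7 * (y - y'))| ≤ K * d := by
    rw [abs_mul, abs_neg]; exact mul_le_mul h7 hy (abs_nonneg _) hK
  have b5 : |g * (c3 * (t - t'))| ≤ L * (K * d) := by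
    rw [abs_mul, abs_mul]
    exact mul_le_mul hgc (mul_le_mul h3 ht (abs_nonneg _) hK) (mul_nonneg (abs_nonneg _) (abs_nonneg _)) hL
  have b6 : |g * (c4 * (y - y'))| ≤ L * (K * d) := by
    rw [abs_mul, abs_mul]
    exact mul_le_mul hgc (mul_le_mul h4 hy (abs_nonneg _) hK) (mul_nonneg (abs_nonneg _) (abs_nonneg _)) hL
  have b7 : |g * a| ≤ L * (K * d) := by
    rw [abs_mul]; exact mul_le_mul hgc hR (abs_nonneg _) hL
  have b8 : |g * a'| ≤ L * (K * d) := by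
    rw [abs_mul]; exact mul_le_mul hgc hR' (abs_nonneg _) hL
  rw [abs_le] at b1 b2 b3 b4 b5 b6 b7 b8 hz hz' hX ⊢
  constructor <;> linarith [b1.1, b1.2, b2.1, b2.2, b3.1, b3.2, b4.1, b4.2, b5.1, b5.2, b6.1, b6.2, b7.1, b7.2,
    b8.1, b8.2, hz.1, hz.2, hz'.1, hz'.2, hX.1, hX.2]

section core

variable {S : Sp} {V0 V1 : ∀ k, Setoid (S.F k).Ω} {e0 e1 : ℝ} {he0 : 0 < e0} {he1 : 0 < e1}

/-- the partition by a zero entropy variable of the small base has zero entropy over the finer base, on an event -/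
theorem io_zero_chg (hV : ∀ᶠ k in UF, FnS V1 V0 k) {E : ∀ k, (S.F k).Ω → Prop} {β : ℕ → Type}
    {G : ∀ k, (S.F k).Ω → ℤ} {A : ∀ k, (S.F k).Ω → Prop} {W : ∀ k, (S.F k).Ω → β k}
    (hW : ∀ᶠ k in UF, ∀ ω ω', (S.F k).μ ω ≠ 0 → (S.F k).μ ω' ≠ 0 → (S.F k).Z ω ω' → V0 k ω ω' → W k ω = W k ω')
    (bG : Bdd (S := (S.chg V1 e1 he1).rest E) G)
    (hG : ∀ η : ℝ, 0 < η → ∀ᶠ k in UF, CH ((S.F k).rest (E k)).μ (G k)
      (fun ω => (trm (S := S) A W k ω, Quotient.mk ((S.chg V0 e0 he0).F k).Z ω)) ≤ η * (S.F k).n) :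
    io (S := (S.chg V1 e1 he1).rest E) G = ⊥ := by
  classical
  rw [io_eq bG, ← le_bot_iff, ← h_eq_zero_iff]
  apply le_antisymm _ (h_nonneg _ _)
  rw [← cl_bot, h_cl]
  apply le_of_forall_pos_le_add
  intro ε hε
  rw [zero_add]
  apply ul_le_const (UB_rt _ _)
  have hε' : 0 < ε * e1 / 2 := by positivity
  filter_upwards [hG _ hε', hV, hW, (S.div_n_tendsto 1).eventually (gt_mem_nhds hε')] with k h1 h2 h3 h4
  have hn := (S.F k).pos
  show ((S.F k).rest (E k)).e (Setoid.ker (G k)) (⊤ ⊓ (V1 k ⊓ (S.F k).Z)) / (e1 * (S.F k).n) ≤ ε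
  rw [top_inf_eq, div_le_iff₀ (mul_pos he1 hn)]
  rw [div_lt_iff₀ hn] at h4
  have hs : ∀ ω, ((S.F k).rest (E k)).μ ω ≠ 0 → (S.F k).μ ω ≠ 0 := fun ω h => ((S.F k).rest_supp (E k) ω h).1
  have e1' : CH ((S.F k).rest (E k)).μ (G k) (fun ω => (trm (S := S) A W k ω, Quotient.mk ((S.chg V0 e0 he0).F k).Z ω)) =
      ((S.F k).rest (E k)).e (Setoid.ker (G k)) (Setoid.ker (trm (S := S) A W k) ⊓ (V0 k ⊓ (S.F k).Z)) := by
    have key1 : ∀ ω ω' : (S.F k).Ω, (Quotient.mk (Setoid.ker (trm (S := S) A W k) ⊓ (V0 k ⊓ (S.F k).Z)) ω' =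
        Quotient.mk (Setoid.ker (trm (S := S) A W k) ⊓ (V0 k ⊓ (S.F k).Z)) ω) ↔
        ((trm (S := S) A W k ω', Quotient.mk ((S.chg V0 e0 he0).F k).Z ω') =
          (trm (S := S) A W k ω, Quotient.mk ((S.chg V0 e0 he0).F k).Z ω)) := by
      intro ω ω'
      rw [Prod.mk.injEq]
      constructor
      · intro h
        have h' := Quotient.exact h
        exact ⟨h'.1, Quotient.sound h'.2⟩
      · intro h
        exact Quotient.sound ⟨h.1, Quotient.exact h.2⟩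
    symm
    apply e2_CH_congr
    · intro ω ω' _ _
      exact key1 ω ω'
    · intro ω ω' _ _
      rw [Prod.mk.injEq, Prod.mk.injEq]
      refine and_congr ?_ (key1 ω ω')
      constructor
      · intro h
        exact Quotient.exact h
      · intro h
        exact Quotient.sound h
  rw [e1'] at h1
  have t1 := ((S.F k).rest (E k)).e_triangle (Setoid.ker (G k)) (Setoid.ker (trm (S := S) A W k)) (V1 k ⊓ (S.F k).Z)
  have t2 : ((S.F k).rest (E k)).e (Setoid.ker (G k)) (Setoid.ker (trm (S := S) A W k) ⊓ (V1 k ⊓ (S.F k).Z)) ≤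
      ((S.F k).rest (E k)).e (Setoid.ker (G k)) (Setoid.ker (trm (S := S) A W k) ⊓ (V0 k ⊓ (S.F k).Z)) := by
    apply ((S.F k).rest (E k)).e_anti
    intro ω ω' a b c
    exact ⟨c.1, h2 ω ω' (hs ω a) (hs ω' b) c.2.2 c.2.1, c.2.2⟩
  have t3 : ((S.F k).rest (E k)).e (Setoid.ker (trm (S := S) A W k)) (V1 k ⊓ (S.F k).Z) ≤ 1 := by
    apply e_trm_le ((S.F k).rest (E k)) (A k) (W k) (trm (S := S) A W k) (trm_spec (S := S) A W k)
    intro ω ω' a b c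
    exact h3 ω ω' (hs ω a) (hs ω' b) c.2 (h2 ω ω' (hs ω a) (hs ω' b) c.2 c.1)
  have t4 : 1 ≤ ε * e1 / 2 * (S.F k).n := h4.le
  calc _ ≤ _ := t1
    _ ≤ ε * e1 / 2 * (S.F k).n + ε * e1 / 2 * (S.F k).n := by linarith
    _ = ε * (e1 * (S.F k).n) := by ring

/-- the conditions on the functions: `t y R z` functions of the corner, `t1 y1 R1 z1` box coordinates of the window,
`c`, `a` functions of the label of the window, on `A` up to `K 2 ^ (- e0 n)` -/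
structure ZRel (S : Sp) (V0 V1 : ∀ k, Setoid (S.F k).Ω) (e0 e1 : ℝ) (he0 : 0 < e0) (he1 : 0 < e1)
    (t y R z : TR (S.chg V0 e0 he0)) (c : Fin 8 → ∀ k, (S.F k).Ω → ℝ) (a : Fin 4 → ∀ k, (S.F k).Ω → ℝ)
    (t1 y1 R1 z1 : TR (S.chg V1 e1 he1)) (σ β : ℝ) (A : ∀ k, (S.F k).Ω → Prop) (K : ℕ → ℝ) : Prop where
  fn : ∀ᶠ k in UF, FnS V1 V0 k
  typ : Typ (S := S) A
  sub : S.Sub K
  lit : ∀ i, ∀ᶠ k in UF, ∀ ω ω', (S.F k).μ ω ≠ 0 → (S.F k).μ ω' ≠ 0 → (S.F k).Z ω ω' → V1 k ω ω' → A k ω → A k ω' →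
    c i k ω = c i k ω'
  lita : ∀ i, ∀ᶠ k in UF, ∀ ω ω', (S.F k).μ ω ≠ 0 → (S.F k).μ ω' ≠ 0 → (S.F k).Z ω ω' → V1 k ω ω' → A k ω → A k ω' →
    a i k ω = a i k ω'
  cK : ∀ᶠ k in UF, ∀ ω, (S.F k).μ ω ≠ 0 → A k ω → ∀ i, |c i k ω| ≤ K k
  rK : ∀ᶠ k in UF, ∀ ω, (S.F k).μ ω ≠ 0 → A k ω → |R.1 k ω| ≤ K k
  rt : ∀ᶠ k in UF, ∀ ω, (S.F k).μ ω ≠ 0 → A k ω →
    |t.1 k ω - (c 0 k ω + S.dl (e0 * σ) k * t1.1 k ω)| ≤ K k * S.dl e0 k
  ry : ∀ᶠ k in UF, ∀ ω, (S.F k).μ ω ≠ 0 → A k ω →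
    |y.1 k ω - (c 1 k ω + S.dl (e0 * σ) k * y1.1 k ω)| ≤ K k * S.dl e0 k
  rR : ∀ᶠ k in UF, ∀ ω, (S.F k).μ ω ≠ 0 → A k ω →
    |R.1 k ω - (c 2 k ω + c 3 k ω * t.1 k ω + c 4 k ω * y.1 k ω + (a 0 k ω * R1.1 k ω + a 1 k ω * z1.1 k ω))| ≤
      K k * S.dl e0 k
  rz : ∀ᶠ k in UF, ∀ ω, (S.F k).μ ω ≠ 0 → A k ω →
    |z.1 k ω - (c 5 k ω + c 6 k ω * t.1 k ω + c 7 k ω * y.1 k ω + (a 2 k ω * R1.1 k ω + a 3 k ω * z1.1 k ω))| ≤
      K k * S.dl e0 k
  hM : ∀ᶠ k in UF, ∀ ω, (S.F k).μ ω ≠ 0 → A k ω → ∀ g : ℝ,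
    S.dl (e0 * β) k ≤ K k * max |a 2 k ω - g * a 0 k ω| |a 3 k ω - g * a 1 k ω|
  he : e0 * σ + e1 = e0

/-- fullness of all projections over the label of a window, error `ε` -/
def H4P {U : Sp} (ε : ℝ) (t1 y1 R1 z1 : QS U) : Prop :=
  ∀ (E : ∀ k, (U.F k).Ω → Prop) (hE : 0 < ul (U.pr E)) (al be : QS (U.rest E)), dg al 1 = ⊥ → dg be 1 = ⊥ →
    (∃ m n : QS (U.rest E), m * al + n * be = 1) →
    1 - ε ≤ Pool.Agent.Helper31.EC.h (dg (be * QS.rest E hE z1 + al * QS.rest E hE R1) 1)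
      (dg (QS.rest E hE t1) 1 ⊔ dg (QS.rest E hE y1) 1)

/-- digits of a function from the digits of its box coordinate -/
theorem fl_le_dg {U : Sp} {E : ∀ k, (U.F k).Ω → Prop} (hE : 0 < ul (U.pr E)) {t t1 : TR U} {r : ℝ}
    {c : ∀ k, (U.F k).Ω → ℝ} {D : ℕ → ℝ} {A : ∀ k, (U.F k).Ω → Prop} {K : ℕ → ℝ} (hA : Typ A) (hK : U.Sub K)
    (hD0 : ∀ k, 0 ≤ D k) (hDd : ∀ k, D k * U.dl 1 k = U.dl r k)
    (lit : ∀ᶠ k in UF, ∀ ω ω', (U.F k).μ ω ≠ 0 → (U.F k).μ ω' ≠ 0 → (U.F k).Z ω ω' → A k ω → A k ω' → c k ω = c k ω')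
    (hr : ∀ᶠ k in UF, ∀ ω, (U.F k).μ ω ≠ 0 → A k ω → |t.1 k ω - (c k ω + D k * t1.1 k ω)| ≤ K k * U.dl r k) :
    TR.dg (TR.rest E t) r ≤ dg (QS.rest E hE (QS.mk t1)) 1 := by
  classical
  have hA' : Typ (S := U.rest E) A := Sp.Typ.rest (S := U) E hE hA
  have hK' : (U.rest E).Sub (fun k => 1 + 2 * K k) :=
    ((U.rest E).Sub_const zero_le_one).add (((U.rest E).Sub_const (show (0 : ℝ) ≤ 2 by norm_num)).mul hK)
  rw [QS.rest_mk, QS.dg_mk _ le_rfl, dg_fl (TR.rest E t1), io_eq (bdd_fl _ _)]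
  apply TR.dg_le_cl (S := U.rest E) _ _ _ A hA' _ hK'
  filter_upwards [lit, hr] with k h1 h2 ω ω' a b e e' g f
  have a1 := ((U.F k).rest_supp (E k) ω a).1
  have b1 := ((U.F k).rest_supp (E k) ω' b).1
  have f1 : ⌊t1.1 k ω / U.dl 1 k⌋ = ⌊t1.1 k ω' / U.dl 1 k⌋ := f
  have f2 := abs_sub_le_of_floor_eq (U.dl_pos 1 k) f1
  have c1 := h1 ω ω' a1 b1 g e e'
  have x1 := h2 ω a1 e
  have x2 := h2 ω' b1 e'
  have x3 : |D k * (t1.1 k ω - t1.1 k ω')| ≤ U.dl r k := by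
    rw [abs_mul, abs_of_nonneg (hD0 k), ← hDd k]
    exact mul_le_mul_of_nonneg_left f2 (hD0 k)
  show |t.1 k ω - t.1 k ω'| ≤ (1 + 2 * K k) * U.dl r k
  rw [c1] at x1
  rw [abs_le] at x1 x2 x3 ⊢
  constructor <;> linarith [x1.1, x1.2, x2.1, x2.2, x3.1, x3.2]

/-- a function of the space over one label as a function of the space over another one -/
def trx (V1 : ∀ k, Setoid (S.F k).Ω) {e1 : ℝ} (he1 : 0 < e1) (t : TR (S.chg V0 e0 he0)) : TR (S.chg V1 e1 he1) :=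
  ⟨t.1, by
    obtain ⟨K, hK, hb⟩ := t.2
    exact ⟨K, chg_sub V1 e1 he1 (sub_unchg hK), hb⟩⟩

theorem dl_chg (r : ℝ) (k : ℕ) : (S.chg V1 e1 he1).dl r k = S.dl (e1 * r) k := chg_dl V1 e1 he1 r k

/-- cells of `z - g R`, `g` bounded on the event -/
theorem bdd_zgR {E : ∀ k, (S.F k).Ω → Prop} (hE : 0 < ul ((S.chg V1 e1 he1).pr E)) {z R : TR (S.chg V0 e0 he0)}
    {g : ∀ k, (S.F k).Ω → ℝ} {q : ℝ} (hq : q ≤ e0)
    (hg : ∀ᶠ k in UF, ∀ ω, (S.F k).μ ω ≠ 0 → E k ω → |g k ω| ≤ 2 ^ (q * (S.F k).n)) :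
    Bdd (S := (S.chg V1 e1 he1).rest E) fun k ω => ⌊(z.1 k ω - g k ω * R.1 k ω) / S.dl e0 k⌋ := by
  obtain ⟨Kz, hKz, hz⟩ := z.2
  obtain ⟨KR, hKR, hR⟩ := R.2
  have sz := (sub_unchg hKz).eventually_le he0
  have sR := (sub_unchg hKR).eventually_le he0
  have h1 : Bdd (S := (S.chg V1 e1 he1).rest E)
      fun k ω => (fun _ : Fin 1 => ⌊(z.1 k ω - g k ω * R.1 k ω) / S.dl e0 k⌋) := by
    refine Bdd_int (S := (S.chg V1 e1 he1).rest E) _ (fun k => 3 * 2 ^ (3 * e0 * (S.F k).n)) (4 * e0 / e1) ?_ ?_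
    · filter_upwards [hz, hR, hg, sz, sR, pr_half' hE] with k x1 x2 x3 x4 x5 x6 ω hω i
      have hn := (S.F k).pos
      have h2 := (S.F k).rest_supp (E k) ω hω
      have h3 : E k ω := h2.2 ((half_pos hE).trans_le x6).ne'
      have y1 : |z.1 k ω| ≤ Kz k := x1 ω h2.1
      have y2 : |R.1 k ω| ≤ KR k := x2 ω h2.1
      have y3 := x3 ω h2.1 h3
      obtain ⟨a, ha⟩ : ∃ a : ℝ, a = 2 ^ (e0 * (S.F k).n) := ⟨_, rfl⟩
      have a1 : 1 ≤ a := by
        rw [ha]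
        exact Real.one_le_rpow (by norm_num) (mul_nonneg he0.le hn.le)
      rw [← ha] at x4 x5
      have y4 : |g k ω| ≤ a := by
        refine y3.trans ?_
        rw [ha]
        exact Real.rpow_le_rpow_of_exponent_le (by norm_num) (mul_le_mul_of_nonneg_right hq hn.le)
      have y5 : |z.1 k ω - g k ω * R.1 k ω| ≤ a + a * a := by
        refine (abs_sub _ _).trans ?_
        rw [abs_mul]
        have z1 : |g k ω| * |R.1 k ω| ≤ a * a :=
          mul_le_mul y4 (y2.trans (by linarith)) (abs_nonneg _) (by linarith)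
        linarith
      have y6 : S.dl e0 k = a⁻¹ := by
        rw [ha]
        show (2 : ℝ) ^ (-(e0 * (S.F k).n)) = _
        rw [Real.rpow_neg (by norm_num)]
      have y7 : |(z.1 k ω - g k ω * R.1 k ω) / S.dl e0 k| ≤ a * (a + a * a) := by
        rw [y6, div_inv_eq_mul, abs_mul, abs_of_pos (show 0 < a by linarith), mul_comm]
        exact mul_le_mul_of_nonneg_left y5 (by linarith)
      have y8 : |((⌊(z.1 k ω - g k ω * R.1 k ω) / S.dl e0 k⌋ : ℤ) : ℝ)| ≤ a * (a + a * a) + 1 := by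
        obtain ⟨v, hv⟩ : ∃ v, v = (z.1 k ω - g k ω * R.1 k ω) / S.dl e0 k := ⟨_, rfl⟩
        rw [← hv] at y7 ⊢
        have z1 := Int.floor_le v
        have z2 := Int.lt_floor_add_one v
        rw [abs_le] at y7 ⊢
        constructor <;> linarith [y7.1, y7.2]
      refine y8.trans ?_
      have y9 : (2 : ℝ) ^ (3 * e0 * (S.F k).n) = a * a * a := by
        rw [ha, ← Real.rpow_add (by norm_num), ← Real.rpow_add (by norm_num)]
        congr 1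
        ring
      show _ ≤ 3 * (2 : ℝ) ^ (3 * e0 * (S.F k).n)
      rw [y9]
      have z1 : a * a ≤ a * a * a := by nlinarith [mul_pos (show 0 < a by linarith) (show 0 < a by linarith)]
      have z2 : 1 ≤ a * a * a := by nlinarith [mul_le_mul a1 a1 zero_le_one (by linarith)]
      nlinarith
    · have h7 : (7 : ℝ) ≤ 7 := le_rfl
      have hlim : Tendsto (fun k => e0 * (S.F k).n) UF atTop := Tendsto.const_mul_atTop he0 S.lim
      filter_upwards [hlim.eventually (eventually_ge_atTop 3)] with k hk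
      have e2 : (2 : ℝ) ^ (4 * e0 / e1 * (((S.chg V1 e1 he1).rest E).F k).n) = 2 ^ (4 * e0 * (S.F k).n) := by
        show (2 : ℝ) ^ (4 * e0 / e1 * (e1 * (S.F k).n)) = _
        congr 1
        field_simp
      rw [e2]
      obtain ⟨b, hb⟩ : ∃ b : ℝ, b = 2 ^ (3 * e0 * (S.F k).n) := ⟨_, rfl⟩
      have e3 : (2 : ℝ) ^ (4 * e0 * (S.F k).n) = b * 2 ^ (e0 * (S.F k).n) := by
        rw [hb, ← Real.rpow_add (by norm_num)]
        congr 1
        ring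
      have e4 : (8 : ℝ) ≤ 2 ^ (e0 * (S.F k).n) := by
        calc (8 : ℝ) = 2 ^ (3 : ℝ) := by norm_num
          _ ≤ _ := Real.rpow_le_rpow_of_exponent_le (by norm_num) hk
      have e5 : 1 ≤ b := by
        rw [hb]
        exact Real.one_le_rpow (by norm_num) (by nlinarith)
      rw [e3, ← hb]
      nlinarith
  apply h1.of_fun
  exact Eventually.of_forall fun k ω ω' _ _ _ h => congrFun h 0

/-- FULLNESS OF THE PROJECTIONS at a space of the sequence -/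
theorem fzE_core {α' γ' β' β'' : ℕ → Type} {t y R z : TR (S.chg V0 e0 he0)} {c : Fin 8 → ∀ k, (S.F k).Ω → ℝ}
    {a : Fin 4 → ∀ k, (S.F k).Ω → ℝ}
    {t1 y1 R1 z1 : TR (S.chg V1 e1 he1)} {σ β : ℝ} {A : ∀ k, (S.F k).Ω → Prop} {K : ℕ → ℝ}
    (hr : ZRel S V0 V1 e0 e1 he0 he1 t y R z c a t1 y1 R1 z1 σ β A K)
    {ε : ℝ} (hε : 0 ≤ ε) (hee : e1 ≤ e0)
    (h4 : H4P (U := S.chg V1 e1 he1) ε (QS.mk t1) (QS.mk y1) (QS.mk R1) (QS.mk z1))
    {VA : ∀ k, (S.F k).Ω → α' k} {VB : ∀ k, (S.F k).Ω → γ' k} {W0 : ∀ k, (S.F k).Ω → β' k}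
    {W : ∀ k, (S.F k).Ω → β'' k} {Q Q' : ∀ k, (S.F k).Ω → Prop} (bB : Bdd (S := S.chg V0 e0 he0) VB)
    (hW0 : ∀ᶠ k in UF, ∀ ω ω', (S.F k).μ ω ≠ 0 → (S.F k).μ ω' ≠ 0 → (S.F k).Z ω ω' → V0 k ω ω' → W0 k ω = W0 k ω')
    (hW : ∀ᶠ k in UF, ∀ ω ω', (S.F k).μ ω ≠ 0 → (S.F k).μ ω' ≠ 0 → (S.F k).Z ω ω' → V1 k ω ω' → W k ω = W k ω')
    (hag : AGr (S := S.chg V0 e0 he0) VA VB (trm (S := S) Q' W0)) {a' b p η : ℝ} (hp : 0 < p) (hη : 0 < η)
    (hη1 : η < 1 / 2) (hb1 : b ≤ 1 - σ) (hb2 : b ≤ 1 - 2 * η - β) (c' : TR (S.chg V0 e0 he0)) :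
    FzE (S := S.chg V0 e0 he0) VA VB (trm (S := S) Q W) t y R z c' a' (b - ε) p η := by
  classical
  intro E gA gB hpE hA hB hm ζ hζ
  have hE0 : 0 < ul ((S.chg V0 e0 he0).pr E) := lt_of_lt_of_le hp hpE
  have hE : 0 < ul ((S.chg V1 e1 he1).pr E) := hE0
  -- the rounding
  obtain ⟨r, hrd⟩ : ∃ r : ℝ, r = 1 - 2 * η := ⟨_, rfl⟩
  have hr0 : 0 < r := by linarith
  have hr1 : r < 1 - η := by linarith
  obtain ⟨G, hG⟩ : ∃ G : ∀ k, (S.F k).Ω → ℤ, G = fun k ω => ⌊gB k ω / (S.chg V0 e0 he0).dl r k⌋ := ⟨_, rfl⟩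
  have bG0 : Bdd (S := S.chg V0 e0 he0) G := by
    apply bB.of_fun
    filter_upwards [hB] with k hk ω ω' x1 x2 x3 x4
    rw [hG]
    show ⌊gB k ω / _⌋ = ⌊gB k ω' / _⌋
    rw [hk ω ω' x1 x2 x3 x4]
  have bG1 : Bdd (S := S.chg V1 e1 he1) G := bdd_chg (he0 := he0) (he1 := he1) hr.fn bG0
  have bG : Bdd (S := (S.chg V1 e1 he1).rest E) G := rest_VB (S := S.chg V1 e1 he1) E bG1
  have zG : io (S := (S.chg V1 e1 he1).rest E) G = ⊥ := by
    apply io_zero_chg (he0 := he0) hr.fn (A := Q') (W := W0) hW0 bG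
    intro η' hη'
    have h1 := hag E gA gB (1 - η) r hE0 hr0 hr1 (by linarith) hA hB
      (by filter_upwards [hm] with k hk ω x1 x2 using (hk ω x1 x2).1) (η' / e0) (by positivity)
    filter_upwards [h1] with k hk
    have h2 : η' / e0 * ((S.chg V0 e0 he0).F k).n = η' * (S.F k).n := by
      show η' / e0 * (e0 * (S.F k).n) = η' * (S.F k).n
      field_simp
    rw [h2] at hk
    rw [hG]
    exact hk
  -- the coefficients
  obtain ⟨a1, ha1⟩ : ∃ a1 : ∀ k, (S.F k).Ω → ℝ, a1 = fun k ω =>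
      a 2 k ω - (G k ω * (S.chg V0 e0 he0).dl r k) * a 0 k ω := ⟨_, rfl⟩
  obtain ⟨a2, ha2⟩ : ∃ a2 : ∀ k, (S.F k).Ω → ℝ, a2 = fun k ω =>
      a 3 k ω - (G k ω * (S.chg V0 e0 he0).dl r k) * a 1 k ω := ⟨_, rfl⟩
  obtain ⟨M, hM⟩ : ∃ M : ∀ k, (S.F k).Ω → ℝ, M = fun k ω => max |a1 k ω| |a2 k ω| := ⟨_, rfl⟩
  have M1 : ∀ k ω, |a1 k ω| ≤ M k ω := fun k ω => by rw [hM]; exact le_max_left _ _
  have M2 : ∀ k ω, |a2 k ω| ≤ M k ω := fun k ω => by rw [hM]; exact le_max_right _ _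
  have M0 : ∀ k ω, 0 ≤ M k ω := fun k ω => (abs_nonneg _).trans (M1 k ω)
  have s1 : ((S.chg V1 e1 he1).rest E).Sub (fun _ => 1) := Sp.Sub_const _ zero_le_one
  have hq1 : ∀ (u v : ℝ), 0 ≤ v → |u| ≤ v → |u / v| ≤ 1 := fun u v hv huv => by
    rcases hv.eq_or_lt with h0 | h0
    · rw [← h0, div_zero, abs_zero]; exact zero_le_one
    · rw [abs_div, abs_of_pos h0, div_le_one h0]; exact huv
  obtain ⟨al, hal⟩ : ∃ al : TR ((S.chg V1 e1 he1).rest E), ∀ k ω, al.1 k ω = if M k ω = 0 then 1 else a1 k ω / M k ω :=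
    ⟨⟨fun k ω => if M k ω = 0 then 1 else a1 k ω / M k ω, fun _ => 1, s1, Eventually.of_forall fun k ω _ => by
      show |if M k ω = 0 then 1 else a1 k ω / M k ω| ≤ 1
      split_ifs with h
      · rw [abs_one]
      · exact hq1 _ _ (M0 k ω) (M1 k ω)⟩, fun _ _ => rfl⟩
  obtain ⟨be, hbe⟩ : ∃ be : TR ((S.chg V1 e1 he1).rest E), ∀ k ω, be.1 k ω = if M k ω = 0 then 0 else a2 k ω / M k ω :=
    ⟨⟨fun k ω => if M k ω = 0 then 0 else a2 k ω / M k ω, fun _ => 1, s1, Eventually.of_forall fun k ω _ => by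
      show |if M k ω = 0 then 0 else a2 k ω / M k ω| ≤ 1
      split_ifs with h
      · rw [abs_zero]; exact zero_le_one
      · exact hq1 _ _ (M0 k ω) (M2 k ω)⟩, fun _ _ => rfl⟩
  obtain ⟨mm, hmm⟩ : ∃ mm : TR ((S.chg V1 e1 he1).rest E), ∀ k ω, mm.1 k ω =
      if M k ω = 0 then 1 else if |a2 k ω| ≤ |a1 k ω| then M k ω / a1 k ω else 0 :=
    ⟨⟨fun k ω => if M k ω = 0 then 1 else if |a2 k ω| ≤ |a1 k ω| then M k ω / a1 k ω else 0, fun _ => 1, s1,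
      Eventually.of_forall fun k ω _ => by
        show |if M k ω = 0 then 1 else if |a2 k ω| ≤ |a1 k ω| then M k ω / a1 k ω else 0| ≤ 1
        split_ifs with h h'
        · rw [abs_one]
        · have e1 : M k ω = |a1 k ω| := by rw [hM]; exact max_eq_left h'
          rw [e1, abs_div, abs_abs]
          exact div_self_le_one _
        · rw [abs_zero]; exact zero_le_one⟩, fun _ _ => rfl⟩
  obtain ⟨nn, hnn⟩ : ∃ nn : TR ((S.chg V1 e1 he1).rest E), ∀ k ω, nn.1 k ω =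
      if M k ω = 0 then 0 else if |a2 k ω| ≤ |a1 k ω| then 0 else M k ω / a2 k ω :=
    ⟨⟨fun k ω => if M k ω = 0 then 0 else if |a2 k ω| ≤ |a1 k ω| then 0 else M k ω / a2 k ω, fun _ => 1, s1,
      Eventually.of_forall fun k ω _ => by
        show |if M k ω = 0 then 0 else if |a2 k ω| ≤ |a1 k ω| then 0 else M k ω / a2 k ω| ≤ 1
        split_ifs with h h'
        · rw [abs_zero]; exact zero_le_one
        · rw [abs_zero]; exact zero_le_one
        · have e1 : M k ω = |a2 k ω| := by rw [hM]; exact max_eq_right (not_le.mp h').le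
          rw [e1, abs_div, abs_abs]
          exact div_self_le_one _⟩, fun _ _ => rfl⟩
  have unit : QS.mk mm * QS.mk al + QS.mk nn * QS.mk be = 1 := by
    rw [← map_mul, ← map_mul, ← map_add, ← map_one QS.mk]
    congr 1
    apply Subtype.ext
    funext k ω
    show mm.1 k ω * al.1 k ω + nn.1 k ω * be.1 k ω = 1
    rw [hmm, hal, hnn, hbe]
    by_cases h0 : M k ω = 0
    · rw [if_pos h0, if_pos h0, if_pos h0, if_pos h0]
      ring
    · rw [if_neg h0, if_neg h0, if_neg h0, if_neg h0]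
      by_cases h : |a2 k ω| ≤ |a1 k ω|
      · rw [if_pos h, if_pos h, zero_mul, add_zero]
        have e1 : M k ω = |a1 k ω| := by rw [hM]; exact max_eq_left h
        have e2 : a1 k ω ≠ 0 := fun h' => h0 (by rw [e1, h', abs_zero])
        field_simp
      · rw [if_neg h, if_neg h, zero_mul, zero_add]
        have e1 : M k ω = |a2 k ω| := by rw [hM]; exact max_eq_right (not_le.mp h).le
        have e2 : a2 k ω ≠ 0 := fun h' => h0 (by rw [e1, h', abs_zero])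
        field_simp
  -- they are functions of `G` and the base
  have lit8 : ∀ᶠ k in UF, ∀ ω ω', (S.F k).μ ω ≠ 0 → (S.F k).μ ω' ≠ 0 → A k ω → A k ω' →
      ((S.chg V1 e1 he1).F k).Z ω ω' → G k ω = G k ω' → a1 k ω = a1 k ω' ∧ a2 k ω = a2 k ω' := by
    have hlita : ∀ᶠ k in UF, ∀ i, ∀ ω ω', (S.F k).μ ω ≠ 0 → (S.F k).μ ω' ≠ 0 → (S.F k).Z ω ω' → V1 k ω ω' →
        A k ω → A k ω' → a i k ω = a i k ω' := eventually_all.mpr hr.lita
    filter_upwards [hlita] with k hk ω ω' x1 x2 x3 x4 x5 x6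
    rw [ha1, ha2]
    show a 2 k ω - _ * a 0 k ω = a 2 k ω' - _ * a 0 k ω' ∧ a 3 k ω - _ * a 1 k ω = a 3 k ω' - _ * a 1 k ω'
    rw [x6, hk 0 ω ω' x1 x2 x5.2 x5.1 x3 x4, hk 1 ω ω' x1 x2 x5.2 x5.1 x3 x4, hk 2 ω ω' x1 x2 x5.2 x5.1 x3 x4,
      hk 3 ω ω' x1 x2 x5.2 x5.1 x3 x4]
    exact ⟨rfl, rfl⟩
  have tA : Typ (S := (S.chg V1 e1 he1).rest E) A := Sp.Typ.rest (S := S.chg V1 e1 he1) E hE hr.typ
  have zbe : dg (QS.mk be) 1 = ⊥ := by
    rw [← le_bot_iff, ← zG, QS.dg_mk _ le_rfl, io_eq bG]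
    apply TR.dg_le_cl (S := (S.chg V1 e1 he1).rest E) _ _ _ A tA (fun _ => 0) (Sp.Sub_const _ le_rfl)
    filter_upwards [lit8] with k hk ω ω' x1 x2 x3 x4 x5 x6
    obtain ⟨y1, y2⟩ := hk ω ω' ((S.F k).rest_supp (E k) ω x1).1 ((S.F k).rest_supp (E k) ω' x2).1 x3 x4 x5 x6
    have y3 : M k ω = M k ω' := by rw [hM]; show max |a1 k ω| |a2 k ω| = max |a1 k ω'| |a2 k ω'|; rw [y1, y2]
    show |be.1 k ω - be.1 k ω'| ≤ _
    rw [hbe, hbe, y3, y2, sub_self, abs_zero, zero_mul]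
  have zal : dg (QS.mk al) 1 = ⊥ := by
    rw [← le_bot_iff, ← zG, QS.dg_mk _ le_rfl, io_eq bG]
    apply TR.dg_le_cl (S := (S.chg V1 e1 he1).rest E) _ _ _ A tA (fun _ => 0) (Sp.Sub_const _ le_rfl)
    filter_upwards [lit8] with k hk ω ω' x1 x2 x3 x4 x5 x6
    obtain ⟨y1, y2⟩ := hk ω ω' ((S.F k).rest_supp (E k) ω x1).1 ((S.F k).rest_supp (E k) ω' x2).1 x3 x4 x5 x6
    have y3 : M k ω = M k ω' := by rw [hM]; show max |a1 k ω| |a2 k ω| = max |a1 k ω'| |a2 k ω'|; rw [y1, y2]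
    show |al.1 k ω - al.1 k ω'| ≤ _
    rw [hal, hal, y3, y1, sub_self, abs_zero, zero_mul]
  -- fullness
  have full := h4 E hE (QS.mk al) (QS.mk be) zal zbe ⟨QS.mk mm, QS.mk nn, unit⟩
  obtain ⟨f, hf⟩ : ∃ f : TR ((S.chg V1 e1 he1).rest E),
    f = be * TR.rest (S := S.chg V1 e1 he1) E z1 + al * TR.rest (S := S.chg V1 e1 he1) E R1 := ⟨_, rfl⟩
  have hfe : QS.mk be * QS.rest (S := S.chg V1 e1 he1) E hE (QS.mk z1) +
      QS.mk al * QS.rest (S := S.chg V1 e1 he1) E hE (QS.mk R1) = QS.mk f := by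
    rw [hf, map_add, map_mul, map_mul]
    rfl
  rw [hfe] at full
  -- the variables
  obtain ⟨X, hX⟩ : ∃ X : ∀ k, (S.F k).Ω → ℤ, X = fun k ω => ⌊(z.1 k ω - gB k ω * R.1 k ω) / S.dl e0 k⌋ := ⟨_, rfl⟩
  obtain ⟨Xt, hXt⟩ : ∃ X : ∀ k, (S.F k).Ω → ℤ, X = fun k ω => ⌊t.1 k ω / S.dl e0 k⌋ := ⟨_, rfl⟩
  obtain ⟨Xy, hXy⟩ : ∃ X : ∀ k, (S.F k).Ω → ℤ, X = fun k ω => ⌊y.1 k ω / S.dl e0 k⌋ := ⟨_, rfl⟩
  have hue : ∀ k, (S.chg V1 e1 he1).dl (e0 / e1) k = S.dl e0 k := fun k => by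
    rw [dl_chg]
    congr 1
    field_simp
  have cell : ∀ g : TR (S.chg V0 e0 he0), Bdd (S := (S.chg V1 e1 he1).rest E) (fun k ω => ⌊g.1 k ω / S.dl e0 k⌋) ∧
      io (S := (S.chg V1 e1 he1).rest E) (fun k ω => ⌊g.1 k ω / S.dl e0 k⌋) =
        TR.dg (TR.rest (S := S.chg V1 e1 he1) E (trx V1 he1 g)) (e0 / e1) := by
    intro g
    have h1 := dg_fl (T := (S.chg V1 e1 he1).rest E) (TR.rest (S := S.chg V1 e1 he1) E (trx V1 he1 g)) (e0 / e1)
    have h2 := bdd_fl (T := (S.chg V1 e1 he1).rest E) (TR.rest (S := S.chg V1 e1 he1) E (trx V1 he1 g)) (e0 / e1)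
    have h3 : (fun k (ω : (((S.chg V1 e1 he1).rest E).F k).Ω) =>
        ⌊(TR.rest (S := S.chg V1 e1 he1) E (trx V1 he1 g)).1 k ω / ((S.chg V1 e1 he1).rest E).dl (e0 / e1) k⌋) =
        fun k ω => ⌊g.1 k ω / S.dl e0 k⌋ := by
      funext k ω
      have h4 : ((S.chg V1 e1 he1).rest E).dl (e0 / e1) k = S.dl e0 k := hue k
      rw [h4]
      rfl
    rw [h3] at h1 h2
    exact ⟨h2, h1.symm⟩
  have bX : Bdd (S := (S.chg V1 e1 he1).rest E) X := by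
    rw [hX]
    apply bdd_zgR (he0 := he0) hE (q := e0 * η) (by nlinarith)
    filter_upwards [hm] with k hk ω x1 x2
    refine (hk ω x1 x2).2.2.trans (le_of_eq ?_)
    show (2 : ℝ) ^ (η * (e0 * (S.F k).n)) = 2 ^ (e0 * η * (S.F k).n)
    congr 1
    ring
  have bXt : Bdd (S := (S.chg V1 e1 he1).rest E) Xt := by rw [hXt]; exact (cell t).1
  have bXy : Bdd (S := (S.chg V1 e1 he1).rest E) Xy := by rw [hXy]; exact (cell y).1
  have bY : Bdd (S := (S.chg V1 e1 he1).rest E) (fun k ω => (Xt k ω, Xy k ω)) := bXt.pair bXy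
  -- `f` is a function of the variables up to the level `u`
  obtain ⟨u, hu⟩ : ∃ u : ℝ, u = b * e0 / e1 := ⟨_, rfl⟩
  have he1' : e1 = e0 * (1 - σ) := by
    have := hr.he
    linarith
  have hu1 : u ≤ 1 := by
    rw [hu, div_le_one he1, he1', mul_comm]
    exact mul_le_mul_of_nonneg_left hb1 he0.le
  have hK' : ((S.chg V1 e1 he1).rest E).Sub (fun k => K k * (1 + 14 * K k)) := by
    have h1 : (S.chg V1 e1 he1).Sub K := chg_sub V1 e1 he1 hr.sub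
    have h2 : ((S.chg V1 e1 he1).rest E).Sub K := h1
    exact h2.mul (s1.add ((Sp.Sub_const _ (show (0 : ℝ) ≤ 14 by norm_num)).mul h2))
  have key : TR.dg f u ≤ io (S := (S.chg V1 e1 he1).rest E) (fun k ω => ((X k ω, (Xt k ω, Xy k ω)), G k ω)) := by
    rw [io_eq ((bX.pair bY).pair bG)]
    apply TR.dg_le_cl (S := (S.chg V1 e1 he1).rest E) _ _ _ A tA _ hK'
    have hlit : ∀ᶠ k in UF, ∀ i, ∀ ω ω', (S.F k).μ ω ≠ 0 → (S.F k).μ ω' ≠ 0 → (S.F k).Z ω ω' → V1 k ω ω' →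
        A k ω → A k ω' → c i k ω = c i k ω' := eventually_all.mpr hr.lit
    filter_upwards [hlit, hr.cK, hr.rK, hr.rR, hr.rz, hm, hr.sub.1, pr_half' hE, hr.hM, lit8] with k x1 x2 x3 x4 x5 x6 x7
      x8 x9 x10 ω ω' w1 w2 w3 w4 w5 w6
    have v1 := ((S.F k).rest_supp (E k) ω w1).1
    have v2 := ((S.F k).rest_supp (E k) ω' w2).1
    have hpb : (S.F k).pb (E k) ≠ 0 := ((half_pos hE).trans_le x8).ne'
    have u1 := ((S.F k).rest_supp (E k) ω w1).2 hpb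
    have u2 := ((S.F k).rest_supp (E k) ω' w2).2 hpb
    have hc : ∀ i, c i k ω = c i k ω' := fun i => x1 i ω ω' v1 v2 w5.2 w5.1 w3 w4
    have w7 : ((X k ω, (Xt k ω, Xy k ω)), G k ω) = ((X k ω', (Xt k ω', Xy k ω')), G k ω') := w6
    rw [Prod.mk.injEq, Prod.mk.injEq, Prod.mk.injEq] at w7
    obtain ⟨⟨w8, w9, w10⟩, w11⟩ := w7
    -- numbers
    obtain ⟨d, hd⟩ : ∃ d, d = S.dl e0 k := ⟨_, rfl⟩
    have d0 : 0 < d := by rw [hd]; exact S.dl_pos _ _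
    obtain ⟨r', hr'⟩ : ∃ r', r' = (S.chg V0 e0 he0).dl r k := ⟨_, rfl⟩
    have r0' : 0 < r' := by rw [hr']; exact Sp.dl_pos _ _ _
    obtain ⟨q, hq⟩ : ∃ q : ℝ, q = 2 ^ (η * (e0 * (S.F k).n)) := ⟨_, rfl⟩
    have hn := (S.F k).pos
    have q1 : 1 ≤ q := by
      rw [hq]
      exact Real.one_le_rpow (by norm_num) (by positivity)
    have qd : q * d ≤ r' := by
      rw [hq, hd, hr', dl_chg]
      show (2 : ℝ) ^ (η * (e0 * (S.F k).n)) * 2 ^ (-(e0 * (S.F k).n)) ≤ 2 ^ (-(e0 * r * (S.F k).n))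
      rw [← Real.rpow_add (by norm_num)]
      apply Real.rpow_le_rpow_of_exponent_le (by norm_num)
      rw [hrd]
      have : 0 ≤ η * (e0 * (S.F k).n) := by positivity
      linarith
    have r1' : r' ≤ 1 := by
      rw [hr', dl_chg]
      show (2 : ℝ) ^ (-(e0 * r * (S.F k).n)) ≤ 1
      apply Real.rpow_le_one_of_one_le_of_nonpos (by norm_num)
      have : 0 ≤ e0 * r * (S.F k).n := by positivity
      linarith
    have d1 : d ≤ r' := le_trans (by nlinarith) qd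
    have K0 : 0 ≤ K k := x7
    -- cells
    have g1 : |gB k ω - G k ω * r'| ≤ r' := by
      have h1 := Int.floor_le (gB k ω / r')
      have h2 := Int.lt_floor_add_one (gB k ω / r')
      have h3 : G k ω = ⌊gB k ω / r'⌋ := by rw [hG, hr']
      rw [h3]
      rw [le_div_iff₀ r0'] at h1
      rw [div_lt_iff₀ r0'] at h2
      rw [abs_le]
      constructor <;> linarith
    have g2 : |gB k ω' - G k ω * r'| ≤ r' := by
      have h1 := Int.floor_le (gB k ω' / r')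
      have h2 := Int.lt_floor_add_one (gB k ω' / r')
      have h3 : G k ω' = ⌊gB k ω' / r'⌋ := by rw [hG, hr']
      rw [w11, h3]
      rw [le_div_iff₀ r0'] at h1
      rw [div_lt_iff₀ r0'] at h2
      rw [abs_le]
      constructor <;> linarith
    have g3 : |G k ω * r'| ≤ q + 1 := by
      have h1 : |gB k ω| ≤ q := by rw [hq]; exact (x6 ω v1 u1).2.2
      have h3 : G k ω * r' = gB k ω - (gB k ω - G k ω * r') := by ring
      rw [h3]
      refine (abs_sub _ _).trans ?_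
      linarith
    have ct : |t.1 k ω - t.1 k ω'| ≤ d := by
      rw [hd]
      apply abs_sub_le_of_floor_eq (S.dl_pos _ _)
      rw [hXt] at w9
      exact w9
    have cy : |y.1 k ω - y.1 k ω'| ≤ d := by
      rw [hd]
      apply abs_sub_le_of_floor_eq (S.dl_pos _ _)
      rw [hXy] at w10
      exact w10
    have cX : |(z.1 k ω - gB k ω * R.1 k ω) - (z.1 k ω' - gB k ω' * R.1 k ω')| ≤ d := by
      rw [hd]
      apply abs_sub_le_of_floor_eq (S.dl_pos _ _)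
      rw [hX] at w8
      exact w8
    have e2 := x4 ω v1 w3
    have e3 := x4 ω' v2 w4
    have e4 := x5 ω v1 w3
    have e5 := x5 ω' v2 w4
    rw [← hd] at e2 e3 e4 e5
    rw [← hc 2, ← hc 3, ← hc 4] at e3
    rw [← hc 5, ← hc 6, ← hc 7] at e5
    have main := fz_ineq (g := G k ω * r') K0 (show 0 ≤ q + 1 by linarith) e2 e3 e4 e5 g1 g2 (x3 ω v1 w3)
      (x3 ω' v2 w4) ct cy cX (x2 ω v1 w3 3) (x2 ω v1 w3 4) (x2 ω v1 w3 6) (x2 ω v1 w3 7) g3
    -- the function `f`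
    obtain ⟨z1', z2'⟩ := x10 ω ω' v1 v2 w3 w4 w5 w11
    have hMe : M k ω' = M k ω := by
      rw [hM]
      show max |a1 k ω'| |a2 k ω'| = max |a1 k ω| |a2 k ω|
      rw [z1', z2']
    have ea1 : ∀ w, a1 k w = a 2 k w - (G k w * r') * a 0 k w := fun w => by rw [ha1, hr']
    have ea2 : ∀ w, a2 k w = a 3 k w - (G k w * r') * a 1 k w := fun w => by rw [ha2, hr']
    have hMb : S.dl (e0 * β) k ≤ K k * M k ω := by
      have h1 := x9 ω v1 w3 (G k ω * r')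
      rw [hM]
      show S.dl (e0 * β) k ≤ K k * max |a1 k ω| |a2 k ω|
      rw [ea1 ω, ea2 ω]
      exact h1
    have D0 : 0 < S.dl (e0 * β) k := S.dl_pos _ _
    have Mpos : 0 < M k ω := by
      rcases (M0 k ω).eq_or_lt with h0 | h0
      · rw [← h0, mul_zero] at hMb
        linarith
      · exact h0
    have f0 : ∀ w, M k w = M k ω → f.1 k w = (a1 k w * R1.1 k w + a2 k w * z1.1 k w) / M k ω := by
      intro w hw
      rw [hf]
      show be.1 k w * z1.1 k w + al.1 k w * R1.1 k w = _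
      rw [hbe k w, hal k w, hw, if_neg Mpos.ne', if_neg Mpos.ne']
      ring
    have f1 := f0 ω rfl
    have f2 := f0 ω' hMe
    have f3 : a1 k ω * R1.1 k ω + a2 k ω * z1.1 k ω = (a 2 k ω * R1.1 k ω + a 3 k ω * z1.1 k ω) -
        G k ω * r' * (a 0 k ω * R1.1 k ω + a 1 k ω * z1.1 k ω) := by
      rw [ea1 ω, ea2 ω]
      ring
    have f4 : a1 k ω' * R1.1 k ω' + a2 k ω' * z1.1 k ω' = (a 2 k ω' * R1.1 k ω' + a 3 k ω' * z1.1 k ω') -
        G k ω * r' * (a 0 k ω' * R1.1 k ω' + a 1 k ω' * z1.1 k ω') := by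
      rw [ea1 ω', ea2 ω', ← w11]
      ring
    have f5 : |f.1 k ω - f.1 k ω'| = |(a1 k ω * R1.1 k ω + a2 k ω * z1.1 k ω) -
        (a1 k ω' * R1.1 k ω' + a2 k ω' * z1.1 k ω')| / M k ω := by
      rw [f1, f2, ← sub_div, abs_div, abs_of_pos Mpos]
    rw [← f3, ← f4] at main
    have f6 : |f.1 k ω - f.1 k ω'| ≤ (r' * (1 + 14 * K k)) / M k ω := by
      rw [f5]
      refine div_le_div_of_nonneg_right (main.trans ?_) Mpos.le
      have h1 : (q + 1) * (K k * d) ≤ K k * (r' + r') := by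
        have h2 : (q + 1) * (K k * d) = K k * (q * d + d) := by ring
        rw [h2]
        apply mul_le_mul_of_nonneg_left _ K0
        linarith
      have h4 := mul_le_mul_of_nonneg_left d1 K0
      have h5 : r' * (1 + 14 * K k) = r' + 2 * (r' * K k) + 4 * (K k * r') + 4 * (K k * (r' + r')) := by ring
      rw [h5]
      linarith
    have f7 : r' / M k ω ≤ K k * (S.chg V1 e1 he1).dl u k := by
      rw [div_le_iff₀ Mpos]
      have h1 : r' ≤ S.dl (e0 * b) k * S.dl (e0 * β) k := by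
        rw [hr', dl_chg, ← S.dl_add]
        apply S.dl_anti
        rw [hrd]
        nlinarith
      have h2 : (S.chg V1 e1 he1).dl u k = S.dl (e0 * b) k := by
        rw [dl_chg, hu]
        congr 1
        field_simp
      rw [h2]
      refine h1.trans ?_
      have h3 := mul_le_mul_of_nonneg_left hMb (S.dl_pos (e0 * b) k).le
      linarith
    have f8 : 0 ≤ 1 + 14 * K k := by positivity
    show |f.1 k ω - f.1 k ω'| ≤ (K k * (1 + 14 * K k)) * (S.chg V1 e1 he1).dl u k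
    refine f6.trans ?_
    have h1 : r' * (1 + 14 * K k) / M k ω = (1 + 14 * K k) * (r' / M k ω) := by ring
    rw [h1]
    have h2 := mul_le_mul_of_nonneg_left f7 f8
    linarith
  -- the count
  have hYt : io (S := (S.chg V1 e1 he1).rest E) Xt ≤ dg (QS.rest (S := S.chg V1 e1 he1) E hE (QS.mk t1)) 1 := by
    rw [hXt]
    refine (le_of_eq (cell t).2).trans ?_
    apply fl_le_dg (U := S.chg V1 e1 he1) hE (c := fun k ω => c 0 k ω) (D := fun k => S.dl (e0 * σ) k) (A := A)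
      (K := K) hr.typ (chg_sub V1 e1 he1 hr.sub) (fun k => (S.dl_pos _ _).le)
    · intro k
      rw [hue k, dl_chg, ← S.dl_add, mul_one, hr.he]
    · filter_upwards [hr.lit 0] with k hk ω ω' x1 x2 x3 x4 x5 using hk ω ω' x1 x2 x3.2 x3.1 x4 x5
    · filter_upwards [hr.rt] with k hk ω x1 x2
      rw [hue k]
      exact hk ω x1 x2
  have hYy : io (S := (S.chg V1 e1 he1).rest E) Xy ≤ dg (QS.rest (S := S.chg V1 e1 he1) E hE (QS.mk y1)) 1 := by
    rw [hXy]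
    refine (le_of_eq (cell y).2).trans ?_
    apply fl_le_dg (U := S.chg V1 e1 he1) hE (c := fun k ω => c 1 k ω) (D := fun k => S.dl (e0 * σ) k) (A := A)
      (K := K) hr.typ (chg_sub V1 e1 he1 hr.sub) (fun k => (S.dl_pos _ _).le)
    · intro k
      rw [hue k, dl_chg, ← S.dl_add, mul_one, hr.he]
    · filter_upwards [hr.lit 1] with k hk ω ω' x1 x2 x3 x4 x5 using hk ω ω' x1 x2 x3.2 x3.1 x4 x5
    · filter_upwards [hr.ry] with k hk ω x1 x2
      rw [hue k]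
      exact hk ω x1 x2
  have count : u - ε ≤ Pool.Agent.Helper31.EC.h (io (S := (S.chg V1 e1 he1).rest E) X)
      (io (S := (S.chg V1 e1 he1).rest E) (fun k ω => (Xt k ω, Xy k ω))) := by
    have k1 : io (S := (S.chg V1 e1 he1).rest E) (fun k ω => (Xt k ω, Xy k ω)) ≤
        dg (QS.rest (S := S.chg V1 e1 he1) E hE (QS.mk t1)) 1 ⊔ dg (QS.rest (S := S.chg V1 e1 he1) E hE (QS.mk y1)) 1 := by
      rw [io_pair bXt bXy]
      exact sup_le_sup hYt hYy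
    obtain ⟨Y, hY⟩ : ∃ Y, Y = io (S := (S.chg V1 e1 he1).rest E) (fun k ω => (Xt k ω, Xy k ω)) := ⟨_, rfl⟩
    obtain ⟨X', hX'⟩ : ∃ X', X' = io (S := (S.chg V1 e1 he1).rest E) X := ⟨_, rfl⟩
    rw [← hY] at k1
    have k2 : TR.dg f u ≤ X' ⊔ Y := by
      have h1 := io_pair (bX.pair bY) bG
      have h2 := io_pair bX bY
      rw [h1, h2, zG, sup_bot_eq, ← hY, ← hX'] at key
      exact key
    rw [← hY, ← hX']
    have k3 : 1 - ε ≤ Pool.Agent.Helper31.EC.h (dg (QS.mk f) 1) Y := full.trans (h_anti k1)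
    have k4 : Pool.Agent.Helper31.EC.h (dg (QS.mk f) 1) (dg (QS.mk f) u) ≤ 1 - u := QS.h_dg_dg _ hu1
    have k5 := h_triangle (dg (QS.mk f) 1) (dg (QS.mk f) u) Y
    have k6 : Pool.Agent.Helper31.EC.h (dg (QS.mk f) 1) (dg (QS.mk f) u ⊔ Y) ≤
        Pool.Agent.Helper31.EC.h (dg (QS.mk f) 1) (dg (QS.mk f) u) := h_anti le_sup_left
    have k7 : Pool.Agent.Helper31.EC.h (dg (QS.mk f) u) Y ≤ Pool.Agent.Helper31.EC.h X' Y := by
      rw [QS.dg_mk _ hu1]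
      refine (h_mono k2).trans (le_of_eq ?_)
      exact h_sup_right_of_le le_rfl
    linarith
  rw [h_io bX bY] at count
  have hε' : 0 < ζ * e0 / (2 * e1) := by positivity
  have ev := eventually_gt_of_lt_ul (UB_rt bX.toInf _) (show u - ε - ζ * e0 / (2 * e1) < _ from
    lt_of_lt_of_le (by linarith) count)
  have hlim : Tendsto (fun k => ζ * e0 / 2 * (S.F k).n) UF atTop := Tendsto.const_mul_atTop (by positivity) S.lim
  filter_upwards [ev, hr.fn, hW, hlim.eventually (eventually_ge_atTop 1)] with k x1 x2 x3 x4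
  have hn := (S.F k).pos
  have hs : ∀ ω, ((S.F k).rest (E k)).μ ω ≠ 0 → (S.F k).μ ω ≠ 0 := fun ω h => ((S.F k).rest_supp (E k) ω h).1
  have y1 : (u - ε - ζ * e0 / (2 * e1)) * (e1 * (S.F k).n) < ((S.F k).rest (E k)).e (Setoid.ker (X k))
      (Setoid.ker (fun ω => (Xt k ω, Xy k ω)) ⊓ (V1 k ⊓ (S.F k).Z)) := by
    have h1 : u - ε - ζ * e0 / (2 * e1) < ((S.F k).rest (E k)).e (Setoid.ker (X k))
      (Setoid.ker (fun ω => (Xt k ω, Xy k ω)) ⊓ (V1 k ⊓ (S.F k).Z)) / (e1 * (S.F k).n) := x1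
    rwa [lt_div_iff₀ (mul_pos he1 hn)] at h1
  have t1 := ((S.F k).rest (E k)).e_triangle (Setoid.ker (X k)) (Setoid.ker (trm (S := S) Q W k))
    (Setoid.ker (fun ω => (Xt k ω, Xy k ω)) ⊓ (V1 k ⊓ (S.F k).Z))
  have t2 : ((S.F k).rest (E k)).e (Setoid.ker (trm (S := S) Q W k))
      (Setoid.ker (fun ω => (Xt k ω, Xy k ω)) ⊓ (V1 k ⊓ (S.F k).Z)) ≤ 1 := by
    apply e_trm_le ((S.F k).rest (E k)) (Q k) (W k) (trm (S := S) Q W k) (trm_spec (S := S) Q W k)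
    intro ω ω' a b c
    exact x3 ω ω' (hs ω a) (hs ω' b) c.2.2 c.2.1
  have t3 : ((S.F k).rest (E k)).e (Setoid.ker (X k)) (Setoid.ker (trm (S := S) Q W k) ⊓
      (Setoid.ker (fun ω => (Xt k ω, Xy k ω)) ⊓ (V1 k ⊓ (S.F k).Z))) ≤
      ((S.F k).rest (E k)).e (Setoid.ker (X k)) (Setoid.ker (fun ω => (trm (S := S) Q W k ω, (Xt k ω, Xy k ω))) ⊓
        (V0 k ⊓ (S.F k).Z)) := by
    apply ((S.F k).rest (E k)).e_anti
    intro ω ω' a b c
    have c1 : trm (S := S) Q W k ω = trm (S := S) Q W k ω' := c.1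
    have c2 : (Xt k ω, Xy k ω) = (Xt k ω', Xy k ω') := c.2.1
    refine ⟨?_, x2 ω ω' (hs ω a) (hs ω' b) c.2.2.2 c.2.2.1, c.2.2.2⟩
    show (trm (S := S) Q W k ω, (Xt k ω, Xy k ω)) = (trm (S := S) Q W k ω', (Xt k ω', Xy k ω'))
    rw [c1, c2]
  have y2 := CH_floor_rt (F := (S.chg V0 e0 he0).F k) (X k) (fun ω => (trm (S := S) Q W k ω, (Xt k ω, Xy k ω))) (E k)
  have y3 : CH ((S.F k).rest (E k)).μ (X k)
      (fun ω => ((trm (S := S) Q W k ω, (Xt k ω, Xy k ω)), Quotient.mk ((S.chg V0 e0 he0).F k).Z ω)) =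
      ((S.F k).rest (E k)).e (Setoid.ker (X k)) (Setoid.ker (fun ω => (trm (S := S) Q W k ω, (Xt k ω, Xy k ω))) ⊓
        (V0 k ⊓ (S.F k).Z)) := y2
  have y4 : (b - ε - ζ) * (e0 * (S.F k).n) ≤ CH ((S.F k).rest (E k)).μ (X k)
      (fun ω => ((trm (S := S) Q W k ω, (Xt k ω, Xy k ω)), Quotient.mk ((S.chg V0 e0 he0).F k).Z ω)) := by
    rw [y3]
    have h1 : (u - ε - ζ * e0 / (2 * e1)) * (e1 * (S.F k).n) = b * e0 * (S.F k).n - ε * (e1 * (S.F k).n) -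
        ζ * e0 / 2 * (S.F k).n := by
      rw [hu]
      field_simp
    rw [h1] at y1
    have h2 : (b - ε - ζ) * (e0 * (S.F k).n) = b * e0 * (S.F k).n - ε * (e0 * (S.F k).n) - ζ * e0 / 2 * (S.F k).n -
        ζ * e0 / 2 * (S.F k).n := by
      ring
    have h3 : ε * (e1 * (S.F k).n) ≤ ε * (e0 * (S.F k).n) :=
      mul_le_mul_of_nonneg_left (mul_le_mul_of_nonneg_right hee hn.le) hε
    rw [h2]
    linarith
  have e1' : (S.chg V0 e0 he0).dl 1 k = S.dl e0 k := by rw [dl_chg, mul_one]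
  rw [hX, hXt, hXy] at y4
  rw [e1']
  exact y4

end core

end

end Pool.Agent.Helper80.HCI
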