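import Pool.Agent.Helper80.HCI.Fzq
import Pool.Agent.Helper93.H4.Sqh

/-! FULLNESS OF THE PROJECTIONS at the sequence of boxes at a typical window. -/

set_option autoImplicit false

namespace Pool.Agent.Helper80.HCI

open Finset Filter Topology Pool.Agent.Helper69.RK Pool.Agent.Helper31.EC Pool.Agent.Helper40.EL
open Pool.Agent.Helper98.FR Pool.Agent.Helper98.LV Pool.Agent.Helper31.NSB
open Pool.Agent.Helper19.S12 (la)
open Pool.Agent.Helper59.EV (ST)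

noncomputable section

/-- FULLNESS OF THE PROJECTIONS at the sequence of boxes, both orientations -/
theorem fz_win {D : ℕ} (hD : 1 ≤ D) {g : ℝ} {S : Sp} {s : Sys S 3} (hst : ST 1 2) (hR : Rbb g s) {c w1 w d : ℝ}
    (hW : Win D s 0 1 2 c w1 w d) {σ A : ℝ} {N : Scl σ A} (hσ : max w1 w * σ = 1)
    (Q : Sq s (la s 1 {0, 1}) (la s 2 {0, 1, 2}) c w1 w N) :
    (∀ r r' : N.Sc, ∀ p τ : ℚ, 0 < p → 0 < τ → ∃ η : ℚ, 0 < η ∧ ∀ᶠ j in atTop,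
      Q.rin.inp.fzS2 w1 w false r r' τ p η j) ∧
    (w < w1 → ∀ r r' : N.Sc, ∀ p τ : ℚ, 0 < p → 0 < τ → ∃ η : ℚ, 0 < η ∧ ∀ᶠ j in atTop,
      Q.rin.inp.fzS2 w1 w true r r' τ p η j) := by
  have h0 : c ∈ Set.Ioo (c - d) (c + d) := ⟨by linarith [hW.d0], by linarith [hW.d0]⟩
  have he1 : la s 2 {0, 1, 2} c < 1 := lt_of_le_of_lt (le_of_eq hW.top) (hW.lt1 c h0)
  have hl1 : la s 1 {0, 1} c < 1 := lt_of_le_of_lt hW.ord he1
  have H4 : ∀ i, i ≠ 0 → N.ν i ≤ σ → N.ν i < 1 → ∀ δ : ℝ, 0 < δ → ∀ᶠ j in atTop, Hfz Q j i δ := by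
    intro i hi _ hi1 δ hδ
    filter_upwards [Helper93.H4.h4_sq hD hst hR hW Q i hi hi1 hδ] with j hj he1
    exact hj _ he1 rfl
  exact ⟨sq_fz Q hW.de hW.hw1 hW.hw hσ hl1 he1 H4,
    fun h => sq_fz' Q hW.dl hW.de hW.hw1 hW.hw h hσ hl1 he1 H4⟩

end

end Pool.Agent.Helper80.HCI
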