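import Pool.Agent.Helper80.HCI.Pdi

/-! An information whose entropy is at most `C` on all events has at most `2 ^ ((C + ε) n)` cells on a typical event. -/

set_option autoImplicit false

namespace Pool.Agent.Helper80.HCI

open Finset Filter Topology Pool.Agent.Helper69.RK Pool.Agent.Helper31.EC Pool.Agent.Helper40.EL
open Pool.Agent.Helper60.CS

noncomputable section

section fin

variable {Ω α γ : Type}

theorem res_nn {μ : Ω → ℝ} (h : ∀ ω, 0 ≤ μ ω) (B : Ω → Prop) (ω : Ω) : 0 ≤ res μ B ω := by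
  by_cases hB : B ω
  · rw [res_pos _ _ _ hB]; exact h ω
  · rw [res_neg _ _ _ hB]

theorem res_le {μ : Ω → ℝ} (h : ∀ ω, 0 ≤ μ ω) (B : Ω → Prop) (ω : Ω) : res μ B ω ≤ μ ω := by
  by_cases hB : B ω
  · rw [res_pos _ _ _ hB]
  · rw [res_neg _ _ _ hB]; exact h ω

variable [Fintype Ω]

open Classical in
theorem pr_mono {μ ν : Ω → ℝ} (h : ∀ ω, ν ω ≤ μ ω) (f : Ω → α) (ω : Ω) : pr ν f ω ≤ pr μ f ω := by
  unfold pr
  apply Finset.sum_le_sum
  intro ω' _
  by_cases h1 : f ω' = f ω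
  · rw [if_pos h1, if_pos h1]; exact h ω'
  · rw [if_neg h1, if_neg h1]

open Classical in
theorem pr_self {μ : Ω → ℝ} (h : ∀ ω, 0 ≤ μ ω) (f : Ω → α) (ω : Ω) : μ ω ≤ pr μ f ω := by
  unfold pr
  have h1 : (if f ω = f ω then μ ω else 0) ≤ ∑ ω' : Ω, if f ω' = f ω then μ ω' else 0 :=
    Finset.single_le_sum (f := fun ω' => if f ω' = f ω then μ ω' else 0) (fun ω' _ => by
      split_ifs
      · exact h ω'
      · exact le_rfl) (Finset.mem_univ ω)
  rwa [if_pos rfl] at h1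

open Classical in
/-- a double sum -/
theorem sum_ratio {μ : Ω → ℝ} (h : ∀ ω, 0 ≤ μ ω) (B : Ω → Prop) (g : Ω → γ) :
    ∑ ω, res μ B ω * (pr μ g ω / pr (res μ B) g ω) ≤ ∑ ω, μ ω := by
  have h1 : ∀ ω, res μ B ω * (pr μ g ω / pr (res μ B) g ω) =
      ∑ ω', μ ω' * (if g ω = g ω' then res μ B ω / pr (res μ B) g ω' else 0) := by
    intro ω
    have e1 : pr μ g ω = ∑ ω' : Ω, if g ω' = g ω then μ ω' else 0 := rfl
    rw [e1, Finset.sum_div, Finset.mul_sum]
    apply Finset.sum_congr rfl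
    intro ω' _
    by_cases h2 : g ω' = g ω
    · rw [if_pos h2, if_pos h2.symm]
      have e2 : pr (res μ B) g ω' = pr (res μ B) g ω := by
        unfold pr
        rw [h2]
      rw [e2]
      ring
    · rw [if_neg h2, if_neg (fun h3 => h2 h3.symm)]
      ring
  rw [Finset.sum_congr rfl fun ω _ => h1 ω, Finset.sum_comm]
  apply Finset.sum_le_sum
  intro ω' _
  rw [← Finset.mul_sum]
  have h3 : ∑ ω, (if g ω = g ω' then res μ B ω / pr (res μ B) g ω' else 0) ≤ 1 := by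
    have e3 : ∀ ω, (if g ω = g ω' then res μ B ω / pr (res μ B) g ω' else 0) =
        (if g ω = g ω' then res μ B ω else 0) / pr (res μ B) g ω' := by
      intro ω
      split_ifs
      · rfl
      · rw [zero_div]
    rw [Finset.sum_congr rfl fun ω _ => e3 ω, ← Finset.sum_div]
    have e4 : (∑ ω, if g ω = g ω' then res μ B ω else 0) = pr (res μ B) g ω' := by
      unfold pr
      apply Finset.sum_congr rfl
      intro ω _
      congr 1
    rw [e4]
    exact div_self_le_one _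
  calc μ ω' * _ ≤ μ ω' * 1 := mul_le_mul_of_nonneg_left h3 (h ω')
    _ = μ ω' := mul_one _

theorem logb_le_two {x : ℝ} (hx : 0 < x) : Real.logb 2 x ≤ 2 * x := by
  rw [Real.logb, div_le_iff₀ (Real.log_pos (by norm_num))]
  have h1 := Real.log_le_sub_one_of_pos hx
  have h2 := Real.log_two_gt_d9
  nlinarith

/-- entropy on an event on which the conditional probabilities are small -/
theorem CH_res_ge {μ : Ω → ℝ} (h : ∀ ω, 0 ≤ μ ω) (hm : ∑ ω, μ ω = 1) (B : Ω → Prop) (f : Ω → α) (g : Ω → γ) (s : ℝ)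
    (hB : ∀ ω, μ ω ≠ 0 → B ω → pr μ (fun ω => (f ω, g ω)) ω ≤ 2 ^ (-s) * pr μ g ω) :
    s * mass (res μ B) - 2 ≤ CH (res μ B) f g := by
  have h1 : ∀ ω, s * res μ B ω - 2 * (res μ B ω * (pr μ g ω / pr (res μ B) g ω)) ≤
      res μ B ω * (Real.logb 2 (pr (res μ B) g ω) - Real.logb 2 (pr (res μ B) (fun ω' => (f ω', g ω')) ω)) := by
    intro ω
    by_cases h2 : res μ B ω = 0
    · rw [h2]; simp
    have h3 : 0 < res μ B ω := lt_of_le_of_ne (res_nn h B ω) (Ne.symm h2)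
    have h4 : B ω := by
      by_contra hc
      exact h2 (res_neg _ _ _ hc)
    have h5 : μ ω ≠ 0 := by
      rw [res_pos _ _ _ h4] at h2
      exact h2
    have h6 : 0 < pr (res μ B) g ω := h3.trans_le (pr_self (res_nn h B) g ω)
    have h7 : 0 < pr (res μ B) (fun ω' => (f ω', g ω')) ω := h3.trans_le (pr_self (res_nn h B) _ ω)
    have h8 : pr (res μ B) (fun ω' => (f ω', g ω')) ω ≤ 2 ^ (-s) * pr μ g ω :=
      (pr_mono (res_le h B) _ ω).trans (hB ω h5 h4)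
    have h9 : 0 < pr μ g ω := h6.trans_le (pr_mono (res_le h B) g ω)
    have h10 : Real.logb 2 (pr (res μ B) (fun ω' => (f ω', g ω')) ω) ≤ -s + Real.logb 2 (pr μ g ω) := by
      refine (Real.logb_le_logb_of_le (by norm_num) h7 h8).trans (le_of_eq ?_)
      rw [Real.logb_mul (by positivity) h9.ne', Real.logb_rpow (by norm_num) (by norm_num)]
    have h11 : Real.logb 2 (pr μ g ω) - Real.logb 2 (pr (res μ B) g ω) ≤ 2 * (pr μ g ω / pr (res μ B) g ω) := by
      rw [← Real.logb_div h9.ne' h6.ne']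
      exact logb_le_two (div_pos h9 h6)
    have h12 : s - 2 * (pr μ g ω / pr (res μ B) g ω) ≤
        Real.logb 2 (pr (res μ B) g ω) - Real.logb 2 (pr (res μ B) (fun ω' => (f ω', g ω')) ω) := by linarith
    have h13 := mul_le_mul_of_nonneg_left h12 h3.le
    calc _ = res μ B ω * (s - 2 * (pr μ g ω / pr (res μ B) g ω)) := by ring
      _ ≤ _ := h13
  have h2 := Finset.sum_le_sum (s := Finset.univ) fun ω _ => h1 ω
  rw [Finset.sum_sub_distrib, ← Finset.mul_sum, ← Finset.mul_sum] at h2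
  have h3 := sum_ratio h B g
  rw [hm] at h3
  have h4 : mass (res μ B) = ∑ ω, res μ B ω := rfl
  rw [h4]
  unfold CH
  linarith

open Classical in
/-- number of cells with large conditional probability -/
theorem nvf_le_of_large {μ : Ω → ℝ} (h : ∀ ω, 0 ≤ μ ω) (ν : Ω → ℝ) (f : Ω → α) (g : Ω → γ) (s : ℝ) (ω : Ω)
    (hω : 0 < pr μ g ω)
    (hν : ∀ ω', ν ω' ≠ 0 → 2 ^ (-s) * pr μ g ω' ≤ pr μ (fun ω => (f ω, g ω)) ω') : (nvf ν f g ω : ℝ) ≤ 2 ^ s := by
  obtain ⟨I, hI⟩ : ∃ I, I = ((univ : Finset Ω).filter (fun ω' => ν ω' ≠ 0 ∧ g ω' = g ω)).image f := ⟨_, rfl⟩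
  have e0 : (nvf ν f g ω : ℝ) = ∑ _v ∈ I, (1 : ℝ) := by
    rw [Finset.sum_const, nsmul_eq_mul, mul_one, hI]
    rfl
  have h1 : ∀ v ∈ I, 2 ^ (-s) * pr μ g ω ≤ ∑ ω', if f ω' = v ∧ g ω' = g ω then μ ω' else 0 := by
    intro v hv
    rw [hI, Finset.mem_image] at hv
    obtain ⟨ω₁, h2, rfl⟩ := hv
    rw [Finset.mem_filter] at h2
    have h3 := hν ω₁ h2.2.1
    have h4 : pr μ g ω₁ = pr μ g ω := by
      unfold pr
      rw [h2.2.2]
    rw [h4] at h3
    refine h3.trans (le_of_eq ?_)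
    unfold pr
    apply Finset.sum_congr rfl
    intro ω' _
    congr 1
    rw [Prod.mk.injEq, h2.2.2]
  have h2 : ∑ v ∈ I, (∑ ω', if f ω' = v ∧ g ω' = g ω then μ ω' else 0) ≤ pr μ g ω := by
    rw [Finset.sum_comm]
    unfold pr
    apply Finset.sum_le_sum
    intro ω' _
    by_cases h3 : g ω' = g ω
    · rw [if_pos h3]
      have h4 : ∀ v ∈ I, (if f ω' = v ∧ g ω' = g ω then μ ω' else 0) = if v = f ω' then μ ω' else 0 := by
        intro v _
        by_cases h5 : v = f ω'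
        · rw [if_pos ⟨h5.symm, h3⟩, if_pos h5]
        · rw [if_neg (fun h6 => h5 h6.1.symm), if_neg h5]
      rw [Finset.sum_congr rfl h4, Finset.sum_ite_eq']
      split_ifs
      · exact le_rfl
      · exact h ω'
    · rw [if_neg h3]
      apply le_of_eq
      apply Finset.sum_eq_zero
      intro v _
      rw [if_neg (fun h4 => h3 h4.2)]
  have h3 := (Finset.sum_le_sum h1).trans h2
  rw [Finset.sum_const, nsmul_eq_mul] at h3
  have h4 : (nvf ν f g ω : ℝ) = I.card := by rw [hI]; rfl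
  rw [h4]
  have h5 : (I.card : ℝ) * 2 ^ (-s) ≤ 1 := by
    by_contra hc
    push Not at hc
    have h6 := mul_lt_mul_of_pos_right hc hω
    linarith
  rw [Real.rpow_neg (by norm_num)] at h5
  have h6 : (0 : ℝ) < 2 ^ s := by positivity
  calc (I.card : ℝ) = I.card * (2 ^ s)⁻¹ * 2 ^ s := by field_simp
    _ ≤ 1 * 2 ^ s := mul_le_mul_of_nonneg_right h5 h6.le
    _ = 2 ^ s := one_mul _

end fin

open Sp

/-- the cell of `A` has large conditional probability -/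
def Lgc {S : Sp} (A : ∀ k, Setoid (S.F k).Ω) (C : ℝ) (k : ℕ) (ω : (S.F k).Ω) : Prop :=
  2 ^ (-(C * (S.F k).n)) * pr (S.F k).μ (Quotient.mk (S.F k).Z) ω ≤
    pr (S.F k).μ (fun ω => (Quotient.mk (A k) ω, Quotient.mk (S.F k).Z ω)) ω

theorem typ_large {S : Sp} (A : S.Inf) {C ε : ℝ} (hε : 0 < ε) (h : Slow.RobLe (cl A) ⊥ C) :
    Typ (S := S) (Lgc A.1 (C + ε)) := by
  classical
  rcases typ_or (Lgc A.1 (C + ε)) with h1 | hB
  · exact h1
  exfalso
  have h1 := h S (Pj.id S) _ hB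
  rw [Pj.id_map, Pj.id_map, restL_cl] at h1
  have h2 : Pool.Agent.Helper31.EC.h (cl (restI (fun k ω => ¬ Lgc A.1 (C + ε) k ω) A)) (restL _ hB ⊥) =
      ul ((S.rest fun k ω => ¬ Lgc A.1 (C + ε) k ω).rt A.1 S.tr) := by
    rw [restL_bot, ← cl_bot, h_cl]
    rfl
  rw [h2] at h1
  have h3 : C + ε / 2 ≤ ul ((S.rest fun k ω => ¬ Lgc A.1 (C + ε) k ω).rt A.1 S.tr) := by
    apply const_le_ul (UB_rt (restI (fun k ω => ¬ Lgc A.1 (C + ε) k ω) A) S.tr)
    have h4 : Tendsto (fun k => 4 / ul (S.pr fun k ω => ¬ Lgc A.1 (C + ε) k ω) / (S.F k).n) UF (𝓝 0) :=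
      S.div_n_tendsto _
    filter_upwards [pr_half' hB, h4.eventually (gt_mem_nhds (half_pos hε))] with k hk hk'
    have hn := (S.F k).pos
    have hp : 0 < S.pr (fun k ω => ¬ Lgc A.1 (C + ε) k ω) k := (half_pos hB).trans_le hk
    have e1 := CH_res_ge (S.F k).nn (S.F k).ms (fun ω => ¬ Lgc A.1 (C + ε) k ω) (Quotient.mk (A.1 k))
      (Quotient.mk (S.F k).Z) ((C + ε) * (S.F k).n) (by
        intro ω _ hω
        unfold Lgc at hω
        push Not at hω
        exact hω.le)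
    rw [(S.F k).CH_res] at e1
    have e2 : (S.rest fun k ω => ¬ Lgc A.1 (C + ε) k ω).rt A.1 S.tr k =
        CH ((S.F k).rest fun ω => ¬ Lgc A.1 (C + ε) k ω).μ (Quotient.mk (A.1 k)) (Quotient.mk (S.F k).Z) /
          (S.F k).n := by
      show CH ((S.F k).rest fun ω => ¬ Lgc A.1 (C + ε) k ω).μ (Quotient.mk (A.1 k))
        (Quotient.mk (⊤ ⊓ (S.F k).Z)) / (S.F k).n = _
      rw [top_inf_eq]
    refine le_trans ?_ (le_of_eq e2.symm)
    rw [le_div_iff₀ hn]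
    have e3 : S.pr (fun k ω => ¬ Lgc A.1 (C + ε) k ω) k = (S.F k).pb fun ω => ¬ Lgc A.1 (C + ε) k ω := rfl
    have e4 : mass (res (S.F k).μ fun ω => ¬ Lgc A.1 (C + ε) k ω) = (S.F k).pb fun ω => ¬ Lgc A.1 (C + ε) k ω := rfl
    rw [e3] at hk hp
    rw [e4] at e1
    obtain ⟨p, hp'⟩ : ∃ p, p = (S.F k).pb fun ω => ¬ Lgc A.1 (C + ε) k ω := ⟨_, rfl⟩
    obtain ⟨X, hX⟩ : ∃ X, X = CH ((S.F k).rest fun ω => ¬ Lgc A.1 (C + ε) k ω).μ (Quotient.mk (A.1 k))
      (Quotient.mk (S.F k).Z) := ⟨_, rfl⟩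
    obtain ⟨q, hq⟩ : ∃ q, q = ul (S.pr fun k ω => ¬ Lgc A.1 (C + ε) k ω) := ⟨_, rfl⟩
    rw [← hp'] at hk hp e1
    rw [← hX] at e1 ⊢
    rw [← hq] at hk hk'
    have hq0 : 0 < q := by rw [hq]; exact hB
    rw [div_lt_iff₀ hn, div_lt_iff₀ hq0] at hk'
    have e5 : (C + ε) * (S.F k).n - X ≤ 2 / p := by
      rw [le_div_iff₀ hp]
      linarith
    have e6 : 2 / p ≤ 4 / q := by
      rw [div_le_div_iff₀ hp hq0]
      linarith
    have e7 : 4 / q ≤ ε / 2 * (S.F k).n := by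
      rw [div_le_iff₀ hq0]
      exact hk'.le
    linarith
  linarith

/-- the number of cells under restriction to an event of cells with large conditional probability -/
theorem nv_rest_le {S : Sp} {A : ∀ k, Setoid (S.F k).Ω} {C : ℝ} {E : ∀ k, (S.F k).Ω → Prop}
    (hE : ∀ k ω, E k ω → Lgc A C k ω) (hp : 0 < ul (S.pr E)) :
    ∀ᶠ k in UF, ∀ ω, ((S.rest E).F k).μ ω ≠ 0 → (nv ((S.rest E).F k) (A k) ω : ℝ) ≤ 2 ^ (C * (S.F k).n) := by
  filter_upwards [pr_half' hp] with k hk ω hω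
  have h0 : (S.F k).pb (E k) ≠ 0 := by
    have h1 : 0 < S.pr E k := (half_pos hp).trans_le hk
    exact h1.ne'
  have h1 := (S.F k).rest_supp (E k) ω hω
  apply nvf_le_of_large (S.F k).nn _ _ _ _ _
  · exact (lt_of_le_of_ne ((S.F k).nn ω) (Ne.symm h1.1)).trans_le (pr_self (S.F k).nn _ ω)
  · intro ω' hω'
    exact hE k ω' (((S.F k).rest_supp (E k) ω' hω').2 h0)

/-- FEW CELLS on a typical event -/
theorem few_cells {S : Sp} (A : S.Inf) {C ε : ℝ} (hε : 0 < ε) (h : Slow.RobLe (cl A) ⊥ C) :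
    ∃ E : ∀ k, (S.F k).Ω → Prop, Typ E ∧ ∀ᶠ k in UF, ∀ ω, ((S.rest E).F k).μ ω ≠ 0 →
      (nv ((S.rest E).F k) (A.1 k) ω : ℝ) ≤ 2 ^ ((C + ε) * (S.F k).n) :=
  ⟨_, typ_large A hε h, nv_rest_le (fun _ _ h => h) (ul_pr_typ_pos _ (typ_large A hε h))⟩

end

end Pool.Agent.Helper80.HCI
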