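import Pool.Agent.Helper80.HCI.Few
import Pool.Agent.Helper82.TP.Copy

/-! Agreement of literal functions of two variables on events: the common digits are known. Finite form, and passage
to the diagonal. -/

set_option autoImplicit false

namespace Pool.Agent.Helper80.HCI

open Finset Filter Topology Pool.Agent.Helper69.RK Pool.Agent.Helper31.EC Pool.Agent.Helper40.EL
open Pool.Agent.Helper60.CS Pool.Agent.Helper82.TP

noncomputable section

open Sp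

/-- literal functions of a variable (finite form) -/
def FLit (F : FSp) {α : Type} (V : F.Ω → α) (g : F.Ω → ℝ) : Prop :=
  ∀ ω ω', F.μ ω ≠ 0 → F.μ ω' ≠ 0 → F.Z ω ω' → V ω = V ω' → g ω = g ω'

/-- agreement: finite form -/
def AgF (F : FSp) {α β γ : Type} (VA : F.Ω → α) (VB : F.Ω → β) (K : F.Ω → γ) (p η δ r : ℝ) : Prop :=
  ∀ (E : F.Ω → Prop) (gA gB : F.Ω → ℝ), p ≤ F.pb E → FLit F VA gA → FLit F VB gB →
    (∀ ω, F.μ ω ≠ 0 → E ω → |gA ω - gB ω| ≤ 2 ^ (-(δ * F.n))) →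
    CH (F.rest E).μ (fun ω => ⌊gB ω / 2 ^ (-(r * F.n))⌋) (fun ω => (K ω, Quotient.mk F.Z ω)) ≤ η * F.n

/-- agreement: for functions of arbitrary size -/
def AGr {S : Sp} {α β γ : ℕ → Type} (VA : ∀ k, (S.F k).Ω → α k) (VB : ∀ k, (S.F k).Ω → β k)
    (K : ∀ k, (S.F k).Ω → γ k) : Prop :=
  ∀ (E : ∀ k, (S.F k).Ω → Prop) (gA gB : ∀ k, (S.F k).Ω → ℝ) (δ r : ℝ), 0 < ul (S.pr E) → 0 < r → r < δ → δ ≤ 1 →
    (∀ᶠ k in UF, FLit (S.F k) (VA k) (gA k)) → (∀ᶠ k in UF, FLit (S.F k) (VB k) (gB k)) →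
    (∀ᶠ k in UF, ∀ ω, (S.F k).μ ω ≠ 0 → E k ω → |gA k ω - gB k ω| ≤ S.dl δ k) →
    ∀ η : ℝ, 0 < η → ∀ᶠ k in UF, CH ((S.F k).rest (E k)).μ (fun ω => ⌊gB k ω / S.dl r k⌋)
      (fun ω => (K k ω, Quotient.mk (S.F k).Z ω)) ≤ η * (S.F k).n

/-- agreement: for functions to full precision -/
def AGR {S : Sp} {α β : ℕ → Type} (VA : ∀ k, (S.F k).Ω → α k) (VB : ∀ k, (S.F k).Ω → β k) (κ : S.L) : Prop :=
  ∀ (E : ∀ k, (S.F k).Ω → Prop) (hE : 0 < ul (S.pr E)) (gA gB : QS S) (δ : ℝ), δ ≤ 1 → Lit VA gA → Lit VB gB →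
    QS.rest E hE (gA - gB) ∈ QS.Id (S.rest E) δ → restL E hE (QS.dg gB δ) ≤ restL E hE κ

section fin

variable {S : Sp} {α β γ : ℕ → Type} {VA : ∀ k, (S.F k).Ω → α k} {VB : ∀ k, (S.F k).Ω → β k}
  {K : ∀ k, (S.F k).Ω → γ k}

/-- the finite form of agreement holds eventually -/
theorem AGr.fin (h : AGr VA VB K) {p η δ r : ℝ} (hp : 0 < p) (hη : 0 < η) (hr0 : 0 < r) (hr : r < δ) (hδ : δ ≤ 1) :
    ∀ᶠ k in UF, AgF (S.F k) (VA k) (VB k) (K k) p η δ r := by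
  classical
  by_contra hc
  have h1 := UF_not hc
  have h2 : ∀ k, ∃ (E : (S.F k).Ω → Prop) (gA gB : (S.F k).Ω → ℝ),
      FLit (S.F k) (VA k) gA ∧ FLit (S.F k) (VB k) gB ∧
      (∀ ω, (S.F k).μ ω ≠ 0 → E ω → |gA ω - gB ω| ≤ 2 ^ (-(δ * (S.F k).n))) ∧
      (¬ AgF (S.F k) (VA k) (VB k) (K k) p η δ r → p ≤ (S.F k).pb E ∧
        η * (S.F k).n < CH ((S.F k).rest E).μ (fun ω => ⌊gB ω / 2 ^ (-(r * (S.F k).n))⌋)
          (fun ω => (K k ω, Quotient.mk (S.F k).Z ω))) := by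
    intro k
    by_cases h3 : AgF (S.F k) (VA k) (VB k) (K k) p η δ r
    · refine ⟨fun _ => False, fun _ => 0, fun _ => 0, fun _ _ _ _ _ _ => rfl, fun _ _ _ _ _ _ => rfl,
        fun _ _ h => h.elim, fun h => absurd h3 h⟩
    · have h4 := h3
      unfold AgF at h4
      push Not at h4
      obtain ⟨E, gA, gB, h5, h6, h7, h8, h9⟩ := h4
      exact ⟨E, gA, gB, h6, h7, h8, fun _ => ⟨h5, h9⟩⟩
  choose E gA gB h3 h4 h5 h6 using h2
  have hE : 0 < ul (S.pr E) := by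
    apply hp.trans_le
    apply const_le_ul (UB_pr E)
    filter_upwards [h1] with k hk using (h6 k hk).1
  have h7 := h E gA gB δ r hE hr0 hr hδ (Eventually.of_forall h3) (Eventually.of_forall h4)
    (Eventually.of_forall fun k ω a b => h5 k ω a b) η hη
  obtain ⟨k, h8, h9⟩ := (h1.and h7).exists
  exact absurd h9 (not_le.mpr (h6 k h8).2)

theorem res_res {Ω : Type} (μ : Ω → ℝ) (c : ℝ) (E E' : Ω → Prop) :
    res (fun ω => c * res μ E ω) E' = fun ω => c * res μ (fun ω => E ω ∧ E' ω) ω := by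
  funext ω
  by_cases h2 : E' ω
  · rw [res_pos _ _ _ h2]
    by_cases h3 : E ω
    · rw [res_pos _ _ _ h3, res_pos μ (fun ω => E ω ∧ E' ω) ω ⟨h3, h2⟩]
    · rw [res_neg _ _ _ h3, res_neg μ (fun ω => E ω ∧ E' ω) ω (fun h => h3 h.1)]
  · rw [res_neg _ _ _ h2, res_neg μ (fun ω => E ω ∧ E' ω) ω (fun h => h2 h.2), mul_zero]

theorem pb_rest (F : FSp) (E E' : F.Ω → Prop) (h0 : F.pb E ≠ 0) :
    (F.rest E).pb E' = (F.pb E)⁻¹ * F.pb (fun ω => E ω ∧ E' ω) := by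
  have e1 : (F.rest E).pb E' = ∑ ω : F.Ω, res (F.restμ E) E' ω := rfl
  have e2 : F.pb (fun ω => E ω ∧ E' ω) = ∑ ω, res F.μ (fun ω => E ω ∧ E' ω) ω := rfl
  rw [e1, e2, F.restμ_eq E h0, res_res, Finset.mul_sum]

/-- restriction to an event inside an event -/
theorem rest_rest_mu (F : FSp) (E E' : F.Ω → Prop) (h : F.pb (fun ω => E ω ∧ E' ω) ≠ 0) :
    ((F.rest E).rest E').μ = (F.rest fun ω => E ω ∧ E' ω).μ := by
  have h0 : F.pb E ≠ 0 := by
    intro hc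
    apply h
    apply le_antisymm _ (F.pb_nonneg _)
    rw [← hc]
    exact F.pb_mono fun ω _ h1 => h1.1
  have h2 := pb_rest F E E' h0
  have h3 : (F.rest E).pb E' ≠ 0 := by
    rw [h2]
    exact mul_ne_zero (inv_ne_zero h0) h
  have e1 : ((F.rest E).rest E').μ = fun ω => ((F.rest E).pb E')⁻¹ * res (F.restμ E) E' ω :=
    (F.rest E).restμ_eq E' h3
  have e2 : (F.rest fun ω => E ω ∧ E' ω).μ = fun ω => (F.pb (fun ω => E ω ∧ E' ω))⁻¹ *
      res F.μ (fun ω => E ω ∧ E' ω) ω := F.restμ_eq _ h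
  rw [e1, e2, F.restμ_eq E h0, res_res, h2]
  funext ω
  field_simp

theorem pb_and (F : FSp) (E E' : F.Ω → Prop) : F.pb E * (F.rest E).pb E' ≤ F.pb (fun ω => E ω ∧ E' ω) := by
  by_cases h0 : F.pb E = 0
  · rw [h0, zero_mul]
    exact F.pb_nonneg _
  · rw [pb_rest F E E' h0]
    apply le_of_eq
    field_simp

/-- AGREEMENT from its finite form -/
theorem agr_of_fin (hK : Bdd K)
    (h : ∀ p η δ r : ℚ, 0 < p → 0 < η → 0 < r → r < δ → δ ≤ 1 →
      ∀ᶠ k in UF, AgF (S.F k) (VA k) (VB k) (K k) p η δ r) : AGR VA VB (io K) := by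
  classical
  intro E hE gA gB δ hδ hA hB hm
  obtain ⟨a, rfl, ha⟩ := hA
  obtain ⟨b, rfl, hb⟩ := hB
  rw [← map_sub, QS.rest_mk, QS.mk_mem_Id hδ] at hm
  obtain ⟨E', K', hE', hK', hh⟩ := hm
  rw [← QS.rest_dg, QS.rest_mk, QS.dg_mk _ hδ]
  apply (TR.vec fun _ : Fin 1 => TR.rest E b).dg_le_of_lt
  intro ε hε
  show TR.dg (TR.rest E b) (δ - ε) ≤ _
  rcases le_or_gt (δ - ε) 0 with h0 | h0
  · have h1 : TR.dg (TR.rest E b) (δ - ε) = ⊥ := VV.dg_nonpos _ h0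
    rw [h1]
    exact bot_le
  obtain ⟨r, hr1, hr2⟩ := exists_rat_btwn (show δ - ε < δ - ε / 2 by linarith)
  obtain ⟨δ1, hd1, hd2⟩ := exists_rat_btwn (show δ - ε / 2 < δ by linarith)
  refine (TR.dg_mono _ hr1.le).trans ?_
  rw [TR.rest_dg E hE]
  -- the event
  have hEE : ∀ᶠ k in UF, ul (S.pr E) / 4 ≤ (S.F k).pb (fun ω => E k ω ∧ E' k ω) := by
    have h1 := ul_pr_typ _ hE'
    have h2 : ∀ᶠ k in UF, (1 : ℝ) / 2 ≤ (S.rest E).pr E' k := by
      have h3 := pr_half' (E := E') (by rw [h1]; norm_num)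
      rw [h1] at h3
      exact h3
    filter_upwards [pr_half' hE, h2] with k h3 h4
    refine le_trans ?_ (pb_and _ _ _)
    have h5 : (1 : ℝ) / 2 ≤ ((S.F k).rest (E k)).pb (E' k) := h4
    have h6 : ul (S.pr E) / 2 ≤ (S.F k).pb (E k) := h3
    nlinarith
  obtain ⟨p, hp1, hp2⟩ := exists_rat_btwn (show 0 < ul (S.pr E) / 4 by linarith)
  have hp1' : 0 < p := by exact_mod_cast hp1
  -- comparison on the smaller event
  have hT : 0 < ul ((S.rest E).pr E') := ul_pr_typ_pos _ hE'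
  rw [← restL_le_typ (S := S.rest E) E' hE', ← h_eq_zero_iff]
  apply le_antisymm _ (h_nonneg _ _)
  apply le_of_forall_pos_le_add
  intro η' hη'
  obtain ⟨η, hη1, hη2⟩ := exists_rat_btwn hη'
  have hη1' : 0 < η := by exact_mod_cast hη1
  have hr0 : 0 < r := by
    have : (0 : ℝ) < r := h0.trans hr1
    exact_mod_cast this
  have hrd : r < δ1 := by
    have : (r : ℝ) < δ1 := hr2.trans hd1
    exact_mod_cast this
  have hd1' : δ1 ≤ 1 := by
    have : (δ1 : ℝ) ≤ 1 := hd2.le.trans hδ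
    exact_mod_cast this
  have h1 := h p η δ1 r hp1' hη1' hr0 hrd hd1'
  have e1 : restL E' (ul_pr_typ_pos _ hE') (restL E hE (TR.dg b r)) =
      cl (S := (S.rest E).rest E') (restI E' (restI E ((TR.vec fun _ : Fin 1 => b).bdd r).toInf)) := by
    have e2 : TR.dg b r = cl ((TR.vec fun _ : Fin 1 => b).bdd r).toInf := io_eq _
    rw [e2]
    rfl
  have e3 : restL E' (ul_pr_typ_pos _ hE') (restL E hE (io K)) =
      cl (S := (S.rest E).rest E') (restI E' (restI E hK.toInf)) := by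
    rw [io_eq hK]
    rfl
  rw [e1, e3, h_cl, zero_add]
  apply ul_le_const (UB_rt _ _)
  have hδδ : (0 : ℝ) < δ - δ1 := by linarith
  filter_upwards [h1, hEE, hh, hK'.eventually_le hδδ, ha, hb] with k h2 h3 h4 h5 h6 h7
  have hn := (S.F k).pos
  have h8 : (S.F k).pb (fun ω => E k ω ∧ E' k ω) ≠ 0 :=
    ((show (0 : ℝ) < ul (S.pr E) / 4 by linarith).trans_le h3).ne'
  have h9 := h2 (fun ω => E k ω ∧ E' k ω) (TR.ev a k) (TR.ev b k) (hp2.le.trans h3)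
    (fun ω ω' x1 x2 x3 x4 => h6 ω ω' x1 x2 x3 x4) (fun ω ω' x1 x2 x3 x4 => h7 ω ω' x1 x2 x3 x4) (by
      intro ω hω hEω
      have h10 := h4 ω ((S.F k).rest_supp' (E k) ω hω hEω.1) hEω.2
      have h11 : |a.1 k ω - b.1 k ω - 0| ≤ K' k * S.dl δ k := h10
      rw [sub_zero] at h11
      refine h11.trans ?_
      have h12 : K' k ≤ 2 ^ ((δ - δ1) * (S.F k).n) := le_trans (by linarith) h5
      refine (mul_le_mul_of_nonneg_right h12 (S.dl_pos δ k).le).trans (le_of_eq ?_)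
      show (2 : ℝ) ^ ((δ - δ1) * (S.F k).n) * 2 ^ (-(δ * (S.F k).n)) = 2 ^ (-((δ1 : ℝ) * (S.F k).n))
      rw [← Real.rpow_add (by norm_num : (0 : ℝ) < 2)]
      congr 1
      ring)
  show CH (((S.F k).rest (E k)).rest (E' k)).μ (Quotient.mk (Setoid.ker ((TR.vec fun _ : Fin 1 => b).cellv r k)))
    (Quotient.mk (Setoid.ker (K k) ⊓ (S.F k).Z)) / (S.F k).n ≤ η'
  rw [div_le_iff₀ hn]
  refine le_trans (le_of_eq ?_) (h9.trans (mul_le_mul_of_nonneg_right hη2.le hn.le))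
  rw [rest_rest_mu (S.F k) (E k) (E' k) h8]
  have key1 : ∀ ω ω' : (S.F k).Ω, (Quotient.mk (Setoid.ker (K k) ⊓ (S.F k).Z) ω' = Quotient.mk
      (Setoid.ker (K k) ⊓ (S.F k).Z) ω) ↔ ((K k ω', Quotient.mk (S.F k).Z ω') = (K k ω, Quotient.mk (S.F k).Z ω)) := by
    intro ω ω'
    rw [Prod.mk.injEq]
    constructor
    · intro h
      have h' := Quotient.exact h
      exact ⟨h'.1, Quotient.sound h'.2⟩
    · intro h
      exact Quotient.sound ⟨h.1, Quotient.exact h.2⟩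
  have key2 : ∀ ω ω' : (S.F k).Ω, (Quotient.mk (Setoid.ker ((TR.vec fun _ : Fin 1 => b).cellv r k)) ω' = Quotient.mk
      (Setoid.ker ((TR.vec fun _ : Fin 1 => b).cellv r k)) ω) ↔
      (⌊TR.ev b k ω' / 2 ^ (-((r : ℝ) * (S.F k).n))⌋ = ⌊TR.ev b k ω / 2 ^ (-((r : ℝ) * (S.F k).n))⌋) := by
    intro ω ω'
    constructor
    · intro h
      have h' : (TR.vec fun _ : Fin 1 => b).cellv r k ω' = (TR.vec fun _ : Fin 1 => b).cellv r k ω := Quotient.exact h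
      exact congrFun h' 0
    · intro h
      apply Quotient.sound
      show (TR.vec fun _ : Fin 1 => b).cellv r k ω' = (TR.vec fun _ : Fin 1 => b).cellv r k ω
      funext i
      exact h
  apply e2_CH_congr
  · intro ω ω' _ _
    exact key1 ω ω'
  · intro ω ω' _ _
    rw [Prod.mk.injEq, Prod.mk.injEq]
    exact and_congr (key2 ω ω') (key1 ω ω')

end fin

end

end Pool.Agent.Helper80.HCI
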