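import Pool.Agent.Helper80.HCI.Dcc

/-! The approximate common fields of the corners of case B, and their passage to the diagonal. -/

set_option autoImplicit false

namespace Pool.Agent.Helper80.HCI

open Finset Filter Topology Pool.Agent.Helper69.RK Pool.Agent.Helper31.EC Pool.Agent.Helper40.EL
open Pool.Agent.Helper60.CS Pool.Agent.Helper82.TP Pool.Agent.Helper79.NF Pool.Agent.Helper31.NSB

noncomputable section

open Sp QS

/-- approximate common fields, all errors `ε`; `g` is the rate of the richness -/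
structure CCe {S : Sp} (H : RD S) (f : FR S) (w1 w g : ℝ) (Sc : Set ℝ) (ε : ℝ) : Prop where
  κ0 : h (H.κ 0) ⊥ ≤ ε
  nest : LNest H Sc
  iA : h (io H.VA) H.L ≤ ε
  iA' : h H.L (io H.VA) ≤ ε
  iB : h (io H.VB) H.B ≤ ε
  iB' : h H.B (io H.VB) ≤ ε
  time : 1 - ε ≤ h (dg H.t 1) H.L
  leakA : ∀ s ∈ Sc, I (H.κ s) (dg H.t 1) (H.L ⊔ dg H.t s) ≤ ε
  T1 : ∀ s ∈ Sc, I (dg H.x 1) (H.κ s ⊔ H.B) ⊥ ≤ ε
  rich : ∀ q : ℚ, 0 < q → q ≤ 1 → Slow.RobGe (dg H.x q) H.B (g * q - ε)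
  ft : ∀ s ∈ Sc, H.t - f.t0 s ∈ Id S (s - ε)
  ft' : ∀ s ∈ Sc, h (dg (f.t0 s) 1) (dg H.t s) ≤ ε
  fy : ∀ s ∈ Sc, H.y - f.y0 s ∈ Id S (s - ε)
  fy' : ∀ s ∈ Sc, h (dg (f.y0 s) 1) (dg H.y s) ≤ ε
  frR : ∀ s ∈ Sc, H.R - (f.r0 s + f.rt s * H.t + f.ry s * H.y) ∈ Id S (w1 * s - ε)
  frZ : ∀ s ∈ Sc, H.z - (f.z0 s + f.k0 s * H.t + f.k1 s * H.y + f.c s * H.R) ∈ Id S (w * s - ε)
  full : ∀ s ∈ Sc, w1 * s ≤ 1 → Slow.RobGe H.M (H.κ s) (3 - (2 + w1) * s - ε)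
  agr : ∀ s ∈ Sc, ∀ s' ∈ Sc, s ≤ s' → AgW H s s'

/-- `z` unsaturated over the digits of `M`, approximate form -/
def UnIe {S : Sp} (H : RD S) (ρ ε : ℝ) : Prop :=
  ∀ a b : ℚ, 0 ≤ a → a ≤ b → b ≤ 1 → Slow.RobLe (dg H.z b) (dg H.z a ⊔ H.iso b) ((1 - ρ) * ((b : ℝ) - a) + ε)

/-- `z` unsaturated over `M`, approximate form -/
def UnAe {S : Sp} (H : RD S) (ρ ε : ℝ) : Prop :=
  ∀ a b : ℚ, 0 ≤ a → a ≤ b → b ≤ 1 → Slow.RobLe (dg H.z b) (dg H.z a ⊔ H.M) ((1 - ρ) * ((b : ℝ) - a) + ε)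

namespace Dg

variable {Sc : Set ℝ} {J : Inp Sc} {Λ : Type} {lv : Λ → ℝ} (s : Dg J lv)

/-- AGREEMENT passes to the diagonal -/
theorem agr {r r' : ℝ} (hr : r ∈ Sc) (hr' : r' ∈ Sc) (h : ∀ᶠ j in atTop, AgW (J.H j) r r') : Agr s.HT r r' := by
  intro E hE gA gB δ _ hδ1 hA hB hm
  have h1 := agr_of_fin (S := s.T) (VA := fun k ω => (s.HT.VA k ω, s.HT.K r k ω))
    (VB := fun k ω => (s.HT.VB k ω, s.HT.K r' k ω)) (K := s.HT.K r) (s.bddK hr) (fun p η δ q hp hη hq hqδ hδ => by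
      filter_upwards [s.cn (CIx.ag ⟨r, hr⟩ ⟨r', hr'⟩ p η δ q), s.tend.eventually h] with k hk hk'
      exact hk hk' hp hη hq hqδ hδ)
  exact h1 E hE gA gB δ hδ1 hA hB hm

/-- literal nesting passes to the diagonal -/
theorem nest (h : ∀ᶠ j in atTop, LNest (J.H j) Sc) : LNest s.HT Sc := by
  intro r hr r' hr' hrr
  filter_upwards [s.cn (CIx.ns ⟨r, hr⟩ ⟨r', hr'⟩), s.tend.eventually h] with k hk hk'
  exact hk (hk' r hr r' hr' hrr)

/-- iso form of the unsaturated top coordinate -/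
theorem uns {ρ : ℝ} {ε : ℕ → ℝ} (hε : Tendsto ε atTop (𝓝 0)) (hu : ∀ᶠ j in atTop, UnIe (J.H j) ρ (ε j))
    (T : Sp) (p : Pj T s.T) (E : ∀ k, (T.F k).Ω → Prop) (hE : 0 < ul (T.pr E)) (a b : ℝ) (ha : 0 ≤ a) (hab : a ≤ b)
    (hb : b ≤ 1) : h (restL E hE (p.map (dg s.HT.z b))) (restL E hE (p.map (dg s.HT.z a ⊔ s.HT.iso b))) ≤
      (1 - ρ) * (b - a) := by
  rcases hab.eq_or_lt with h4 | h4
  · subst h4
    rw [h_zero, sub_self, mul_zero]
    exact restL_mono E hE (p.map_mono le_sup_left)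
  apply le_of_forall_pos_le_add
  intro e he
  obtain ⟨η, hη0, hη1, hη2⟩ : ∃ η : ℝ, 0 < η ∧ η < b - a ∧ (1 + 2 * |1 - ρ|) * η ≤ e := by
    refine ⟨min ((b - a) / 2) (e / (1 + 2 * |1 - ρ|)), lt_min (by linarith) (by positivity),
      (min_le_left _ _).trans_lt (by linarith), ?_⟩
    have h6 : (0 : ℝ) < 1 + 2 * |1 - ρ| := by positivity
    calc _ ≤ (1 + 2 * |1 - ρ|) * (e / (1 + 2 * |1 - ρ|)) :=
          mul_le_mul_of_nonneg_left (min_le_right _ _) h6.le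
      _ = e := by field_simp
  obtain ⟨b', hb1, hb2⟩ := exists_rat_btwn (show b - η < b by linarith)
  obtain ⟨a', ha0, ha1, ha2⟩ : ∃ a' : ℚ, (0 : ℝ) ≤ a' ∧ a - η ≤ a' ∧ (a' : ℝ) ≤ a := by
    rcases ha.eq_or_lt with h5 | h5
    · exact ⟨0, by simp, by rw [← h5]; push_cast; linarith, by simp [← h5]⟩
    · obtain ⟨q, hq1, hq2⟩ := exists_rat_btwn (show max 0 (a - η) < a from max_lt h5 (by linarith))
      exact ⟨q, (le_max_left _ _).trans hq1.le, (le_max_right _ _).trans hq1.le, hq2.le⟩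
  have ha'b' : a' ≤ b' := by
    have : (a' : ℝ) ≤ b' := by linarith
    exact_mod_cast this
  have hb'1 : (b' : ℝ) ≤ 1 := hb2.le.trans hb
  have hbq : b' ≤ 1 := by exact_mod_cast hb'1
  have haq : 0 ≤ a' := by exact_mod_cast ha0
  have ha'1 : (a' : ℝ) ≤ 1 := by linarith
  have h1 : Slow.RobLe (dg s.HT.z b') (dg s.HT.z a' ⊔ s.HT.iso b') ((1 - ρ) * ((b' : ℝ) - a')) := by
    refine (s.rz.dgq b' hb'1).robLe ((s.rz.dgq a' ha'1).sup (s.riso b' hb'1))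
      (β := fun j => (1 - ρ) * ((b' : ℝ) - a') + ε j) ?_ (hu.mono fun j hj => hj a' b' haq ha'b' hbq)
    have h2 := hε.const_add ((1 - ρ) * ((b' : ℝ) - a'))
    rwa [add_zero] at h2
  have h2 := h1 T p E hE
  have h3 := RobLe_dg s.HT.z hb2.le (dg s.HT.z a ⊔ s.HT.iso b) T p E hE
  have h5 : Pool.Agent.Helper31.EC.h (restL E hE (p.map (dg s.HT.z b')))
      (restL E hE (p.map (dg s.HT.z a ⊔ s.HT.iso b))) ≤ (1 - ρ) * ((b' : ℝ) - a') := by
    refine le_trans (h_anti (restL_mono E hE (p.map_mono ?_))) h2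
    refine sup_le_sup (QS.dg_mono _ ha2) ?_
    exact sup_le_sup (sup_le_sup (QS.dg_mono _ hb2.le) (QS.dg_mono _ hb2.le)) (QS.dg_mono _ hb2.le)
  have h6 := h_triangle (restL E hE (p.map (dg s.HT.z b))) (restL E hE (p.map (dg s.HT.z b')))
    (restL E hE (p.map (dg s.HT.z a ⊔ s.HT.iso b)))
  have h7 : Pool.Agent.Helper31.EC.h (restL E hE (p.map (dg s.HT.z b)))
      (restL E hE (p.map (dg s.HT.z b')) ⊔ restL E hE (p.map (dg s.HT.z a ⊔ s.HT.iso b))) ≤ b - b' := by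
    rw [← restL_sup, ← p.map_sup]
    exact h3
  have h8 : (1 - ρ) * ((b' : ℝ) - a') ≤ (1 - ρ) * (b - a) + 2 * |1 - ρ| * η := by
    have e2 : (1 - ρ) * ((b' - b) - ((a' : ℝ) - a)) ≤ |1 - ρ| * |(b' - b) - ((a' : ℝ) - a)| := by
      rw [← abs_mul]; exact le_abs_self _
    have e3 : |(b' - b) - ((a' : ℝ) - a)| ≤ 2 * η := by
      rw [abs_le]; constructor <;> linarith
    have e4 := mul_le_mul_of_nonneg_left e3 (abs_nonneg (1 - ρ))
    nlinarith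
  linarith

/-- all-digits form of the unsaturated top coordinate -/
theorem unsa {ρ : ℝ} {ε : ℕ → ℝ} (hε : Tendsto ε atTop (𝓝 0)) (hu : ∀ᶠ j in atTop, UnAe (J.H j) ρ (ε j)) :
    UnS s.HT.z s.HT.M 0 ρ := by
  refine uns_of_rob fun a b ha hab hb => ?_
  have hab' : a ≤ b := by exact_mod_cast hab
  have haq : 0 ≤ a := by exact_mod_cast ha
  have hbq : b ≤ 1 := by exact_mod_cast hb
  refine (s.rz.dgq b hb).robLe ((s.rz.dgq a (hab.trans hb)).sup s.rM)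
    (β := fun j => (1 - ρ) * ((b : ℝ) - a) + ε j) ?_ (hu.mono fun j hj => hj a b haq hab' hbq)
  have h2 := hε.const_add ((1 - ρ) * ((b : ℝ) - a))
  rwa [add_zero] at h2

/-- THE COMMON FIELDS (but unsaturation) pass to the diagonal -/
theorem c0 {w1 w g : ℝ} {ε : ℕ → ℝ} (hε : Tendsto ε atTop (𝓝 0))
    (hc : ∀ᶠ j in atTop, CCe (J.H j) (J.f j) w1 w g Sc (ε j))
    (hlv : ∀ r ∈ Sc, ∃ l, lv l = r) (h0 : (0 : ℝ) ∈ Sc) (hnn : ∀ r ∈ Sc, 0 ≤ r) (h1 : ∀ r ∈ Sc, r ≤ 1)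
    (hg : 0 < g) (hw1 : 1 ≤ w1) (hw : 1 ≤ w) : C0 s.HT s.fT w1 w Sc := by
  have hdg : ∀ r ∈ Sc, ∀ {F : ∀ j, QS (J.S j)} {f : QS s.T}, Rf s.toUni F f →
      Rp s.toUni (fun j => dg (F j) r) (dg f r) := by
    intro r hr F f hf
    obtain ⟨l, rfl⟩ := hlv r hr
    exact hf.dgL l (h1 _ hr)
  have hsub : ∀ b : ℝ, Tendsto (fun j => b - ε j) atTop (𝓝 b) := by
    intro b
    have h2 := hε.const_sub b
    rwa [sub_zero] at h2
  exact {
    nn := hnn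
    zero := h0
    κ0 := by
      have h2 := (s.rK h0).le (Rp.bot s.toUni) hε (hc.mono fun j hj => hj.κ0)
      exact le_bot_iff.mp h2
    bdd := fun r hr => s.bddK hr
    mono := fun r hr r' hr' hrr => by
      apply io_le_of_fun (s.bddK hr')
      exact s.nest (hc.mono fun j hj => hj.nest) r hr r' hr' hrr
    nest := s.nest (hc.mono fun j hj => hj.nest)
    bA := s.bddA
    iA := le_antisymm (s.rVA.le s.rL hε (hc.mono fun j hj => hj.iA)) (s.rL.le s.rVA hε (hc.mono fun j hj => hj.iA'))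
    bB := s.bddB
    iB := le_antisymm (s.rVB.le s.rB hε (hc.mono fun j hj => hj.iB)) (s.rB.le s.rVB hε (hc.mono fun j hj => hj.iB'))
    lA := ⟨s.litA 4 (by decide), by rw [s.a_eq]; exact s.litA 7 (by decide), s.litA 5 (by decide),
      by rw [s.cR_eq]; exact s.litA 8 (by decide), s.litA 6 (by decide), by rw [s.az_eq]; exact s.litA 9 (by decide)⟩
    lB := ⟨s.litB 0 (by decide), s.litB 1 (by decide), s.litB 2 (by decide), s.litB 3 (by decide)⟩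
    time := by
      apply le_antisymm
      · exact QS.h_dg_le_one _ _
      · exact s.rt.dg1.le_h s.rL (hsub 1) (hc.mono fun j hj => hj.time)
    leakA := fun r hr => (s.rK hr).I_zero s.rt.dg1 (s.rL.sup (hdg r hr s.rt)) hε (hc.mono fun j hj => hj.leakA r hr)
    T1 := fun r hr => s.rx.dg1.I_zero ((s.rK hr).sup s.rB) (Rp.bot s.toUni) hε (hc.mono fun j hj => hj.T1 r hr)
    rich := by
      refine ⟨g, hg, fun T p E hE r hr0 hr1 => ?_⟩
      rcases hr0.eq_or_lt with h4 | h4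
      · rw [← h4, mul_zero]
        exact h_nonneg _ _
      apply le_of_forall_pos_le_add
      intro e he
      obtain ⟨q, hq1, hq2⟩ := exists_rat_btwn (show max 0 (r - e / g) < r from
        max_lt h4 (by linarith [div_pos he hg]))
      have hq0 : (0 : ℝ) < q := (le_max_left _ _).trans_lt hq1
      have hq0' : 0 < q := by exact_mod_cast hq0
      have hqr : (q : ℝ) ≤ 1 := hq2.le.trans hr1
      have hq' : q ≤ 1 := by exact_mod_cast hqr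
      have h2 := (s.rx.dgq q hqr).robGe s.rB (hsub (g * q)) (hc.mono fun j hj => hj.rich q hq0' hq') T p E hE
      have h3 : g * r ≤ g * q + e := by
        have h5 : r - e / g < q := (le_max_right _ _).trans_lt hq1
        have h6 := mul_lt_mul_of_pos_left h5 hg
        rw [mul_sub, mul_div_cancel₀ _ hg.ne'] at h6
        linarith
      have h5 := h_mono (B := restL E hE (p.map s.HT.B)) (restL_mono E hE (p.map_mono (QS.dg_mono s.HT.x hq2.le)))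
      linarith
    lt := fun r hr => ⟨s.litK hr 0, s.litK hr 1⟩
    lr := fun r hr => ⟨s.litK hr 2, s.litK hr 3, s.litK hr 4⟩
    lz := fun r hr => ⟨s.litK hr 5, s.litK hr 6, s.litK hr 7, s.litK hr 8⟩
    ft := fun r hr => ⟨(s.rt.sub (s.rf9 0 hr)).mem_Id (hsub r) (hc.mono fun j hj => hj.ft r hr),
      (s.rf9 0 hr).dg1.le (hdg r hr s.rt) hε (hc.mono fun j hj => hj.ft' r hr)⟩
    fy := fun r hr => ⟨(s.ry.sub (s.rf9 1 hr)).mem_Id (hsub r) (hc.mono fun j hj => hj.fy r hr),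
      (s.rf9 1 hr).dg1.le (hdg r hr s.ry) hε (hc.mono fun j hj => hj.fy' r hr)⟩
    frR := fun r hr => (s.rR.sub (((s.rf9 2 hr).add ((s.rf9 3 hr).mul s.rt)).add ((s.rf9 4 hr).mul s.ry))).mem_Id
      (hsub (w1 * r)) (hc.mono fun j hj => hj.frR r hr)
    frZ := fun r hr => (s.rz.sub ((((s.rf9 5 hr).add ((s.rf9 6 hr).mul s.rt)).add ((s.rf9 7 hr).mul s.ry)).add
      ((s.rf9 8 hr).mul s.rR))).mem_Id (hsub (w * r)) (hc.mono fun j hj => hj.frZ r hr)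
    full := fun r hr hwr => s.rM.robGe (s.rK hr) (hsub (3 - (2 + w1) * r)) (hc.mono fun j hj => hj.full r hr hwr)
    agr := fun r hr r' hr' hrr => s.agr hr hr' (hc.mono fun j hj => hj.agr r hr r' hr' hrr)
    hw1 := hw1
    hw := hw }

/-- THE COMMON FIELDS pass to the diagonal -/
theorem cc {w1 w ρ g : ℝ} {ε : ℕ → ℝ} (hε : Tendsto ε atTop (𝓝 0))
    (hc : ∀ᶠ j in atTop, CCe (J.H j) (J.f j) w1 w g Sc (ε j)) (hu : ∀ᶠ j in atTop, UnIe (J.H j) ρ (ε j))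
    (hlv : ∀ r ∈ Sc, ∃ l, lv l = r) (h0 : (0 : ℝ) ∈ Sc) (hnn : ∀ r ∈ Sc, 0 ≤ r) (h1 : ∀ r ∈ Sc, r ≤ 1)
    (hg : 0 < g) (hw1 : 1 ≤ w1) (hw : 1 ≤ w) (hρ : 0 < ρ) : CC s.HT s.fT w1 w ρ Sc :=
  { s.c0 hε hc hlv h0 hnn h1 hg hw1 hw with
    uns := s.uns hε hu
    hρ := hρ }

end Dg

end

end Pool.Agent.Helper80.HCI
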