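import Pool.Agent.Helper80.HCI.Fex
import Pool.Agent.Helper31.NSB.St

/-! The diagonal of a sequence of corners (data `RD`, frames `FR` of case B). -/

set_option autoImplicit false

namespace Pool.Agent.Helper80.HCI

open Finset Filter Topology Pool.Agent.Helper69.RK Pool.Agent.Helper31.EC Pool.Agent.Helper40.EL
open Pool.Agent.Helper60.CS Pool.Agent.Helper82.TP Pool.Agent.Helper79.NF Pool.Agent.Helper31.NSB

noncomputable section

open Sp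

/-- the functions of a corner: point functions `t y R z`, line functions `x F v a cR az` -/
def b10 {S : Sp} (H : RD S) : Fin 10 → QS S := ![H.t, H.y, H.R, H.z, H.x, H.F, H.v, H.a, H.cR, H.az]

/-- the frames -/
def f9 {S : Sp} (f : FR S) (s : ℝ) : Fin 9 → QS S :=
  ![f.t0 s, f.y0 s, f.r0 s, f.rt s, f.ry s, f.z0 s, f.k0 s, f.k1 s, f.c s]

/-- uniformly bounded variables -/
def UBd {S : ℕ → Sp} {α : ℕ → ℕ → Type} (V : ∀ j k, ((S j).F k).Ω → α j k) : Prop :=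
  ∃ C : ℝ, ∀ j, ∀ᶠ k in UF, ∀ ω, ((S j).F k).μ ω ≠ 0 →
    (nv ((S j).F k) (Setoid.ker (V j k)) ω : ℝ) ≤ 2 ^ (C * ((S j).F k).n)

theorem UBd.bdd {S : ℕ → Sp} {α : ℕ → ℕ → Type} {V : ∀ j k, ((S j).F k).Ω → α j k} (h : UBd V) (j : ℕ) :
    Bdd (V j) := by
  obtain ⟨C, hC⟩ := h
  exact ⟨C, hC j⟩

/-- input of the diagonal of corners, with literal representatives of the functions and of the frames -/
structure Inp (Sc : Set ℝ) where
  S : ℕ → Sp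
  H : ∀ j, RD (S j)
  f : ∀ j, FR (S j)
  bK : ∀ s ∈ Sc, UBd fun j k => (H j).K s k
  bA : UBd fun j k => (H j).VA k
  bB : UBd fun j k => (H j).VB k
  r10 : Fin 10 → ∀ j, TR (S j)
  r10_mk : ∀ i j, QS.mk (r10 i j) = b10 (H j) i
  r10_litB : ∀ (i : Fin 10), (i : ℕ) < 4 → ∀ j, ∀ᶠ k in UF, FLit ((S j).F k) ((H j).VB k) ((r10 i j).1 k)
  r10_litA : ∀ (i : Fin 10), ¬ (i : ℕ) < 4 → ∀ j, ∀ᶠ k in UF, FLit ((S j).F k) ((H j).VA k) ((r10 i j).1 k)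
  r9 : Fin 9 → Sc → ∀ j, TR (S j)
  r9_mk : ∀ i (s : Sc) j, QS.mk (r9 i s j) = f9 (f j) s i
  r9_lit : ∀ i (s : Sc) j, ∀ᶠ k in UF, FLit ((S j).F k) ((H j).K s k) ((r9 i s j).1 k)

/-- literal representatives exist -/
theorem exists_Inp {Sc : Set ℝ} (S : ℕ → Sp) (H : ∀ j, RD (S j)) (f : ∀ j, FR (S j))
    (bK : ∀ s ∈ Sc, UBd fun j k => (H j).K s k) (bA : UBd fun j k => (H j).VA k) (bB : UBd fun j k => (H j).VB k)
    (litB : ∀ j, ∀ i : Fin 10, (i : ℕ) < 4 → Lit (H j).VB (b10 (H j) i))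
    (litA : ∀ j, ∀ i : Fin 10, ¬ (i : ℕ) < 4 → Lit (H j).VA (b10 (H j) i))
    (litK : ∀ j, ∀ s ∈ Sc, ∀ i : Fin 9, Lit ((H j).K s) (f9 (f j) s i)) :
    ∃ I : Inp Sc, I.S = S ∧ HEq I.H H ∧ HEq I.f f := by
  classical
  have h1 : ∀ (i : Fin 10) (j : ℕ), ∃ g : TR (S j), QS.mk g = b10 (H j) i ∧
      ((i : ℕ) < 4 → ∀ᶠ k in UF, FLit ((S j).F k) ((H j).VB k) (g.1 k)) ∧
      (¬ (i : ℕ) < 4 → ∀ᶠ k in UF, FLit ((S j).F k) ((H j).VA k) (g.1 k)) := by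
    intro i j
    by_cases h : (i : ℕ) < 4
    · obtain ⟨g, h1, h2⟩ := litB j i h
      exact ⟨g, h1, fun _ => h2, fun h' => absurd h h'⟩
    · obtain ⟨g, h1, h2⟩ := litA j i h
      exact ⟨g, h1, fun h' => absurd h' h, fun _ => h2⟩
  choose r h2 h3 h4 using h1
  have h5 : ∀ (i : Fin 9) (s : Sc) (j : ℕ), ∃ g : TR (S j), QS.mk g = f9 (f j) s i ∧
      ∀ᶠ k in UF, FLit ((S j).F k) ((H j).K s k) (g.1 k) := by
    intro i s j
    obtain ⟨g, h1, h2⟩ := litK j s s.2 i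
    exact ⟨g, h1, h2⟩
  choose c h6 h7 using h5
  exact ⟨⟨S, H, f, bK, bA, bB, r, h2, fun i hi j => h3 i j hi, fun i hi j => h4 i j hi, c, h6, h7⟩, rfl, HEq.rfl,
    HEq.rfl⟩

namespace Inp

variable {Sc : Set ℝ} (I : Inp Sc)

/-- base functions -/
def fn (g : Fin 10 ⊕ (Fin 9 × Sc)) (j : ℕ) : TR (I.S j) := Sum.elim (fun i => I.r10 i j) (fun p => I.r9 p.1 p.2 j) g

/-- base informations: line variable, point variable, labels -/
def xx (g : Bool ⊕ Sc) (j : ℕ) : (I.S j).Inf :=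
  Sum.elim (fun b => bif b then (I.bB.bdd j).toInf else (I.bA.bdd j).toInf)
    (fun s : Sc => ((I.bK s s.2).bdd j).toInf) g

/-- the input of the diagonal, with digits at the real levels `lv` -/
def pd {Λ : Type} (lv : Λ → ℝ) : PD (Fin 10 ⊕ (Fin 9 × Sc)) (Bool ⊕ Sc) Λ where
  S := I.S
  f := I.fn
  x := I.xx
  hx := by
    rintro ((_ | _) | s)
    · exact I.bA
    · exact I.bB
    · exact I.bK s s.2
  lv := lv

end Inp

/-- agreement at the windows `s ≤ s'` -/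
def AgW {S : Sp} (H : RD S) (s s' : ℝ) : Prop :=
  AGr (fun k ω => (H.VA k ω, H.K s k ω)) (fun k ω => (H.VB k ω, H.K s' k ω)) (H.K s)

/-- literal nesting at one index -/
def NsAt {S : Sp} (H : RD S) (s s' : ℝ) (k : ℕ) : Prop :=
  ∀ ω ω', (S.F k).μ ω ≠ 0 → (S.F k).μ ω' ≠ 0 → (S.F k).Z ω ω' → H.K s' k ω = H.K s' k ω' → H.K s k ω = H.K s k ω'

/-- conditions on slow sequences for corners -/
inductive CIx (Sc : Set ℝ)
  | b : Fin 10 → CIx Sc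
  | f : Fin 9 → Sc → CIx Sc
  | ag : Sc → Sc → ℚ → ℚ → ℚ → ℚ → CIx Sc
  | ns : Sc → Sc → CIx Sc

theorem CIx.countable (Sc : Set ℝ) [Countable Sc] : Countable (CIx Sc) := by
  have h1 : Countable (Fin 10 ⊕ (Fin 9 × Sc) ⊕ (Sc × Sc × ℚ × ℚ × ℚ × ℚ) ⊕ (Sc × Sc)) := inferInstance
  refine Function.Injective.countable (β := Fin 10 ⊕ (Fin 9 × Sc) ⊕ (Sc × Sc × ℚ × ℚ × ℚ × ℚ) ⊕ (Sc × Sc))
    (f := fun c => match c with
      | CIx.b i => Sum.inl i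
      | CIx.f i s => Sum.inr (Sum.inl (i, s))
      | CIx.ag s s' p η δ r => Sum.inr (Sum.inr (Sum.inl (s, s', p, η, δ, r)))
      | CIx.ns s s' => Sum.inr (Sum.inr (Sum.inr (s, s')))) ?_
  intro c c' h
  rcases c with _ | _ | _ | _ <;> rcases c' with _ | _ | _ | _ <;> simp at h <;>
    first | (rw [h]) | (obtain ⟨h1, h2⟩ := h; rw [h1, h2]) |
      (obtain ⟨h1, h2, h3, h4, h5, h6⟩ := h; rw [h1, h2, h3, h4, h5, h6])

/-- the conditions -/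
def Inp.cnd {Sc : Set ℝ} (I : Inp Sc) : CIx Sc → ℕ → ℕ → Prop
  | CIx.b i => fun j k => ((i : ℕ) < 4 → FLit ((I.S j).F k) ((I.H j).VB k) ((I.r10 i j).1 k)) ∧
      (¬ (i : ℕ) < 4 → FLit ((I.S j).F k) ((I.H j).VA k) ((I.r10 i j).1 k))
  | CIx.f i s => fun j k => FLit ((I.S j).F k) ((I.H j).K s k) ((I.r9 i s j).1 k)
  | CIx.ag s s' p η δ r => fun j k => AgW (I.H j) s s' → 0 < p → 0 < η → 0 < r → r < δ → δ ≤ 1 →
      AgF ((I.S j).F k) (fun ω => ((I.H j).VA k ω, (I.H j).K s k ω)) (fun ω => ((I.H j).VB k ω, (I.H j).K s' k ω))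
        ((I.H j).K s k) p η δ r
  | CIx.ns s s' => fun j k => (∀ᶠ k' in UF, NsAt (I.H j) s s' k') → NsAt (I.H j) s s' k

theorem Inp.cnd_ev {Sc : Set ℝ} (I : Inp Sc) (c : CIx Sc) (j : ℕ) : ∀ᶠ k in UF, I.cnd c j k := by
  rcases c with i | ⟨i, s⟩ | ⟨s, s', p, η, δ, r⟩ | ⟨s, s'⟩
  · by_cases h : (i : ℕ) < 4
    · filter_upwards [I.r10_litB i h j] with k hk using ⟨fun _ => hk, fun h' => absurd h h'⟩
    · filter_upwards [I.r10_litA i h j] with k hk using ⟨fun h' => absurd h' h, fun _ => hk⟩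
  · exact I.r9_lit i s j
  · by_cases h : AgW (I.H j) s s' ∧ 0 < p ∧ 0 < η ∧ 0 < r ∧ r < δ ∧ δ ≤ 1
    · obtain ⟨h1, h2, h3, h4, h5, h6⟩ := h
      filter_upwards [h1.fin (p := p) (η := η) (δ := δ) (r := r) (by exact_mod_cast h2) (by exact_mod_cast h3)
        (by exact_mod_cast h4) (by exact_mod_cast h5) (by exact_mod_cast h6)] with k hk _ _ _ _ _ _ using hk
    · exact Eventually.of_forall fun k a b c d e f => absurd ⟨a, b, c, d, e, f⟩ h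
  · by_cases h : ∀ᶠ k' in UF, NsAt (I.H j) s s' k'
    · exact h.mono fun k hk _ => hk
    · exact Eventually.of_forall fun k a => absurd a h

/-- slow sequences for the diagonal of corners -/
structure Dg {Sc : Set ℝ} (I : Inp Sc) {Λ : Type} (lv : Λ → ℝ) extends Uni (I.pd lv).di where
  cn : ∀ c, ∀ᶠ k in UF, I.cnd c (J k) k

theorem countable_mvp {σ : Type} [Countable σ] : Countable (MvPolynomial σ ℤ) := by
  have h := MvPolynomial.cardinalMk_le_max (σ := σ) (R := ℤ)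
  rw [← Cardinal.mk_le_aleph0_iff]
  refine h.trans ?_
  simp

/-- existence, with countably many further conditions and finite statements -/
theorem exists_Dg {Sc : Set ℝ} [Countable Sc] (I : Inp Sc) {Λ γ δ : Type} [Countable Λ] [Countable γ] [Countable δ]
    (lv : Λ → ℝ) (E : γ → ℕ → ℕ → Prop) (hE : ∀ i j, ∀ᶠ k in UF, E i j k) (φ : δ → ℕ → ℕ → Prop) :
    ∃ s : Dg I lv, (∀ i, ∀ᶠ k in UF, E i (s.J k) k) ∧
      ∀ i, ∀ᶠ k in UF, (φ i (s.J k) k ↔ ∀ᶠ k' in UF, φ i (s.J k) k') := by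
  have hc : Countable (MvPolynomial (Fin 10 ⊕ (Fin 9 × Sc)) ℤ) := countable_mvp
  have hc' : Countable (CIx Sc) := CIx.countable Sc
  obtain ⟨s, h1, h2⟩ := exists_uni (I.pd lv).di (fun c : γ ⊕ CIx Sc => Sum.elim E I.cnd c) (by
    rintro (c | c) j
    · exact hE c j
    · exact I.cnd_ev c j) φ
  exact ⟨⟨s, fun c => h1 (Sum.inr c)⟩, fun i => h1 (Sum.inl i), h2⟩

namespace Dg

variable {Sc : Set ℝ} {I : Inp Sc} {Λ : Type} {lv : Λ → ℝ} (s : Dg I lv)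

/-- the diagonal space -/
abbrev T : Sp := s.sp

/-- the functions -/
def g10 (i : Fin 10) : QS s.T := QS.mk (bf s.toUni (Sum.inl i))

open Classical in
/-- the frames -/
def g9 (i : Fin 9) (r : ℝ) : QS s.T := if h : r ∈ Sc then QS.mk (bf s.toUni (Sum.inr (i, ⟨r, h⟩))) else 0

/-- the corner of the diagonal -/
def HT : RD s.T where
  t := s.g10 0
  x := s.g10 4
  y := s.g10 1
  R := s.g10 2
  F := s.g10 5
  z := s.g10 3
  v := s.g10 6
  β := fun r k => (I.H (s.J k)).β r k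
  K := fun r k => (I.H (s.J k)).K r k
  α := fun k => (I.H (s.J k)).α k
  VA := fun k => (I.H (s.J k)).VA k
  γ := fun k => (I.H (s.J k)).γ k
  VB := fun k => (I.H (s.J k)).VB k

/-- the frames of the diagonal -/
def fT : FR s.T where
  t0 := s.g9 0
  y0 := s.g9 1
  r0 := s.g9 2
  rt := s.g9 3
  ry := s.g9 4
  z0 := s.g9 5
  k0 := s.g9 6
  k1 := s.g9 7
  c := s.g9 8

/-! ### represented functions -/

theorem rf10 (i : Fin 10) : Rf s.toUni (fun j => b10 (I.H j) i) (s.g10 i) :=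
  (Rf.base s.toUni (Sum.inl i)).congr fun j => I.r10_mk i j

theorem rf9 (i : Fin 9) {r : ℝ} (hr : r ∈ Sc) : Rf s.toUni (fun j => f9 (I.f j) r i) (s.g9 i r) := by
  unfold g9
  rw [dif_pos hr]
  exact (Rf.base s.toUni (Sum.inr (i, ⟨r, hr⟩))).congr fun j => I.r9_mk i ⟨r, hr⟩ j

theorem rt : Rf s.toUni (fun j => (I.H j).t) s.HT.t := s.rf10 0
theorem ry : Rf s.toUni (fun j => (I.H j).y) s.HT.y := s.rf10 1
theorem rR : Rf s.toUni (fun j => (I.H j).R) s.HT.R := s.rf10 2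
theorem rz : Rf s.toUni (fun j => (I.H j).z) s.HT.z := s.rf10 3
theorem rx : Rf s.toUni (fun j => (I.H j).x) s.HT.x := s.rf10 4
theorem rF : Rf s.toUni (fun j => (I.H j).F) s.HT.F := s.rf10 5
theorem rv : Rf s.toUni (fun j => (I.H j).v) s.HT.v := s.rf10 6
theorem ra : Rf s.toUni (fun j => (I.H j).a) s.HT.a := s.ry.sub (s.rt.mul s.rx)
theorem rcR : Rf s.toUni (fun j => (I.H j).cR) s.HT.cR := s.rR.sub (s.rt.mul s.rF)
theorem raz : Rf s.toUni (fun j => (I.H j).az) s.HT.az := s.rz.sub (s.rt.mul s.rv)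

theorem a_eq : s.HT.a = s.g10 7 := s.ra.eq (s.rf10 7) (Eventually.of_forall fun _ => rfl)
theorem cR_eq : s.HT.cR = s.g10 8 := s.rcR.eq (s.rf10 8) (Eventually.of_forall fun _ => rfl)
theorem az_eq : s.HT.az = s.g10 9 := s.raz.eq (s.rf10 9) (Eventually.of_forall fun _ => rfl)

/-! ### represented informations -/

theorem rK {r : ℝ} (hr : r ∈ Sc) : Rp s.toUni (fun j => (I.H j).κ r) (s.HT.κ r) := by
  have h1 := Rp.el (P := I.pd lv) s.toUni (Sum.inr ⟨r, hr⟩)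
  have h2 : Bdd (s.HT.K r) := s.gen_VB (Sum.inl (Sum.inl (Sum.inr ⟨r, hr⟩)))
  have h3 : s.HT.κ r = cl (s.gen (Sum.inl (Sum.inl (Sum.inr ⟨r, hr⟩)))) := io_eq h2
  rw [h3]
  exact h1.congr fun j => (io_eq ((I.bK r hr).bdd j)).symm

theorem bddK {r : ℝ} (hr : r ∈ Sc) : Bdd (s.HT.K r) := s.gen_VB (Sum.inl (Sum.inl (Sum.inr ⟨r, hr⟩)))
theorem bddA : Bdd s.HT.VA := s.gen_VB (Sum.inl (Sum.inl (Sum.inl false)))
theorem bddB : Bdd s.HT.VB := s.gen_VB (Sum.inl (Sum.inl (Sum.inl true)))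

theorem rVA : Rp s.toUni (fun j => io (I.H j).VA) (io s.HT.VA) := by
  rw [io_eq s.bddA]
  exact (Rp.el (P := I.pd lv) s.toUni (Sum.inl false)).congr fun j => (io_eq (I.bA.bdd j)).symm

theorem rVB : Rp s.toUni (fun j => io (I.H j).VB) (io s.HT.VB) := by
  rw [io_eq s.bddB]
  exact (Rp.el (P := I.pd lv) s.toUni (Sum.inl true)).congr fun j => (io_eq (I.bB.bdd j)).symm

theorem rq : Rp s.toUni (fun j => (I.H j).q) s.HT.q := s.rt.dg1.sup s.ry.dg1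
theorem rM : Rp s.toUni (fun j => (I.H j).M) s.HT.M := (s.rt.dg1.sup s.ry.dg1).sup s.rR.dg1
theorem rB : Rp s.toUni (fun j => (I.H j).B) s.HT.B := ((s.rt.dg1.sup s.ry.dg1).sup s.rR.dg1).sup s.rz.dg1
theorem rL : Rp s.toUni (fun j => (I.H j).L) s.HT.L :=
  ((s.rx.dg1.sup s.ra.dg1).sup (s.rF.dg1.sup s.rcR.dg1)).sup (s.rv.dg1.sup s.raz.dg1)

theorem riso (q : ℚ) (hq : (q : ℝ) ≤ 1) : Rp s.toUni (fun j => (I.H j).iso q) (s.HT.iso q) :=
  ((s.rt.dgq q hq).sup (s.ry.dgq q hq)).sup (s.rR.dgq q hq)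

theorem risoL (l : Λ) (hl : lv l ≤ 1) : Rp s.toUni (fun j => (I.H j).iso (lv l)) (s.HT.iso (lv l)) :=
  ((s.rt.dgL l hl).sup (s.ry.dgL l hl)).sup (s.rR.dgL l hl)

/-! ### literalness -/

theorem litK {r : ℝ} (hr : r ∈ Sc) (i : Fin 9) : Lit (s.HT.K r) (f9 s.fT r i) := by
  have h1 : f9 s.fT r i = s.g9 i r := by
    fin_cases i <;> rfl
  rw [h1]
  unfold g9
  rw [dif_pos hr]
  refine ⟨_, rfl, ?_⟩
  filter_upwards [s.cn (CIx.f i ⟨r, hr⟩)] with k hk ω ω' a b c d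
  have h2 := hk ω ω' a b c d
  have h3 := bf_ev s.toUni (Sum.inr (i, (⟨r, hr⟩ : Sc))) k
  show (bf s.toUni (Sum.inr (i, (⟨r, hr⟩ : Sc)))).1 k ω = (bf s.toUni (Sum.inr (i, (⟨r, hr⟩ : Sc)))).1 k ω'
  rw [h3]
  exact h2

theorem litB (i : Fin 10) (hi : (i : ℕ) < 4) : Lit s.HT.VB (s.g10 i) := by
  refine ⟨_, rfl, ?_⟩
  filter_upwards [s.cn (CIx.b i)] with k hk ω ω' a b c d
  have h2 := hk.1 hi ω ω' a b c d
  have h3 := bf_ev s.toUni (Sum.inl i) k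
  show (bf s.toUni (Sum.inl i)).1 k ω = (bf s.toUni (Sum.inl i)).1 k ω'
  rw [h3]
  exact h2

theorem litA (i : Fin 10) (hi : ¬ (i : ℕ) < 4) : Lit s.HT.VA (s.g10 i) := by
  refine ⟨_, rfl, ?_⟩
  filter_upwards [s.cn (CIx.b i)] with k hk ω ω' a b c d
  have h2 := hk.2 hi ω ω' a b c d
  have h3 := bf_ev s.toUni (Sum.inl i) k
  show (bf s.toUni (Sum.inl i)).1 k ω = (bf s.toUni (Sum.inl i)).1 k ω'
  rw [h3]
  exact h2

end Dg

end

end Pool.Agent.Helper80.HCI
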