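import Pool.Agent.Helper60.CS.Zo

/-! Diagonals with universal conditions: all entropies of finite joins of generators, all robust bounds and all
agreements pass to the diagonal. -/

set_option autoImplicit false

namespace Pool.Agent.Helper80.HCI

open Finset Filter Topology Pool.Agent.Helper69.RK Pool.Agent.Helper31.EC Pool.Agent.Helper40.EL
open Pool.Agent.Helper60.CS

noncomputable section

open Sp

variable {κ ι : Type} {D : DI κ ι}

/-- the element of a finite set of generators -/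
def ge (D : DI κ ι) (u : Finset (ι ⊕ (κ × ℚ))) (j : ℕ) : (D.S j).L := u.sup fun g => cl (D.gen g j)

theorem ul_pr_all (S : Sp) : 0 < ul (S.pr fun _ _ => True) := ul_pr_typ_pos _ Typ_true

/-- optimal robust lower bound -/
def bL {S : Sp} (x y : S.L) : ℝ := sSup {b | Slow.RobGe x y b}

theorem robGe_zero {S : Sp} (x y : S.L) : Slow.RobGe x y 0 := fun _ _ _ _ => h_nonneg _ _

theorem bL_bdd {S : Sp} (x y : S.L) : BddAbove {b | Slow.RobGe x y b} :=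
  ⟨_, fun _ hb => hb S (Pj.id S) (fun _ _ => True) (ul_pr_all S)⟩

theorem bL_rob {S : Sp} (x y : S.L) : Slow.RobGe x y (bL x y) := fun T p E hE =>
  csSup_le ⟨0, robGe_zero x y⟩ fun _ hb => hb T p E hE

theorem le_bL {S : Sp} {x y : S.L} {b : ℝ} (h : Slow.RobGe x y b) : b ≤ bL x y := le_csSup (bL_bdd x y) h

/-- optimal robust upper bound -/
def bU {S : Sp} (x y : S.L) : ℝ := sInf {b | Slow.RobLe x y b}

theorem bU_bdd {S : Sp} (x y : S.L) : BddBelow {b | Slow.RobLe x y b} :=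
  ⟨_, fun _ hb => hb S (Pj.id S) (fun _ _ => True) (ul_pr_all S)⟩

theorem bU_rob {S : Sp} {x y : S.L} (h : ∃ b, Slow.RobLe x y b) : Slow.RobLe x y (bU x y) := fun T p E hE =>
  le_csInf h fun _ hb => hb T p E hE

theorem bU_le {S : Sp} {x y : S.L} {b : ℝ} (h : Slow.RobLe x y b) : bU x y ≤ b := csInf_le (bU_bdd x y) h

/-- optimal level of agreement up to `N`, with a small loss -/
def bA {S : Sp} (f g : TR S) (N : ℕ) (j : ℕ) : ℝ := sSup {r : ℝ | r ≤ N ∧ TR.Ag r f g} - 1 / ((j : ℝ) + 1)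

theorem ag_zero {S : Sp} (f g : TR S) : TR.Ag 0 f g := by
  obtain ⟨K, hK, h⟩ := f.2
  obtain ⟨M, hM, h'⟩ := g.2
  refine ⟨fun _ _ => True, fun k => K k + M k, Typ_true, hK.add hM, ?_⟩
  filter_upwards [h, h'] with k h1 h2 ω h3 _
  rw [S.dl_zero, mul_one]
  have e1 : |TR.ev f k ω| ≤ K k := h1 ω h3
  have e2 : |TR.ev g k ω| ≤ M k := h2 ω h3
  exact (abs_sub _ _).trans (add_le_add e1 e2)

theorem bA_ag {S : Sp} (f g : TR S) (N j : ℕ) : TR.Ag (bA f g N j) f g := by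
  have h0 : (0 : ℝ) < 1 / ((j : ℝ) + 1) := by positivity
  obtain ⟨r, ⟨-, h2⟩, h3⟩ := exists_lt_of_lt_csSup (s := {r : ℝ | r ≤ N ∧ TR.Ag r f g})
    ⟨0, by positivity, ag_zero f g⟩ (show bA f g N j < _ by unfold bA; linarith)
  exact h2.anti h3.le

theorem le_bA {S : Sp} {f g : TR S} {r : ℝ} {N : ℕ} (h : TR.Ag r f g) (j : ℕ) :
    min r N - 1 / ((j : ℝ) + 1) ≤ bA f g N j := by
  unfold bA
  have h1 : min r N ≤ sSup {r : ℝ | r ≤ N ∧ TR.Ag r f g} :=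
    le_csSup ⟨N, fun _ h => h.1⟩ ⟨min_le_right _ _, h.anti (min_le_left _ _)⟩
  linarith

/-- a slow sequence for all robust bounds and all agreements -/
structure Uni (D : DI κ ι) extends Slow D where
  rl : ∀ u v i, ∀ᶠ k in UF, Slow.RLc D u v (fun j => bL (ge D u j) (ge D v j)) i (J k) k
  rb : ∀ u v i, ∀ᶠ k in UF, (∃ b, Slow.RobLe (ge D u (J k)) (ge D v (J k)) b) →
    Slow.RBc D u v (fun j => bU (ge D u j) (ge D v j)) i (J k) k
  ag : ∀ a b N, ∀ᶠ k in UF, Slow.AgC D a b (fun j => bA (D.f a j) (D.f b j) N j) (J k) k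

/-- the index set of the conditions -/
abbrev UIx (κ ι : Type) : Type :=
  (Finset (ι ⊕ (κ × ℚ)) × Finset (ι ⊕ (κ × ℚ)) × ℕ) ⊕ (Finset (ι ⊕ (κ × ℚ)) × Finset (ι ⊕ (κ × ℚ)) × ℕ) ⊕
    (κ × κ × ℕ)

/-- the conditions -/
def ucd (D : DI κ ι) : UIx κ ι → ℕ → ℕ → Prop
  | Sum.inl c => Slow.RLc D c.1 c.2.1 (fun j => bL (ge D c.1 j) (ge D c.2.1 j)) c.2.2
  | Sum.inr (Sum.inl c) => fun j k => (∃ b, Slow.RobLe (ge D c.1 j) (ge D c.2.1 j) b) →
    Slow.RBc D c.1 c.2.1 (fun j => bU (ge D c.1 j) (ge D c.2.1 j)) c.2.2 j k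
  | Sum.inr (Sum.inr c) => Slow.AgC D c.1 c.2.1 (fun j => bA (D.f c.1 j) (D.f c.2.1 j) c.2.2 j)

theorem ucd_ev (c : UIx κ ι) (j : ℕ) : ∀ᶠ k in UF, ucd D c j k := by
  rcases c with c | c | c
  · exact Slow.RLc_ev (D := D) (u := c.1) (v := c.2.1) (η := fun j => bL (ge D c.1 j) (ge D c.2.1 j)) (j := j)
      (bL_rob _ _) c.2.2
  · by_cases h : ∃ b, Slow.RobLe (ge D c.1 j) (ge D c.2.1 j) b
    · filter_upwards [Slow.RBc_ev (D := D) (u := c.1) (v := c.2.1) (η := fun j => bU (ge D c.1 j) (ge D c.2.1 j))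
        (j := j) (bU_rob h) c.2.2] with k hk _ using hk
    · exact Eventually.of_forall fun k hk => absurd hk h
  · exact Slow.AgC_ev (bA_ag _ _ _ _)

/-- universal slow sequences exist, with countably many further conditions and finite statements -/
theorem exists_uni {κ ι γ δ : Type} [Countable κ] [Countable ι] [Countable γ] [Countable δ] (D : DI κ ι)
    (E : γ → ℕ → ℕ → Prop) (hE : ∀ i j, ∀ᶠ k in UF, E i j k) (φ : δ → ℕ → ℕ → Prop) :
    ∃ s : Uni D, (∀ i, ∀ᶠ k in UF, E i (s.J k) k) ∧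
      ∀ i, ∀ᶠ k in UF, (φ i (s.J k) k ↔ ∀ᶠ k' in UF, φ i (s.J k) k') := by
  obtain ⟨s, h1, h2⟩ := exists_los D (fun c : γ ⊕ UIx κ ι => Sum.elim E (ucd D) c)
    (by rintro (c | c) j
        · exact hE c j
        · exact ucd_ev c j) φ
  exact ⟨⟨s, fun u v i => h1 (Sum.inr (Sum.inl (u, v, i))), fun u v i => h1 (Sum.inr (Sum.inr (Sum.inl (u, v, i)))),
    fun a b N => h1 (Sum.inr (Sum.inr (Sum.inr (a, b, N))))⟩, fun i => h1 (Sum.inl i), h2⟩

namespace Uni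

variable (s : Uni D)

/-- the element of a finite set of generators -/
def gs (u : Finset (ι ⊕ (κ × ℚ))) : s.sp.L := u.sup fun g => cl (s.gen g)

theorem robGe {u v : Finset (ι ⊕ (κ × ℚ))} {β : ℕ → ℝ} {b : ℝ} (hβ : Tendsto β atTop (𝓝 b))
    (h : ∀ᶠ j in atTop, Slow.RobGe (ge D u j) (ge D v j) (β j)) : Slow.RobGe (s.gs u) (s.gs v) b := by
  refine s.toSlow.robGe hβ fun i => ?_
  filter_upwards [s.rl u v i, s.tend.eventually h] with k h1 h2
  refine RL.mono h1 le_rfl ?_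
  have h3 := le_bL h2
  beta_reduce
  linarith

theorem robLe {u v : Finset (ι ⊕ (κ × ℚ))} {β : ℕ → ℝ} {b : ℝ} (hβ : Tendsto β atTop (𝓝 b))
    (h : ∀ᶠ j in atTop, Slow.RobLe (ge D u j) (ge D v j) (β j)) : Slow.RobLe (s.gs u) (s.gs v) b := by
  refine s.toSlow.robLe hβ fun i => ?_
  filter_upwards [s.rb u v i, s.tend.eventually h] with k h1 h2
  refine RB.mono (h1 ⟨_, h2⟩) le_rfl ?_
  have h3 := bU_le h2
  beta_reduce
  linarith

theorem agr {a b : κ} {r : ℕ → ℝ} {ρ : ℝ} (hr : Tendsto r atTop (𝓝 ρ))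
    (h : ∀ᶠ j in atTop, TR.Ag (r j) (D.f a j) (D.f b j)) : TR.Ag ρ (s.fn a) (s.fn b) := by
  obtain ⟨N, hN⟩ := exists_nat_ge ρ
  have h1 : Tendsto (fun j => min (r j) N - 1 / ((j : ℝ) + 1)) atTop (𝓝 ρ) := by
    have h2 := (hr.min (tendsto_const_nhds (x := (N : ℝ)))).sub tendsto_one_div_add_atTop_nhds_zero_nat
    rw [min_eq_left hN, sub_zero] at h2
    exact h2
  refine s.toSlow.fn_ag h1 ?_
  filter_upwards [s.ag a b N, s.tend.eventually h] with k h2 h3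
  obtain ⟨K, h4, h5, h6⟩ := h2
  refine ⟨K, h4, h5, le_trans ?_ h6⟩
  apply FSp.pb_mono
  intro ω _ h7 h8
  apply h7
  refine h8.trans (mul_le_mul_of_nonneg_left ?_ h4)
  exact (D.S (s.J k)).dl_anti (le_bA h3 _) k

end Uni

/-! ### represented informations -/

/-- `X` is the information of the diagonal of the family `x` -/
def Rp (s : Uni D) (x : ∀ j, (D.S j).L) (X : s.sp.L) : Prop :=
  ∃ u : Finset (ι ⊕ (κ × ℚ)), (∀ j, x j = ge D u j) ∧ X = s.gs u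

namespace Rp

variable {s : Uni D} {x y : ∀ j, (D.S j).L} {X Y : s.sp.L}

theorem sup (hx : Rp s x X) (hy : Rp s y Y) : Rp s (fun j => x j ⊔ y j) (X ⊔ Y) := by
  classical
  obtain ⟨u, h1, rfl⟩ := hx
  obtain ⟨v, h2, rfl⟩ := hy
  refine ⟨u ∪ v, fun j => ?_, ?_⟩
  · beta_reduce
    rw [h1, h2]
    exact Finset.sup_union.symm
  · exact Finset.sup_union.symm

theorem bot (s : Uni D) : Rp s (fun _ => ⊥) ⊥ := ⟨∅, fun _ => rfl, rfl⟩

theorem gen (s : Uni D) (g : ι ⊕ (κ × ℚ)) : Rp s (fun j => cl (D.gen g j)) (cl (s.gen g)) := by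
  refine ⟨{g}, fun j => ?_, ?_⟩
  · unfold ge
    rw [Finset.sup_singleton]
  · unfold Uni.gs
    rw [Finset.sup_singleton]

theorem congr (hx : Rp s x X) (h : ∀ j, x j = y j) : Rp s y X := by
  obtain ⟨u, h1, rfl⟩ := hx
  exact ⟨u, fun j => (h j).symm.trans (h1 j), rfl⟩

theorem fsup {β : Type} (t : Finset β) {x : β → ∀ j, (D.S j).L} {X : β → s.sp.L} (h : ∀ i ∈ t, Rp s (x i) (X i)) :
    Rp s (fun j => t.sup fun i => x i j) (t.sup X) := by
  classical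
  induction t using Finset.induction_on with
  | empty => exact bot s
  | insert a t ha ih =>
    rw [Finset.sup_insert]
    refine ((h a (Finset.mem_insert_self a t)).sup (ih fun i hi => h i (Finset.mem_insert_of_mem hi))).congr
      fun j => ?_
    rw [Finset.sup_insert]

theorem tend_H (hx : Rp s x X) : Tendsto (fun k => H (x (s.J k))) UF (𝓝 (H X)) := by
  obtain ⟨u, h1, rfl⟩ := hx
  exact (s.H_gen u).congr fun k => by rw [h1]; rfl

theorem tend_h (hx : Rp s x X) (hy : Rp s y Y) :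
    Tendsto (fun k => Pool.Agent.Helper31.EC.h (x (s.J k)) (y (s.J k))) UF (𝓝 (Pool.Agent.Helper31.EC.h X Y)) := by
  unfold Pool.Agent.Helper31.EC.h
  exact (hx.sup hy).tend_H.sub hy.tend_H

theorem tend_I {z : ∀ j, (D.S j).L} {Z : s.sp.L} (hx : Rp s x X) (hy : Rp s y Y) (hz : Rp s z Z) :
    Tendsto (fun k => Pool.Agent.Helper31.EC.I (x (s.J k)) (y (s.J k)) (z (s.J k))) UF
      (𝓝 (Pool.Agent.Helper31.EC.I X Y Z)) := by
  unfold Pool.Agent.Helper31.EC.I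
  exact (((hx.sup hz).tend_H.add (hy.sup hz).tend_H).sub ((hx.sup hy).sup hz).tend_H).sub hz.tend_H

theorem h_le (hx : Rp s x X) (hy : Rp s y Y) {β : ℕ → ℝ} {b : ℝ} (hβ : Tendsto β atTop (𝓝 b))
    (h : ∀ᶠ j in atTop, Pool.Agent.Helper31.EC.h (x j) (y j) ≤ β j) : Pool.Agent.Helper31.EC.h X Y ≤ b :=
  le_of_tendsto_of_tendsto (hx.tend_h hy) (hβ.comp s.tend) (s.tend.eventually h)

theorem le_h (hx : Rp s x X) (hy : Rp s y Y) {β : ℕ → ℝ} {b : ℝ} (hβ : Tendsto β atTop (𝓝 b))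
    (h : ∀ᶠ j in atTop, β j ≤ Pool.Agent.Helper31.EC.h (x j) (y j)) : b ≤ Pool.Agent.Helper31.EC.h X Y :=
  le_of_tendsto_of_tendsto (hβ.comp s.tend) (hx.tend_h hy) (s.tend.eventually h)

theorem le (hx : Rp s x X) (hy : Rp s y Y) {β : ℕ → ℝ} (hβ : Tendsto β atTop (𝓝 0))
    (h : ∀ᶠ j in atTop, Pool.Agent.Helper31.EC.h (x j) (y j) ≤ β j) : X ≤ Y :=
  h_eq_zero_iff.mp (_root_.le_antisymm (hx.h_le hy hβ h) (h_nonneg _ _))

theorem I_le {z : ∀ j, (D.S j).L} {Z : s.sp.L} (hx : Rp s x X) (hy : Rp s y Y) (hz : Rp s z Z) {β : ℕ → ℝ} {b : ℝ}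
    (hβ : Tendsto β atTop (𝓝 b)) (h : ∀ᶠ j in atTop, Pool.Agent.Helper31.EC.I (x j) (y j) (z j) ≤ β j) :
    Pool.Agent.Helper31.EC.I X Y Z ≤ b :=
  le_of_tendsto_of_tendsto (hx.tend_I hy hz) (hβ.comp s.tend) (s.tend.eventually h)

theorem I_zero {z : ∀ j, (D.S j).L} {Z : s.sp.L} (hx : Rp s x X) (hy : Rp s y Y) (hz : Rp s z Z) {β : ℕ → ℝ}
    (hβ : Tendsto β atTop (𝓝 0)) (h : ∀ᶠ j in atTop, Pool.Agent.Helper31.EC.I (x j) (y j) (z j) ≤ β j) :
    Pool.Agent.Helper31.EC.I X Y Z = 0 :=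
  _root_.le_antisymm (hx.I_le hy hz hβ h) (I_nonneg _ _ _)

theorem robGe (hx : Rp s x X) (hy : Rp s y Y) {β : ℕ → ℝ} {b : ℝ} (hβ : Tendsto β atTop (𝓝 b))
    (h : ∀ᶠ j in atTop, Slow.RobGe (x j) (y j) (β j)) : Slow.RobGe X Y b := by
  obtain ⟨u, h1, rfl⟩ := hx
  obtain ⟨v, h2, rfl⟩ := hy
  refine s.robGe hβ ?_
  filter_upwards [h] with j hj
  rw [← h1, ← h2]
  exact hj

theorem robLe (hx : Rp s x X) (hy : Rp s y Y) {β : ℕ → ℝ} {b : ℝ} (hβ : Tendsto β atTop (𝓝 b))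
    (h : ∀ᶠ j in atTop, Slow.RobLe (x j) (y j) (β j)) : Slow.RobLe X Y b := by
  obtain ⟨u, h1, rfl⟩ := hx
  obtain ⟨v, h2, rfl⟩ := hy
  refine s.robLe hβ ?_
  filter_upwards [h] with j hj
  rw [← h1, ← h2]
  exact hj

end Rp

end

end Pool.Agent.Helper80.HCI
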