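import Pool.Agent.Helper80.HCI.Agr

/-! Finite extensions; statements about extensions and their passage between the spaces of a sequence and the
diagonal, in both directions. -/

set_option autoImplicit false

namespace Pool.Agent.Helper80.HCI

open Finset Filter Topology Pool.Agent.Helper69.RK Pool.Agent.Helper31.EC Pool.Agent.Helper40.EL
open Pool.Agent.Helper60.CS

noncomputable section

open Sp

/-- extensions of a finite space with the same depth -/
structure FEx (F : FSp) where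
  G : FSp
  p : FPj G F
  hn : G.n = F.n

/-- the finite extension at one index -/
def exAt {W S : Sp} (p : Pj W S) (k : ℕ) : FEx (S.F k) := ⟨W.F k, p.fp k, p.hn k⟩

/-- the space of a family of finite extensions -/
def exSp (S : Sp) (X : ∀ k, FEx (S.F k)) : Sp := ⟨fun k => (X k).G, by
  have h : (fun k => (X k).G.n) = fun k => (S.F k).n := funext fun k => (X k).hn
  rw [h]
  exact S.lim⟩

/-- its projection -/
def exPj (S : Sp) (X : ∀ k, FEx (S.F k)) : Pj (exSp S X) S :=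
  ⟨fun k => (X k).p.π, fun k => (X k).p.law, fun k => (X k).p.hZ, fun k => (X k).hn⟩

theorem exAt_exPj (S : Sp) (X : ∀ k, FEx (S.F k)) (k : ℕ) : exAt (exPj S X) k = X k := rfl

/-- choice of an extension -/
theorem exists_ext {S : Sp} {Q : ∀ k, FEx (S.F k) → Prop} (h : ∀ᶠ k in UF, ∃ X, Q k X) :
    ∃ (W : Sp) (p : Pj W S), ∀ᶠ k in UF, Q k (exAt p k) := by
  classical
  refine ⟨exSp S fun k => if h : ∃ X, Q k X then h.choose else exAt (Pj.id S) k, exPj S _, ?_⟩
  filter_upwards [h] with k hk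
  rw [exAt_exPj, dif_pos hk]
  exact hk.choose_spec

variable {κ ι : Type} {D : DI κ ι}

/-- the finite statement of a statement about extensions -/
def exQ (Q : ∀ j k, FEx ((D.S j).F k) → Prop) (j k : ℕ) : Prop := ∃ X, Q j k X

/-- BACK: an extension of the diagonal gives extensions of spaces of the sequence with large index -/
theorem ext_back {s : Slow D} {Q : ∀ j k, FEx ((D.S j).F k) → Prop}
    (hl : ∀ᶠ k in UF, (exQ Q (s.J k) k ↔ ∀ᶠ k' in UF, exQ Q (s.J k) k')) {W : Sp} (p : Pj W s.sp)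
    (h : ∀ᶠ k in UF, Q (s.J k) k (exAt p k)) (N : ℕ) :
    ∃ j, N ≤ j ∧ ∃ (W : Sp) (p : Pj W (D.S j)), ∀ᶠ k in UF, Q j k (exAt p k) := by
  obtain ⟨j, h1, h2⟩ := los_back s.tend hl (h.mono fun k hk => ⟨_, hk⟩) N
  exact ⟨j, h1, exists_ext h2⟩

/-- BACK, for a condition on the index -/
theorem ext_backP {s : Slow D} {Q : ∀ j k, FEx ((D.S j).F k) → Prop}
    (hl : ∀ᶠ k in UF, (exQ Q (s.J k) k ↔ ∀ᶠ k' in UF, exQ Q (s.J k) k')) {P : ℕ → Prop} (hP : ∀ᶠ j in atTop, P j)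
    {W : Sp} (p : Pj W s.sp) (h : ∀ᶠ k in UF, Q (s.J k) k (exAt p k)) :
    ∃ j, P j ∧ ∃ (W : Sp) (p : Pj W (D.S j)), ∀ᶠ k in UF, Q j k (exAt p k) := by
  obtain ⟨N, hN⟩ := eventually_atTop.mp hP
  obtain ⟨j, h1, h2⟩ := ext_back hl p h N
  exact ⟨j, hN j h1, h2⟩

/-- FORWARD: no extensions -/
theorem ext_fwd {s : Slow D} {Q : ∀ j k, FEx ((D.S j).F k) → Prop}
    (hl : ∀ᶠ k in UF, (exQ Q (s.J k) k ↔ ∀ᶠ k' in UF, exQ Q (s.J k) k'))
    (h : ∀ᶠ j in atTop, ∀ (W : Sp) (p : Pj W (D.S j)), ¬ ∀ᶠ k in UF, Q j k (exAt p k)) {W : Sp} (p : Pj W s.sp) :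
    ¬ ∀ᶠ k in UF, Q (s.J k) k (exAt p k) := by
  intro h1
  obtain ⟨j, h2, W', p', h3⟩ := ext_backP hl h p h1
  exact h2 W' p' h3

end

end Pool.Agent.Helper80.HCI
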