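import Pool.Agent.Helper80.HCI.Fzh
import Pool.Agent.Helper98.FR.Win

/-! The relations `ZRel` between the functions of the corner of a box and the box coordinates of a finer window. -/

set_option autoImplicit false

namespace Pool.Agent.Helper80.HCI

open Finset Filter Topology Pool.Agent.Helper69.RK Pool.Agent.Helper31.EC Pool.Agent.Helper40.EL
open Pool.Agent.Helper60.CS Pool.Agent.Helper82.TP Pool.Agent.Helper79.NF Pool.Agent.Helper31.NSB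
open Pool.Agent.Helper98.FR

noncomputable section

open Sp QS

section box

variable {S : Sp} {B : BD S}

/-- the slab is always controlled -/
theorem ok0 {i0 i : ℕ} {b : ℝ} (hd : B.Dn i0 b) (h : B.q i0 ≤ B.q i) (hb : B.q i ≤ b) :
    B.Ok i0 i b (B.eta i0 - 1 + B.lam i0) 1 where
  dn := hd
  h := h
  hb := hb
  hδ := one_pos
  he := by
    have := B.lam1 i0
    linarith
  hE := fun j j' h1 h2 _ _ => by
    have h3 := B.seta i0 j h1
    have h4 := B.lam1 j'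
    linarith

variable {i0 i : ℕ} {e e1 b : ℝ} {he : 0 < e} {he1 : 0 < e1}

/-- `t` in the box of the finer window -/
theorem t_id (h : B.q i0 ≤ B.q i) : Typ (S := S) fun k ω => (B.tT i0 e he).1 k ω =
    (B.tcT i0 e he h).1 k ω + S.dl (B.q i - B.q i0) k * (B.tT i e1 he1).1 k ω := by
  refine (((nf_typ (hr := B.q1 i0) (hf := B.T_mem i0) (Z := B.V i0) (e := e) (he := he)).and
    (nf_typ (hr := B.q1 i0) (hf := B.tc_mem i0 h) (Z := B.V i0) (e := e) (he := he))).and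
    (nf_typ (hr := B.q1 i) (hf := B.T_mem i) (Z := B.V i) (e := e1) (he := he1))).mono
    (Eventually.of_forall fun k ω _ hh => ?_)
  have h1 : B.t.1 k ω - (B.tc i0).1 k ω = S.dl (B.q i0) k * (B.tT i0 e he).1 k ω := hh.1.1
  have h2 : (B.tc i).1 k ω - (B.tc i0).1 k ω = S.dl (B.q i0) k * (B.tcT i0 e he h).1 k ω := hh.1.2
  have h3 : B.t.1 k ω - (B.tc i).1 k ω = S.dl (B.q i) k * (B.tT i e1 he1).1 k ω := hh.2
  have h4 : S.dl (B.q i) k = S.dl (B.q i0) k * S.dl (B.q i - B.q i0) k := by rw [← dl_add]; congr 1; ring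
  rw [h4] at h3
  apply mul_left_cancel₀ (S.dl_pos (B.q i0) k).ne'
  rw [← h1, mul_add, ← h2, ← mul_assoc, ← h3]
  ring

/-- `y` in the box of the finer window -/
theorem y_id (h : B.q i0 ≤ B.q i) : Typ (S := S) fun k ω => (B.yT i0 e he).1 k ω =
    (B.ycT i0 e he h).1 k ω + S.dl (B.q i - B.q i0) k * (B.yT i e1 he1).1 k ω := by
  refine (((nf_typ (hr := B.q1 i0) (hf := B.Y_mem i0) (Z := B.V i0) (e := e) (he := he)).and
    (nf_typ (hr := B.q1 i0) (hf := B.yc_mem i0 h) (Z := B.V i0) (e := e) (he := he))).and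
    (nf_typ (hr := B.q1 i) (hf := B.Y_mem i) (Z := B.V i) (e := e1) (he := he1))).mono
    (Eventually.of_forall fun k ω _ hh => ?_)
  have h1 : B.y.1 k ω - (B.yc i0).1 k ω = S.dl (B.q i0) k * (B.yT i0 e he).1 k ω := hh.1.1
  have h2 : (B.yc i).1 k ω - (B.yc i0).1 k ω = S.dl (B.q i0) k * (B.ycT i0 e he h).1 k ω := hh.1.2
  have h3 : B.y.1 k ω - (B.yc i).1 k ω = S.dl (B.q i) k * (B.yT i e1 he1).1 k ω := hh.2
  have h4 : S.dl (B.q i) k = S.dl (B.q i0) k * S.dl (B.q i - B.q i0) k := by rw [← dl_add]; congr 1; ring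
  rw [h4] at h3
  apply mul_left_cancel₀ (S.dl_pos (B.q i0) k).ne'
  rw [← h1, mul_add, ← h2, ← mul_assoc, ← h3]
  ring

/-- `R` in the box of the finer window -/
theorem R_id {ηm δ : ℝ} (ok : B.Ok i0 i b ηm δ) : Typ (S := S) fun k ω => (B.RT i0 e he).1 k ω =
    (B.rT i0 e he ok 0).1 k ω + (B.rT i0 e he ok 1).1 k ω * (B.tT i0 e he).1 k ω +
      (B.rT i0 e he ok 2).1 k ω * (B.yT i0 e he).1 k ω + S.dl (B.lam i - B.lam i0) k * (B.RT i e1 he1).1 k ω := by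
  refine ((((((nf_typ (hr := B.lam1 i0) (hf := B.Rr_mem i0) (Z := B.V i0) (e := e) (he := he)).and
    (nf_typ (hr := B.ρl_le i0 0) (hf := ok.ρ_mem 0) (Z := B.V i0) (e := e) (he := he))).and
    (nf_typ (hr := B.ρl_le i0 1) (hf := ok.ρ_mem 1) (Z := B.V i0) (e := e) (he := he))).and
    (nf_typ (hr := B.ρl_le i0 2) (hf := ok.ρ_mem 2) (Z := B.V i0) (e := e) (he := he))).and
    ((nf_typ (hr := B.q1 i0) (hf := B.T_mem i0) (Z := B.V i0) (e := e) (he := he)).and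
    (nf_typ (hr := B.q1 i0) (hf := B.Y_mem i0) (Z := B.V i0) (e := e) (he := he)))).and
    (nf_typ (hr := B.lam1 i) (hf := B.Rr_mem i) (Z := B.V i) (e := e1) (he := he1))).mono
    (Eventually.of_forall fun k ω _ h => ?_)
  obtain ⟨⟨⟨⟨⟨h1, h2⟩, h3⟩, h4⟩, h5, h6⟩, h7⟩ := h
  have e0 := congrFun (congrFun (congrArg Subtype.val (B.Rr_eq i0 i)) k) ω
  have e0' : (B.Rr i0).1 k ω = (B.Rr i).1 k ω + ((B.ρ i0 i 0).1 k ω + (B.ρ i0 i 1).1 k ω * (B.t - B.tc i0).1 k ω +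
    (B.ρ i0 i 2).1 k ω * (B.y - B.yc i0).1 k ω) := e0
  rw [h1, h2, h3, h4, h5, h6, h7] at e0'
  have l0 : S.dl (B.ρl i0 0) k = S.dl (B.lam i0) k := rfl
  have l1 : S.dl (B.ρl i0 1) k * S.dl (B.q i0) k = S.dl (B.lam i0) k := by
    rw [← dl_add]
    congr 1
    show (if (1 : Fin 3) = 0 then _ else _) + _ = _
    rw [if_neg (by decide)]
    ring
  have l2 : S.dl (B.ρl i0 2) k * S.dl (B.q i0) k = S.dl (B.lam i0) k := by
    rw [← dl_add]
    congr 1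
    show (if (2 : Fin 3) = 0 then _ else _) + _ = _
    rw [if_neg (by decide)]
    ring
  have l3 : S.dl (B.lam i) k = S.dl (B.lam i0) k * S.dl (B.lam i - B.lam i0) k := by rw [← dl_add]; congr 1; ring
  rw [l0, l3] at e0'
  have x1 : S.dl (B.lam i0) k * (B.RT i0 e he).1 k ω = S.dl (B.lam i0) k * S.dl (B.lam i - B.lam i0) k *
      (B.RT i e1 he1).1 k ω + (S.dl (B.lam i0) k * (B.rT i0 e he ok 0).1 k ω +
    S.dl (B.ρl i0 1) k * (B.rT i0 e he ok 1).1 k ω * (S.dl (B.q i0) k * (B.tT i0 e he).1 k ω) +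
    S.dl (B.ρl i0 2) k * (B.rT i0 e he ok 2).1 k ω * (S.dl (B.q i0) k * (B.yT i0 e he).1 k ω)) := e0'
  have e2 : S.dl (B.ρl i0 1) k * (B.rT i0 e he ok 1).1 k ω * (S.dl (B.q i0) k * (B.tT i0 e he).1 k ω) =
      S.dl (B.lam i0) k * ((B.rT i0 e he ok 1).1 k ω * (B.tT i0 e he).1 k ω) := by rw [← l1]; ring
  have e3 : S.dl (B.ρl i0 2) k * (B.rT i0 e he ok 2).1 k ω * (S.dl (B.q i0) k * (B.yT i0 e he).1 k ω) =
      S.dl (B.lam i0) k * ((B.rT i0 e he ok 2).1 k ω * (B.yT i0 e he).1 k ω) := by rw [← l2]; ring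
  rw [e2, e3] at x1
  apply mul_left_cancel₀ (S.dl_pos (B.lam i0) k).ne'
  rw [x1]
  ring

/-- `z` in the box of the finer window, untilted frame -/
theorem z_id (hd : B.Dn i0 b) (h : B.q i0 ≤ B.q i) (hb : B.q i ≤ b) {ηn : ℝ} (hη : ηn ≤ B.eta i0) :
    Typ (S := S) fun k ω => (B.zT i0 e he ηn hη).1 k ω =
      (B.uT i0 e he hd h hb ηn hη 0).1 k ω + (B.uT i0 e he hd h hb ηn hη 1).1 k ω * (B.tT i0 e he).1 k ω +
        (B.uT i0 e he hd h hb ηn hη 2).1 k ω * (B.yT i0 e he).1 k ω +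
        ((B.ζ i0 i 3).1 k ω * S.dl (B.lam i - ηn) k * (B.RT i e1 he1).1 k ω +
          S.dl (B.eta i - ηn) k * (B.zT i e1 he1 (B.eta i) le_rfl).1 k ω) := by
  refine ((((nf_typ (hr := hη.trans (B.eta1 i0)) (hf := Id_anti hη (B.Zr_mem i0)) (Z := B.V i0) (e := e)
    (he := he)).and
    (nf_typ (hr := B.υl_le hη 0) (hf := B.υ_mem hd h hb hη 0) (Z := B.V i0) (e := e) (he := he))).and
    ((nf_typ (hr := B.υl_le hη 1) (hf := B.υ_mem hd h hb hη 1) (Z := B.V i0) (e := e) (he := he)).and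
    (nf_typ (hr := B.υl_le hη 2) (hf := B.υ_mem hd h hb hη 2) (Z := B.V i0) (e := e) (he := he)))).and
    (((nf_typ (hr := B.q1 i0) (hf := B.T_mem i0) (Z := B.V i0) (e := e) (he := he)).and
    (nf_typ (hr := B.q1 i0) (hf := B.Y_mem i0) (Z := B.V i0) (e := e) (he := he))).and
    ((nf_typ (hr := B.lam1 i) (hf := B.Rr_mem i) (Z := B.V i) (e := e1) (he := he1)).and
    (nf_typ (hr := B.eta1 i) (hf := B.Zr_mem i) (Z := B.V i) (e := e1) (he := he1))))).mono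
    (Eventually.of_forall fun k ω _ hh => ?_)
  obtain ⟨⟨⟨g1, g2⟩, g3, g4⟩, ⟨g6, g7⟩, g8, g9⟩ := hh
  have g9' : (B.Zr i).1 k ω = S.dl (B.eta i) k * (B.zT i e1 he1 (B.eta i) le_rfl).1 k ω := g9
  have g8' : (B.Rr i).1 k ω = S.dl (B.lam i) k * (B.RT i e1 he1).1 k ω := g8
  have e0 := congrFun (congrFun (congrArg Subtype.val (B.Zr_eq' i0 i)) k) ω
  have e0' : (B.Zr i0).1 k ω = ((B.Zr i).1 k ω + (B.ζ i0 i 3).1 k ω * (B.Rr i).1 k ω) + ((B.υ i0 i 0).1 k ω +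
    (B.υ i0 i 1).1 k ω * (B.t - B.tc i0).1 k ω + (B.υ i0 i 2).1 k ω * (B.y - B.yc i0).1 k ω) := e0
  rw [g1, g2, g3, g4, g6, g7, g8', g9'] at e0'
  have l0 : S.dl (B.υl i0 ηn 0) k = S.dl ηn k := rfl
  have l1 : S.dl (B.υl i0 ηn 1) k * S.dl (B.q i0) k = S.dl ηn k := by
    rw [← dl_add]
    congr 1
    show (if (1 : Fin 3) = 0 then _ else _) + _ = _
    rw [if_neg (by decide)]
    ring
  have l2 : S.dl (B.υl i0 ηn 2) k * S.dl (B.q i0) k = S.dl ηn k := by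
    rw [← dl_add]
    congr 1
    show (if (2 : Fin 3) = 0 then _ else _) + _ = _
    rw [if_neg (by decide)]
    ring
  have l3 : S.dl (B.lam i) k = S.dl ηn k * S.dl (B.lam i - ηn) k := by rw [← dl_add]; congr 1; ring
  have l4 : S.dl (B.eta i) k = S.dl ηn k * S.dl (B.eta i - ηn) k := by rw [← dl_add]; congr 1; ring
  rw [l0, l3, l4] at e0'
  obtain ⟨u0, hu0⟩ : ∃ u, u = (B.uT i0 e he hd h hb ηn hη 0).1 k ω := ⟨_, rfl⟩
  obtain ⟨u1, hu1⟩ : ∃ u, u = (B.uT i0 e he hd h hb ηn hη 1).1 k ω := ⟨_, rfl⟩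
  obtain ⟨u2, hu2⟩ : ∃ u, u = (B.uT i0 e he hd h hb ηn hη 2).1 k ω := ⟨_, rfl⟩
  have x1 : S.dl ηn k * (B.zT i0 e he ηn hη).1 k ω = (S.dl ηn k * S.dl (B.eta i - ηn) k *
      (B.zT i e1 he1 (B.eta i) le_rfl).1 k ω + (B.ζ i0 i 3).1 k ω * (S.dl ηn k * S.dl (B.lam i - ηn) k *
      (B.RT i e1 he1).1 k ω)) + (S.dl ηn k * u0 +
    S.dl (B.υl i0 ηn 1) k * u1 * (S.dl (B.q i0) k * (B.tT i0 e he).1 k ω) +
    S.dl (B.υl i0 ηn 2) k * u2 * (S.dl (B.q i0) k * (B.yT i0 e he).1 k ω)) := by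
    rw [hu0, hu1, hu2]
    exact e0'
  have e2 : S.dl (B.υl i0 ηn 1) k * u1 * (S.dl (B.q i0) k * (B.tT i0 e he).1 k ω) =
      S.dl ηn k * (u1 * (B.tT i0 e he).1 k ω) := by rw [← l1]; ring
  have e3 : S.dl (B.υl i0 ηn 2) k * u2 * (S.dl (B.q i0) k * (B.yT i0 e he).1 k ω) =
      S.dl ηn k * (u2 * (B.yT i0 e he).1 k ω) := by rw [← l2]; ring
  rw [e2, e3] at x1
  rw [← hu0, ← hu1, ← hu2]
  apply mul_left_cancel₀ (S.dl_pos ηn k).ne'
  rw [x1]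
  ring

theorem flr_near {T : Sp} {m : ℕ} (y : T.VV m) (j : Fin m) (k : ℕ) (ω : (T.F k).Ω) :
    |(flr y j).1 k ω - y.v k ω j| ≤ T.dl 1 k := by
  have hd := T.dl_pos 1 k
  have e1 : (flr y j).1 k ω = (⌊y.v k ω j / T.dl 1 k⌋ : ℝ) * T.dl 1 k := rfl
  have h1 := Int.floor_le (y.v k ω j / T.dl 1 k)
  have h2 := Int.lt_floor_add_one (y.v k ω j / T.dl 1 k)
  rw [le_div_iff₀ hd] at h1
  rw [div_lt_iff₀ hd] at h2
  rw [e1, abs_le]
  constructor <;> linarith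

/-- an identity between functions, for approximations of the functions -/
theorem near_id {t y R t' y' R' c2 c3 c4 P d C : ℝ} (hC : 0 ≤ C) (hd : 0 ≤ d) (h : R = c2 + c3 * t + c4 * y + P)
    (ht : |t' - t| ≤ d) (hy : |y' - y| ≤ d) (hR : |R' - R| ≤ d) (h3 : |c3| ≤ C) (h4 : |c4| ≤ C) :
    |R' - (c2 + c3 * t' + c4 * y' + P)| ≤ (2 * C + 3) * d := by
  have e1 : R' - (c2 + c3 * t' + c4 * y' + P) = (R' - R) - c3 * (t' - t) - c4 * (y' - y) := by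
    rw [h]
    ring
  have b1 : |c3 * (t' - t)| ≤ C * d := by
    rw [abs_mul]; exact mul_le_mul h3 ht (abs_nonneg _) hC
  have b2 : |c4 * (y' - y)| ≤ C * d := by
    rw [abs_mul]; exact mul_le_mul h4 hy (abs_nonneg _) hC
  rw [e1]
  rw [abs_le] at b1 b2 hR ⊢
  constructor <;> linarith [b1.1, b1.2, b2.1, b2.2, hR.1, hR.2]

variable (D : LD B)

/-- coefficients of the frames -/
def fc8 (i0 i : ℕ) (e : ℝ) (he : 0 < e) {b : ℝ} (hd : B.Dn i0 b) (h : B.q i0 ≤ B.q i) (hb : B.q i ≤ b) (ηn : ℝ)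
    (hη : ηn ≤ B.eta i0) (j : Fin 8) : TR (B.Sj i0 e he) :=
  (![B.tcT i0 e he h, B.ycT i0 e he h, B.rT i0 e he (ok0 hd h hb) 0, B.rT i0 e he (ok0 hd h hb) 1,
    B.rT i0 e he (ok0 hd h hb) 2, B.uT i0 e he hd h hb ηn hη 0, B.uT i0 e he hd h hb ηn hη 1,
    B.uT i0 e he hd h hb ηn hη 2] : Fin 8 → TR (B.Sj i0 e he)) j

theorem fc8_lit (hd : B.Dn i0 b) (h : B.q i0 ≤ B.q i) (hb : B.q i ≤ b) {ηn : ℝ} (hη : ηn ≤ B.eta i0) (j : Fin 8) :
    ∀ᶠ k in UF, ∀ ω ω', (S.F k).μ ω ≠ 0 → (S.F k).μ ω' ≠ 0 → B.V i k ω ω' → (S.F k).Z ω ω' →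
      (fc8 i0 i e he hd h hb ηn hη j).1 k ω = (fc8 i0 i e he hd h hb ηn hη j).1 k ω' := by
  fin_cases j
  · exact B.tcT_lt h
  · exact B.ycT_lt h
  · exact B.rT_lt (ok0 hd h hb) 0
  · exact B.rT_lt (ok0 hd h hb) 1
  · exact B.rT_lt (ok0 hd h hb) 2
  · exact B.uT_lt hd h hb ηn hη 0
  · exact B.uT_lt hd h hb ηn hη 1
  · exact B.uT_lt hd h hb ηn hη 2

/-- coefficients of the box coordinates -/
def fa4 (B : BD S) (i0 i : ℕ) (ηn : ℝ) (j : Fin 4) : ∀ k, (S.F k).Ω → ℝ :=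
  (![fun k _ => S.dl (B.lam i - B.lam i0) k, fun _ _ => 0, fun k ω => (B.ζ i0 i 3).1 k ω * S.dl (B.lam i - ηn) k,
    fun k _ => S.dl (B.eta i - ηn) k] : Fin 4 → ∀ k, (S.F k).Ω → ℝ) j

theorem fa4_lit (h : B.q i0 ≤ B.q i) {ηn : ℝ} (j : Fin 4) :
    ∀ᶠ k in UF, ∀ ω ω', (S.F k).μ ω ≠ 0 → (S.F k).μ ω' ≠ 0 → B.V i k ω ω' → (S.F k).Z ω ω' →
      fa4 B i0 i ηn j k ω = fa4 B i0 i ηn j k ω' := by
  fin_cases j
  · exact Eventually.of_forall fun k ω ω' _ _ _ _ => rfl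
  · exact Eventually.of_forall fun k ω ω' _ _ _ _ => rfl
  · filter_upwards [B.ζ_lt i0 i h 3] with k hk ω ω' x1 x2 x3 x4
    show (B.ζ i0 i 3).1 k ω * _ = (B.ζ i0 i 3).1 k ω' * _
    rw [hk ω ω' x1 x2 x3 x4]
  · exact Eventually.of_forall fun k ω ω' _ _ _ _ => rfl

/-- all relations on one typical event -/
theorem exists_rel (hd : B.Dn i0 b) (h : B.q i0 ≤ B.q i) (hb : B.q i ≤ b) {ηn : ℝ} (hη : ηn ≤ B.eta i0) {σ : ℝ}
    (hq : B.q i = B.q i0 + e * σ) : ∃ (A : ∀ k, (S.F k).Ω → Prop) (K : ℕ → ℝ), Typ (S := S) A ∧ S.Sub K ∧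
    (∀ k, 2 ≤ K k) ∧
    (∀ᶠ k in UF, ∀ ω, (S.F k).μ ω ≠ 0 → A k ω → ∀ j, |(fc8 i0 i e he hd h hb ηn hη j).1 k ω| ≤ K k) ∧
    (∀ᶠ k in UF, ∀ ω, (S.F k).μ ω ≠ 0 → A k ω → |(D.r10 i0 e he ηn hη 2).1 k ω| ≤ K k) ∧
    (∀ᶠ k in UF, ∀ ω, (S.F k).μ ω ≠ 0 → A k ω → |(D.r10 i0 e he ηn hη 3).1 k ω| ≤ K k) ∧
    (∀ᶠ k in UF, ∀ ω, (S.F k).μ ω ≠ 0 → A k ω → |(D.r10 i0 e he ηn hη 0).1 k ω -
      ((fc8 i0 i e he hd h hb ηn hη 0).1 k ω + S.dl (e * σ) k * (B.tT i e1 he1).1 k ω)| ≤ K k * S.dl e k) ∧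
    (∀ᶠ k in UF, ∀ ω, (S.F k).μ ω ≠ 0 → A k ω → |(D.r10 i0 e he ηn hη 1).1 k ω -
      ((fc8 i0 i e he hd h hb ηn hη 1).1 k ω + S.dl (e * σ) k * (B.yT i e1 he1).1 k ω)| ≤ K k * S.dl e k) ∧
    (∀ᶠ k in UF, ∀ ω, (S.F k).μ ω ≠ 0 → A k ω → |(D.r10 i0 e he ηn hη 2).1 k ω -
      ((fc8 i0 i e he hd h hb ηn hη 2).1 k ω + (fc8 i0 i e he hd h hb ηn hη 3).1 k ω * (D.r10 i0 e he ηn hη 0).1 k ω +
        (fc8 i0 i e he hd h hb ηn hη 4).1 k ω * (D.r10 i0 e he ηn hη 1).1 k ω +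
        (fa4 B i0 i ηn 0 k ω * (B.RT i e1 he1).1 k ω + fa4 B i0 i ηn 1 k ω * (B.zT i e1 he1 (B.eta i) le_rfl).1 k ω))| ≤
          K k * S.dl e k) ∧
    (∀ᶠ k in UF, ∀ ω, (S.F k).μ ω ≠ 0 → A k ω → |(D.r10 i0 e he ηn hη 3).1 k ω -
      ((fc8 i0 i e he hd h hb ηn hη 5).1 k ω + (fc8 i0 i e he hd h hb ηn hη 6).1 k ω * (D.r10 i0 e he ηn hη 0).1 k ω +
        (fc8 i0 i e he hd h hb ηn hη 7).1 k ω * (D.r10 i0 e he ηn hη 1).1 k ω +
        (fa4 B i0 i ηn 2 k ω * (B.RT i e1 he1).1 k ω + fa4 B i0 i ηn 3 k ω * (B.zT i e1 he1 (B.eta i) le_rfl).1 k ω))| ≤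
          K k * S.dl e k) := by
  obtain ⟨C, hC, hb1⟩ := (TR.vec (fc8 i0 i e he hd h hb ηn hη)).bd
  obtain ⟨C2, hC2, hb2⟩ := (D.r10 i0 e he ηn hη 2).2
  obtain ⟨C3, hC3, hb3⟩ := (D.r10 i0 e he ηn hη 3).2
  have hC' : S.Sub C := sub_unchg hC
  have hC2' : S.Sub C2 := sub_unchg hC2
  have hC3' : S.Sub C3 := sub_unchg hC3
  have hσ : B.q i - B.q i0 = e * σ := by rw [hq]; ring
  have hA := (((t_id (he := he) (he1 := he1) h).and (y_id (he := he) (he1 := he1) h)).and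
    ((R_id (he := he) (he1 := he1) (ok0 hd h hb)).and (z_id (he := he) (he1 := he1) hd h hb hη)))
  have hCm : S.Sub fun k => 2 * max (C k) 0 + 3 := by
    have h1 : S.Sub fun k => max (C k) 0 := by
      refine ⟨Eventually.of_forall fun k => le_max_right _ _, ?_⟩
      refine hC'.2.congr' ?_
      filter_upwards [hC'.1] with k hk
      rw [max_eq_left hk]
    exact ((S.Sub_const (show (0 : ℝ) ≤ 2 by norm_num)).mul h1).add (S.Sub_const (show (0 : ℝ) ≤ 3 by norm_num))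
  have hC2m : S.Sub fun k => max (C2 k) 0 := by
    refine ⟨Eventually.of_forall fun k => le_max_right _ _, ?_⟩
    refine hC2'.2.congr' ?_
    filter_upwards [hC2'.1] with k hk
    rw [max_eq_left hk]
  have hC3m : S.Sub fun k => max (C3 k) 0 := by
    refine ⟨Eventually.of_forall fun k => le_max_right _ _, ?_⟩
    refine hC3'.2.congr' ?_
    filter_upwards [hC3'.1] with k hk
    rw [max_eq_left hk]
  obtain ⟨K, hK⟩ : ∃ K : ℕ → ℝ, K = fun k => 2 * max (C k) 0 + 3 + (max (C2 k) 0 + max (C3 k) 0) := ⟨_, rfl⟩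
  have hKs : S.Sub K := by rw [hK]; exact hCm.add (hC2m.add hC3m)
  have k0 : ∀ k, 0 ≤ max (C k) 0 ∧ 0 ≤ max (C2 k) 0 ∧ 0 ≤ max (C3 k) 0 := fun k =>
    ⟨le_max_right _ _, le_max_right _ _, le_max_right _ _⟩
  have kC : ∀ k, 2 * max (C k) 0 + 3 ≤ K k := fun k => by rw [hK]; show _ ≤ _ + _; linarith [(k0 k).2.1, (k0 k).2.2]
  have near : ∀ (j : Fin 4) k (ω : (S.F k).Ω), |(flr (TR.vec (LD.pf (B := B) i0 e he ηn hη)) j).1 k ω -
      (LD.pf (B := B) i0 e he ηn hη j).1 k ω| ≤ S.dl e k := by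
    intro j k ω
    have h1 := flr_near (T := B.Sj i0 e he) (TR.vec (LD.pf (B := B) i0 e he ηn hη)) j k ω
    have h2 : (B.Sj i0 e he).dl 1 k = S.dl e k := by
      rw [show (B.Sj i0 e he).dl 1 k = S.dl (e * 1) k from chg_dl _ _ _ _ _, mul_one]
    rw [h2] at h1
    exact h1
  have le1 : ∀ (k : ℕ) (x : ℝ), x ≤ S.dl e k → x ≤ K k * S.dl e k := fun k x hx => by
    have h1 := S.dl_pos e k
    have h2 := kC k
    have h3 := (k0 k).1
    nlinarith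
  refine ⟨_, K, hA, hKs, fun k => by linarith [kC k, (k0 k).1], ?_, ?_, ?_, ?_, ?_, ?_, ?_⟩
  · filter_upwards [hb1] with k hk ω hω _ j
    have h1 : |(fc8 i0 i e he hd h hb ηn hη j).1 k ω| ≤ C k := hk ω hω j
    have h2 := le_max_left (C k) 0
    linarith [kC k, (k0 k).1]
  · filter_upwards [hb2] with k hk ω hω _
    have h1 := hk ω hω
    have h2 := le_max_left (C2 k) 0
    rw [hK]
    show _ ≤ _ + _
    linarith [(k0 k).1, (k0 k).2.2]
  · filter_upwards [hb3] with k hk ω hω _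
    have h1 := hk ω hω
    have h2 := le_max_left (C3 k) 0
    rw [hK]
    show _ ≤ _ + _
    linarith [(k0 k).1, (k0 k).2.1]
  · refine Eventually.of_forall fun k ω _ hh => ?_
    have h1 := hh.1.1
    rw [hσ] at h1
    apply le1
    have h2 : (fc8 i0 i e he hd h hb ηn hη 0).1 k ω + S.dl (e * σ) k * (B.tT i e1 he1).1 k ω =
        (B.tT i0 e he).1 k ω := h1.symm
    rw [h2]
    exact near 0 k ω
  · refine Eventually.of_forall fun k ω _ hh => ?_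
    have h1 := hh.1.2
    rw [hσ] at h1
    apply le1
    have h2 : (fc8 i0 i e he hd h hb ηn hη 1).1 k ω + S.dl (e * σ) k * (B.yT i e1 he1).1 k ω =
        (B.yT i0 e he).1 k ω := h1.symm
    rw [h2]
    exact near 1 k ω
  · filter_upwards [hb1] with k hk ω hω hh
    have h1 := hh.2.1
    have hz0 : fa4 B i0 i ηn 1 k ω = 0 := rfl
    rw [hz0, zero_mul, add_zero]
    have b3 : |(fc8 i0 i e he hd h hb ηn hη 3).1 k ω| ≤ max (C k) 0 := (hk ω hω 3).trans (le_max_left _ _)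
    have b4 : |(fc8 i0 i e he hd h hb ηn hη 4).1 k ω| ≤ max (C k) 0 := (hk ω hω 4).trans (le_max_left _ _)
    have h5 := near_id (k0 k).1 (S.dl_pos e k).le h1 (near 0 k ω) (near 1 k ω) (near 2 k ω) b3 b4
    exact h5.trans (mul_le_mul_of_nonneg_right (kC k) (S.dl_pos e k).le)
  · filter_upwards [hb1] with k hk ω hω hh
    have h1 := hh.2.2
    have b3 : |(fc8 i0 i e he hd h hb ηn hη 6).1 k ω| ≤ max (C k) 0 := (hk ω hω 6).trans (le_max_left _ _)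
    have b4 : |(fc8 i0 i e he hd h hb ηn hη 7).1 k ω| ≤ max (C k) 0 := (hk ω hω 7).trans (le_max_left _ _)
    have h5 := near_id (k0 k).1 (S.dl_pos e k).le h1 (near 0 k ω) (near 1 k ω) (near 3 k ω) b3 b4
    exact h5.trans (mul_le_mul_of_nonneg_right (kC k) (S.dl_pos e k).le)

/-- the relations, `z` over `R` -/
theorem exists_zrel (hd : B.Dn i0 b) (h : B.q i0 ≤ B.q i) (hb : B.q i ≤ b) {ηn : ℝ} (hη : ηn ≤ B.eta i0) {σ : ℝ}
    (hq : B.q i = B.q i0 + e * σ) (hee : e * σ + e1 = e) : ∃ (A : ∀ k, (S.F k).Ω → Prop) (K : ℕ → ℝ),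
    ZRel S (B.V i0) (B.V i) e e1 he he1 (D.r10 i0 e he ηn hη 0) (D.r10 i0 e he ηn hη 1) (D.r10 i0 e he ηn hη 2)
      (D.r10 i0 e he ηn hη 3) (fun j => (fc8 i0 i e he hd h hb ηn hη j).1) (fa4 B i0 i ηn) (B.tT i e1 he1)
      (B.yT i e1 he1) (B.RT i e1 he1) (B.zT i e1 he1 (B.eta i) le_rfl) σ ((B.eta i - ηn) / e) A K := by
  obtain ⟨A, K, hA, hK, hK1, x1, x2, x3, x4, x5, x6, x7⟩ := exists_rel (he1 := he1) D hd h hb hη hq
  refine ⟨A, K, ?_, hA, hK, fun j => ?_, fun j => ?_, x1, x2, x4, x5, x6, x7, ?_, hee⟩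
  · filter_upwards [B.nest i0 i h] with k hk ω ω' _ _ _ hv using hk hv
  · filter_upwards [fc8_lit (he := he) hd h hb hη j] with k hk ω ω' a b c d _ _ using hk ω ω' a b d c
  · filter_upwards [fa4_lit h (ηn := ηn) j] with k hk ω ω' a b c d _ _ using hk ω ω' a b d c
  · refine Eventually.of_forall fun k ω _ _ g => ?_
    have e1' : fa4 B i0 i ηn 1 k ω = 0 := rfl
    have e3 : fa4 B i0 i ηn 3 k ω = S.dl (B.eta i - ηn) k := rfl
    have e4 : e * ((B.eta i - ηn) / e) = B.eta i - ηn := by field_simp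
    rw [e1', e3, mul_zero, sub_zero, e4, abs_of_pos (S.dl_pos _ _)]
    have h1 : S.dl (B.eta i - ηn) k ≤ max |fa4 B i0 i ηn 2 k ω - g * fa4 B i0 i ηn 0 k ω| (S.dl (B.eta i - ηn) k) :=
      le_max_right _ _
    have h2 := S.dl_pos (B.eta i - ηn) k
    have h3 := hK1 k
    nlinarith

/-- the relations, `R` over `z` -/
theorem exists_zrel' (hd : B.Dn i0 b) (h : B.q i0 ≤ B.q i) (hb : B.q i ≤ b) {ηn : ℝ} (hη : ηn ≤ B.eta i0) {σ : ℝ}
    (hq : B.q i = B.q i0 + e * σ) (hee : e * σ + e1 = e) {th β : ℝ}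
    (hth : QS.mk (B.c i 3) - QS.mk (B.c i0 3) ∈ Id S th) (hth1 : th ≤ 1) (hβ1 : B.lam i - B.lam i0 ≤ e * β)
    (hβ2 : B.eta i - B.lam i0 - th < e * β) :
    ∃ (A : ∀ k, (S.F k).Ω → Prop) (K : ℕ → ℝ) (c : Fin 8 → ∀ k, (S.F k).Ω → ℝ) (a : Fin 4 → ∀ k, (S.F k).Ω → ℝ),
    ZRel S (B.V i0) (B.V i) e e1 he he1 (D.r10 i0 e he ηn hη 0) (D.r10 i0 e he ηn hη 1) (D.r10 i0 e he ηn hη 3)
      (D.r10 i0 e he ηn hη 2) c a (B.tT i e1 he1) (B.yT i e1 he1) (B.RT i e1 he1)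
      (B.zT i e1 he1 (B.eta i) le_rfl) σ β A K := by
  obtain ⟨A, K, hA, hK, hK1, x1, x2, x3, x4, x5, x6, x7⟩ := exists_rel (he1 := he1) D hd h hb hη hq
  have hζ : QS.mk (B.ζ i0 i 3) ∈ Id S th := by
    rw [B.ζ3, map_sub]
    exact hth
  obtain ⟨Kz, hKz, hz⟩ := exists_K hth1 hζ
  obtain ⟨δ, hδ⟩ : ∃ δ, δ = e * β - (B.eta i - B.lam i0 - th) := ⟨_, rfl⟩
  have hδ0 : 0 < δ := by rw [hδ]; linarith
  have hs := ((S.Sub_const (show (0 : ℝ) ≤ 2 by norm_num)).mul hKz).eventually_le hδ0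
  obtain ⟨sw, hsw⟩ : ∃ sw : Fin 8 → Fin 8, sw = ![0, 1, 5, 6, 7, 2, 3, 4] := ⟨_, rfl⟩
  obtain ⟨sa, hsa⟩ : ∃ sa : Fin 4 → Fin 4, sa = ![2, 3, 0, 1] := ⟨_, rfl⟩
  refine ⟨fun k ω => A k ω ∧ |(B.ζ i0 i 3).1 k ω - 0| ≤ Kz k * S.dl th k, K,
    fun j => (fc8 i0 i e he hd h hb ηn hη (sw j)).1, fun j => fa4 B i0 i ηn (sa j),
    ?_, hA.and hz, hK, fun j => ?_, fun j => ?_, ?_, ?_, ?_, ?_, ?_, ?_, ?_, hee⟩
  · filter_upwards [B.nest i0 i h] with k hk ω ω' _ _ _ hv using hk hv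
  · filter_upwards [fc8_lit (he := he) hd h hb hη (sw j)] with k hk ω ω' a b c d _ _ using hk ω ω' a b d c
  · filter_upwards [fa4_lit h (ηn := ηn) (sa j)] with k hk ω ω' a b c d _ _ using hk ω ω' a b d c
  · filter_upwards [x1] with k hk ω a b j using hk ω a b.1 (sw j)
  · filter_upwards [x3] with k hk ω a b using hk ω a b.1
  · subst hsw
    filter_upwards [x4] with k hk ω a b using hk ω a b.1
  · subst hsw
    filter_upwards [x5] with k hk ω a b using hk ω a b.1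
  · subst hsw hsa
    filter_upwards [x7] with k hk ω a b using hk ω a b.1
  · subst hsw hsa
    filter_upwards [x6] with k hk ω a b using hk ω a b.1
  · subst hsa
    filter_upwards [hs, hKz.1] with k hk hk0 ω _ hω g
    have e0 : fa4 B i0 i ηn 0 k ω = S.dl (B.lam i - B.lam i0) k := rfl
    have e1' : fa4 B i0 i ηn 1 k ω = 0 := rfl
    have e2 : fa4 B i0 i ηn 2 k ω = (B.ζ i0 i 3).1 k ω * S.dl (B.lam i - ηn) k := rfl
    have e3 : fa4 B i0 i ηn 3 k ω = S.dl (B.eta i - ηn) k := rfl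
    show S.dl (e * β) k ≤ K k * max |fa4 B i0 i ηn 0 k ω - g * fa4 B i0 i ηn 2 k ω|
      |fa4 B i0 i ηn 1 k ω - g * fa4 B i0 i ηn 3 k ω|
    rw [e0, e1', e2, e3]
    obtain ⟨γ, hγ⟩ : ∃ γ, γ = e * β - (B.eta i - ηn) := ⟨_, rfl⟩
    have h3 := hK1 k
    have hd0 := S.dl_pos (e * β) k
    have hm := fun (x y : ℝ) => (le_max_left x y : x ≤ max x y)
    have hm' := fun (x y : ℝ) => (le_max_right x y : y ≤ max x y)
    rcases le_total (S.dl γ k) |g| with hg | hg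
    · have h4 : S.dl (e * β) k ≤ |0 - g * S.dl (B.eta i - ηn) k| := by
        rw [zero_sub, abs_neg, abs_mul, abs_of_pos (S.dl_pos (B.eta i - ηn) k)]
        have h5 : S.dl (e * β) k = S.dl γ k * S.dl (B.eta i - ηn) k := by
          rw [← S.dl_add, hγ]
          congr 1
          ring
        rw [h5]
        exact mul_le_mul_of_nonneg_right hg (S.dl_pos _ _).le
      have h5 := h4.trans (hm' |S.dl (B.lam i - B.lam i0) k - g * ((B.ζ i0 i 3).1 k ω * S.dl (B.lam i - ηn) k)| _)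
      nlinarith
    · have h4 : |g * ((B.ζ i0 i 3).1 k ω * S.dl (B.lam i - ηn) k)| ≤ S.dl (B.lam i - B.lam i0) k / 2 := by
        have h5 : |(B.ζ i0 i 3).1 k ω| ≤ Kz k * S.dl th k := by
          have h6 := hω.2
          rwa [sub_zero] at h6
        rw [abs_mul, abs_mul, abs_of_pos (S.dl_pos (B.lam i - ηn) k)]
        have h6 : |g| * (|(B.ζ i0 i 3).1 k ω| * S.dl (B.lam i - ηn) k) ≤
            S.dl γ k * ((Kz k * S.dl th k) * S.dl (B.lam i - ηn) k) :=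
          mul_le_mul hg (mul_le_mul_of_nonneg_right h5 (S.dl_pos _ _).le)
            (mul_nonneg (abs_nonneg _) (S.dl_pos _ _).le) (S.dl_pos _ _).le
        refine h6.trans ?_
        have h7 : S.dl γ k * ((Kz k * S.dl th k) * S.dl (B.lam i - ηn) k) = Kz k * (S.dl δ k *
            S.dl (B.lam i - B.lam i0) k) := by
          have h8 : S.dl γ k * (S.dl th k * S.dl (B.lam i - ηn) k) = S.dl δ k * S.dl (B.lam i - B.lam i0) k := by
            rw [← S.dl_add, ← S.dl_add, ← S.dl_add, hγ, hδ]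
            congr 1
            ring
          rw [← h8]
          ring
        rw [h7]
        have h9 : 2 * Kz k * S.dl δ k ≤ 1 := by
          have h10 : (2 : ℝ) ^ (δ * (S.F k).n) * S.dl δ k = 1 := by
            unfold Sp.dl
            rw [← Real.rpow_add (by norm_num), add_neg_cancel, Real.rpow_zero]
          have h11 : 2 * Kz k ≤ 2 ^ (δ * (S.F k).n) := by linarith
          exact (mul_le_mul_of_nonneg_right h11 (S.dl_pos δ k).le).trans h10.le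
        have h12 := mul_le_mul_of_nonneg_right h9 (S.dl_pos (B.lam i - B.lam i0) k).le
        linarith
      have h5 : S.dl (B.lam i - B.lam i0) k / 2 ≤
          |S.dl (B.lam i - B.lam i0) k - g * ((B.ζ i0 i 3).1 k ω * S.dl (B.lam i - ηn) k)| := by
        have h6 := abs_sub_abs_le_abs_sub (S.dl (B.lam i - B.lam i0) k)
          (g * ((B.ζ i0 i 3).1 k ω * S.dl (B.lam i - ηn) k))
        rw [abs_of_pos (S.dl_pos (B.lam i - B.lam i0) k)] at h6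
        linarith
      have h6 := h5.trans (hm _ |0 - g * S.dl (B.eta i - ηn) k|)
      have h7 : S.dl (e * β) k ≤ S.dl (B.lam i - B.lam i0) k := S.dl_anti hβ1 k
      nlinarith

end box

end

end Pool.Agent.Helper80.HCI
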