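import Pool.Agent.Helper80.HCI.Obk
import Pool.Agent.Helper80.HCI.Trm

/-! Fullness of the projections `z - g R` (`Fz`), finite form, and passage to the diagonal. -/

set_option autoImplicit false

namespace Pool.Agent.Helper80.HCI

open Finset Filter Topology Pool.Agent.Helper69.RK Pool.Agent.Helper31.EC Pool.Agent.Helper40.EL
open Pool.Agent.Helper60.CS Pool.Agent.Helper82.TP Pool.Agent.Helper79.NF Pool.Agent.Helper31.NSB

noncomputable section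

open Sp QS

/-! ### entropies on events -/

section ev

variable {T : Sp} {α β : ℕ → Type} {X : ∀ k, (T.F k).Ω → α k} {Y : ∀ k, (T.F k).Ω → β k}

/-- the probability of a typical part of an event -/
theorem pb_typ {E A : ∀ k, (T.F k).Ω → Prop} (hE : 0 < ul (T.pr E)) (hA : Typ (S := T.rest E) A) :
    ∀ᶠ k in UF, ul (T.pr E) / 4 ≤ (T.F k).pb (fun ω => E k ω ∧ A k ω) := by
  have h4 := ul_pr_typ _ hA
  have h5 : ∀ᶠ k in UF, (1 : ℝ) / 2 ≤ (T.rest E).pr A k := by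
    have h6 := pr_half' (S := T.rest E) (E := A) (by rw [h4]; norm_num)
    rw [h4] at h6
    exact h6
  filter_upwards [pr_half' hE, h5] with k h6 h7
  refine le_trans ?_ (pb_and _ _ _)
  have h8 : (1 : ℝ) / 2 ≤ ((T.F k).rest (E k)).pb (A k) := h7
  have h9 : ul (T.pr E) / 2 ≤ (T.F k).pb (E k) := h6
  nlinarith

/-- rates on an event inside an event, by conditional entropies of variables -/
theorem h_event (hX : Bdd X) (hY : Bdd Y) (E : ∀ k, (T.F k).Ω → Prop) (hE : 0 < ul (T.pr E))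
    (A : ∀ k, (T.F k).Ω → Prop) (hA : Typ (S := T.rest E) A) :
    h (restL E hE (io X)) (restL E hE (io Y)) =
      ul (fun k => CH ((T.F k).rest fun ω => E k ω ∧ A k ω).μ (X k)
        (fun ω => (Y k ω, Quotient.mk (T.F k).Z ω)) / (T.F k).n) := by
  classical
  have bX : Bdd (S := T.rest E) X := rest_VB E hX
  have bY : Bdd (S := T.rest E) Y := rest_VB E hY
  rw [restL_io _ _ hX, restL_io _ _ hY]
  obtain ⟨A1, hA1⟩ : ∃ A1 : ∀ k, ((T.rest E).F k).Ω → Prop, A1 = A := ⟨_, rfl⟩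
  have hT1 : Typ A1 := by rw [hA1]; exact hA
  have e0 := Sp.h_restL_typ (S := T.rest E) A1 hT1 (io X) (io Y)
  have bX' : Bdd (S := (T.rest E).rest A1) X := rest_VB A1 bX
  have bY' : Bdd (S := (T.rest E).rest A1) Y := rest_VB A1 bY
  have e01 : restL A1 (ul_pr_typ_pos A1 hT1) (io (S := T.rest E) X) = io (S := (T.rest E).rest A1) X :=
    restL_io A1 _ bX
  have e02 : restL A1 (ul_pr_typ_pos A1 hT1) (io (S := T.rest E) Y) = io (S := (T.rest E).rest A1) Y :=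
    restL_io A1 _ bY
  rw [e01, e02, h_io bX' bY'] at e0
  rw [← e0]
  clear e0 e01 e02
  have hA1' : A = A1 := hA1.symm
  clear hA1
  subst hA1'
  -- positive probability
  have hG' : ∀ᶠ k in UF, (T.F k).pb (fun ω => E k ω ∧ A k ω) ≠ 0 := by
    filter_upwards [pb_typ hE hT1] with k h3
    exact ((show 0 < ul (T.pr E) / 4 by linarith).trans_le h3).ne'
  apply ul_congr
  filter_upwards [hG'] with k hk
  show (((T.F k).rest (E k)).rest (A k)).e (Setoid.ker (X k)) (Setoid.ker (Y k) ⊓ (T.F k).Z) / (T.F k).n = _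
  congr 1
  have e1 : (((T.F k).rest (E k)).rest (A k)).e (Setoid.ker (X k)) (Setoid.ker (Y k) ⊓ (T.F k).Z) =
      ((T.F k).rest fun ω => E k ω ∧ A k ω).e (Setoid.ker (X k)) (Setoid.ker (Y k) ⊓ (T.F k).Z) := by
    show CH (((T.F k).rest (E k)).rest (A k)).μ _ _ = CH ((T.F k).rest fun ω => E k ω ∧ A k ω).μ _ _
    rw [rest_rest_mu (T.F k) (E k) (A k) hk]
    rfl
  rw [e1]
  exact (CH_floor_rt (F := T.F k) (X k) (Y k) fun ω => E k ω ∧ A k ω).symm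

/-- digits by floors -/
theorem bdd_fl (g : TR T) (r : ℝ) : Bdd (fun k ω => ⌊g.1 k ω / T.dl r k⌋) := by
  apply ((TR.vec fun _ : Fin 1 => g).bdd r).of_fun
  refine Eventually.of_forall fun k ω ω' _ _ _ h => ?_
  exact congrFun h 0

theorem dg_fl (g : TR T) (r : ℝ) : TR.dg g r = io (fun k ω => ⌊g.1 k ω / T.dl r k⌋) := by
  apply le_antisymm
  · show io (fun k ω => (TR.vec fun _ : Fin 1 => g).cellv r k ω) ≤ _
    apply io_le_of_fun (bdd_fl g r)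
    refine Eventually.of_forall fun k ω ω' _ _ _ h => ?_
    funext i
    exact h
  · show _ ≤ io (fun k ω => (TR.vec fun _ : Fin 1 => g).cellv r k ω)
    apply io_le_of_fun ((TR.vec fun _ : Fin 1 => g).bdd r)
    refine Eventually.of_forall fun k ω ω' _ _ _ h => ?_
    exact congrFun h 0

end ev

/-! ### fullness of the projections -/

/-- fullness of the projections, finite form -/
def FzF (F : FSp) {α γ β : Type} (VA : F.Ω → α) (VB : F.Ω → γ) (K : F.Ω → β) (t y R z c : F.Ω → ℝ)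
    (a b p η : ℝ) : Prop :=
  ∀ (E : F.Ω → Prop) (gA gB : F.Ω → ℝ), p ≤ F.pb E → FLit F VA gA → FLit F VB gB →
    (∀ ω, F.μ ω ≠ 0 → E ω → |gA ω - gB ω| ≤ 2 ^ (-((1 - η) * F.n)) ∧ |gB ω - c ω| ≤ 2 ^ (-((a - η) * F.n)) ∧
      |gB ω| ≤ 2 ^ (η * F.n)) →
    b * F.n ≤ CH (F.rest E).μ (fun ω => ⌊(z ω - gB ω * R ω) / 2 ^ (-(1 * F.n))⌋)
      (fun ω => ((K ω, (⌊t ω / 2 ^ (-(1 * F.n))⌋, ⌊y ω / 2 ^ (-(1 * F.n))⌋)), Quotient.mk F.Z ω))

/-- fullness of the projections at a space of the sequence: real functions `gA`, `gB` -/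
def FzE {S : Sp} {α γ β : ℕ → Type} (VA : ∀ k, (S.F k).Ω → α k) (VB : ∀ k, (S.F k).Ω → γ k)
    (K : ∀ k, (S.F k).Ω → β k) (t y R z c : TR S) (a b p η : ℝ) : Prop :=
  ∀ (E : ∀ k, (S.F k).Ω → Prop) (gA gB : ∀ k, (S.F k).Ω → ℝ), p ≤ ul (S.pr E) →
    (∀ᶠ k in UF, FLit (S.F k) (VA k) (gA k)) → (∀ᶠ k in UF, FLit (S.F k) (VB k) (gB k)) →
    (∀ᶠ k in UF, ∀ ω, (S.F k).μ ω ≠ 0 → E k ω → |gA k ω - gB k ω| ≤ S.dl (1 - η) k ∧
      |gB k ω - c.1 k ω| ≤ S.dl (a - η) k ∧ |gB k ω| ≤ 2 ^ (η * (S.F k).n)) →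
    ∀ ζ : ℝ, 0 < ζ → ∀ᶠ k in UF, (b - ζ) * (S.F k).n ≤ CH ((S.F k).rest (E k)).μ
      (fun ω => ⌊(z.1 k ω - gB k ω * R.1 k ω) / S.dl 1 k⌋)
      (fun ω => ((K k ω, (⌊t.1 k ω / S.dl 1 k⌋, ⌊y.1 k ω / S.dl 1 k⌋)), Quotient.mk (S.F k).Z ω))

/-- the finite form holds eventually -/
theorem FzE.fin {S : Sp} {α γ β : ℕ → Type} {VA : ∀ k, (S.F k).Ω → α k} {VB : ∀ k, (S.F k).Ω → γ k}
    {K : ∀ k, (S.F k).Ω → β k} {t y R z c : TR S} {a b b' p η : ℝ} (h : FzE VA VB K t y R z c a b p η)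
    (hb : b' < b) : ∀ᶠ k in UF, FzF (S.F k) (VA k) (VB k) (K k) (t.1 k) (y.1 k) (R.1 k) (z.1 k) (c.1 k) a b' p η := by
  classical
  by_contra hc
  have h1 := UF_not hc
  have h2 : ∀ k, ∃ (E : (S.F k).Ω → Prop) (gA gB : (S.F k).Ω → ℝ),
      FLit (S.F k) (VA k) gA ∧ FLit (S.F k) (VB k) gB ∧
      (∀ ω, (S.F k).μ ω ≠ 0 → E ω → |gA ω - gB ω| ≤ 2 ^ (-((1 - η) * (S.F k).n)) ∧
        |gB ω - c.1 k ω| ≤ 2 ^ (-((a - η) * (S.F k).n)) ∧ |gB ω| ≤ 2 ^ (η * (S.F k).n)) ∧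
      (¬ FzF (S.F k) (VA k) (VB k) (K k) (t.1 k) (y.1 k) (R.1 k) (z.1 k) (c.1 k) a b' p η → p ≤ (S.F k).pb E ∧
        CH ((S.F k).rest E).μ (fun ω => ⌊(z.1 k ω - gB ω * R.1 k ω) / 2 ^ (-(1 * (S.F k).n))⌋)
          (fun ω => ((K k ω, (⌊t.1 k ω / 2 ^ (-(1 * (S.F k).n))⌋, ⌊y.1 k ω / 2 ^ (-(1 * (S.F k).n))⌋)),
            Quotient.mk (S.F k).Z ω)) < b' * (S.F k).n) := by
    intro k
    by_cases h3 : FzF (S.F k) (VA k) (VB k) (K k) (t.1 k) (y.1 k) (R.1 k) (z.1 k) (c.1 k) a b' p η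
    · refine ⟨fun _ => False, fun _ => 0, fun _ => 0, fun _ _ _ _ _ _ => rfl, fun _ _ _ _ _ _ => rfl,
        fun _ _ h => h.elim, fun h => absurd h3 h⟩
    · have h4 := h3
      unfold FzF at h4
      push Not at h4
      obtain ⟨E, gA, gB, h5, h6, h7, h8, h9⟩ := h4
      exact ⟨E, gA, gB, h6, h7, h8, fun _ => ⟨h5, h9⟩⟩
  choose E gA gB h3 h4 h5 h6 using h2
  have hE : p ≤ ul (S.pr E) := by
    apply const_le_ul (UB_pr E)
    filter_upwards [h1] with k hk using (h6 k hk).1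
  have h7 := h E gA gB hE (Eventually.of_forall h3) (Eventually.of_forall h4)
    (Eventually.of_forall fun k ω a b => h5 k ω a b) (b - b') (by linarith)
  obtain ⟨k, h8, h9⟩ := (h1.and h7).exists
  have h10 := (h6 k h8).2
  have e : b - (b - b') = b' := by ring
  rw [e] at h9
  exact absurd h10 (not_lt.mpr h9)

/-- FULLNESS of one projection from the finite forms -/
theorem fz_of_fin {T : Sp} {α γ β : ℕ → Type} {VA : ∀ k, (T.F k).Ω → α k} {VB : ∀ k, (T.F k).Ω → γ k}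
    {K : ∀ k, (T.F k).Ω → β k} (hK : Bdd K) {t y R z c : TR T} {a b : ℝ} (ha : a ≤ 1)
    (h : ∀ p τ : ℚ, 0 < p → 0 < τ → ∃ η : ℚ, 0 < η ∧ ∀ᶠ k in UF,
      FzF (T.F k) (VA k) (VB k) (K k) (t.1 k) (y.1 k) (R.1 k) (z.1 k) (c.1 k) a (b - τ) p η)
    (E : ∀ k, (T.F k).Ω → Prop) (hE : 0 < ul (T.pr E)) (gA gB : QS T) (hA : Lit VA gA) (hB : Lit VB gB)
    (hAB : QS.rest E hE gA = QS.rest E hE gB) (hc : QS.rest E hE (gB - QS.mk c) ∈ QS.Id (T.rest E) a) :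
    b ≤ Pool.Agent.Helper31.EC.h (dg (QS.rest E hE (QS.mk z - gB * QS.mk R)) 1)
      (restL E hE (io K ⊔ (dg (QS.mk t) 1 ⊔ dg (QS.mk y) 1))) := by
  classical
  obtain ⟨g, rfl, hg⟩ := hA
  obtain ⟨g', rfl, hg'⟩ := hB
  -- agreement
  have h1 : TR.Ag 1 (TR.rest E g) (TR.rest E g') := by
    rw [QS.rest_mk, QS.rest_mk, QS.mk_eq] at hAB
    exact hAB
  have h2 : TR.Ag a (TR.rest E (g' - c)) 0 := by
    rw [← map_sub, QS.rest_mk, Pool.Agent.Helper82.TP.mk_mem_Id', min_eq_left ha] at hc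
    exact hc
  obtain ⟨E1, K1, hE1, hK1, h1⟩ := h1
  obtain ⟨E2, K2, hE2, hK2, h2⟩ := h2
  obtain ⟨K3, hK3, h3⟩ := g'.2
  obtain ⟨A, hA⟩ : ∃ A : ∀ k, (T.F k).Ω → Prop, A = fun k ω => E1 k ω ∧ E2 k ω := ⟨_, rfl⟩
  have hAT : Typ (S := T.rest E) A := by
    rw [hA]
    exact hE1.and hE2
  -- the entropy
  obtain ⟨f, hf⟩ : ∃ f : TR T, f = z - g' * R := ⟨_, rfl⟩
  obtain ⟨X, hX⟩ : ∃ X : ∀ k, (T.F k).Ω → ℤ, X = fun k ω => ⌊f.1 k ω / T.dl 1 k⌋ := ⟨_, rfl⟩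
  obtain ⟨Y, hY⟩ : ∃ Y : ∀ k, (T.F k).Ω → β k × (ℤ × ℤ), Y = fun k ω =>
    (K k ω, (⌊t.1 k ω / T.dl 1 k⌋, ⌊y.1 k ω / T.dl 1 k⌋)) := ⟨_, rfl⟩
  have bX : Bdd X := by rw [hX]; exact bdd_fl f 1
  have bY : Bdd Y := by rw [hY]; exact hK.pair ((bdd_fl t 1).pair (bdd_fl y 1))
  have e1 : dg (QS.rest E hE (QS.mk z - QS.mk g' * QS.mk R)) 1 = restL E hE (io X) := by
    rw [QS.rest_dg, ← map_mul, ← map_sub, QS.dg_mk _ le_rfl, hX, ← dg_fl, hf]
  have e2 : io K ⊔ (dg (QS.mk t) 1 ⊔ dg (QS.mk y) 1) = io Y := by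
    rw [QS.dg_mk _ le_rfl, QS.dg_mk _ le_rfl, dg_fl, dg_fl, hY,
      ← io_pair (bdd_fl t 1) (bdd_fl y 1), ← io_pair hK ((bdd_fl t 1).pair (bdd_fl y 1))]
  rw [e1, e2, h_event bX bY E hE A hAT]
  -- the bound
  apply le_of_forall_pos_le_add
  intro ε hε
  obtain ⟨τ, hτ0, hτ1⟩ := exists_rat_btwn hε
  have hτ0' : 0 < τ := by exact_mod_cast hτ0
  have hEE := pb_typ hE hAT
  obtain ⟨p, hp1, hp2⟩ := exists_rat_btwn (show 0 < ul (T.pr E) / 4 by linarith)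
  have hp1' : 0 < p := by exact_mod_cast hp1
  obtain ⟨η, hη, hfin⟩ := h p τ hp1' hτ0'
  have hη' : (0 : ℝ) < η := by exact_mod_cast hη
  have key : b - τ ≤ ul (fun k => CH ((T.F k).rest fun ω => E k ω ∧ A k ω).μ (X k)
      (fun ω => (Y k ω, Quotient.mk (T.F k).Z ω)) / (T.F k).n) := by
    have hub : UB (fun k => CH ((T.F k).rest fun ω => E k ω ∧ A k ω).μ (X k)
        (fun ω => (Y k ω, Quotient.mk (T.F k).Z ω)) / (T.F k).n) := by
      have u1 : UB ((T.rest fun k ω => E k ω ∧ A k ω).rt (fun k => Setoid.ker (X k)) (fun k => Setoid.ker (Y k))) :=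
        UB_rt (Bdd.toInf (S := T.rest fun k ω => E k ω ∧ A k ω) (rest_VB _ bX)) _
      have u2 : (T.rest fun k ω => E k ω ∧ A k ω).rt (fun k => Setoid.ker (X k)) (fun k => Setoid.ker (Y k)) =
          fun k => CH ((T.F k).rest fun ω => E k ω ∧ A k ω).μ (X k)
            (fun ω => (Y k ω, Quotient.mk (T.F k).Z ω)) / (T.F k).n := by
        funext k
        rw [CH_floor_rt (F := T.F k) (X k) (Y k) fun ω => E k ω ∧ A k ω]
        rfl
      rw [← u2]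
      exact u1
    apply const_le_ul hub
    filter_upwards [hfin, hEE, h1, h2, h3, hg, hg', hK1.eventually_le hη', hK2.eventually_le hη',
      hK3.eventually_le hη'] with k x1 x2 x3 x4 x5 x6 x7 x8 x9 x10
    have hn := (T.F k).pos
    rw [le_div_iff₀ hn]
    have y1 := x1 (fun ω => E k ω ∧ A k ω) (g.1 k) (g'.1 k) (hp2.le.trans x2)
      (fun ω ω' a b c d => x6 ω ω' a b c d) (fun ω ω' a b c d => x7 ω ω' a b c d) (by
        intro ω hω hEω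
        have hω' := (T.F k).rest_supp' (E k) ω hω hEω.1
        have hAω := hEω.2
        rw [hA] at hAω
        refine ⟨?_, ?_, ?_⟩
        · have z1 : |g.1 k ω - g'.1 k ω| ≤ K1 k * T.dl 1 k := x3 ω hω' hAω.1
          refine z1.trans ?_
          have z2 : K1 k ≤ 2 ^ ((η : ℝ) * (T.F k).n) := le_trans (by linarith) x8
          refine (mul_le_mul_of_nonneg_right z2 (T.dl_pos 1 k).le).trans (le_of_eq ?_)
          show (2 : ℝ) ^ ((η : ℝ) * (T.F k).n) * 2 ^ (-(1 * (T.F k).n)) = 2 ^ (-((1 - η) * (T.F k).n))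
          rw [← Real.rpow_add (by norm_num : (0 : ℝ) < 2)]
          congr 1
          ring
        · have z1 : |g'.1 k ω - c.1 k ω - 0| ≤ K2 k * T.dl a k := x4 ω hω' hAω.2
          rw [sub_zero] at z1
          refine z1.trans ?_
          have z2 : K2 k ≤ 2 ^ ((η : ℝ) * (T.F k).n) := le_trans (by linarith) x9
          refine (mul_le_mul_of_nonneg_right z2 (T.dl_pos a k).le).trans (le_of_eq ?_)
          show (2 : ℝ) ^ ((η : ℝ) * (T.F k).n) * 2 ^ (-(a * (T.F k).n)) = 2 ^ (-((a - η) * (T.F k).n))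
          rw [← Real.rpow_add (by norm_num : (0 : ℝ) < 2)]
          congr 1
          ring
        · exact (x5 ω hω).trans (le_trans (by linarith) x10))
    refine y1.trans (le_of_eq ?_)
    rw [hX, hY, hf]
    rfl
  linarith

/-! ### the diagonal -/

section dg

variable {Sc : Set ℝ} (J : Inp Sc)

/-- fullness of the projections `z - g R` (`R`, `z` = functions `iR`, `iz`) at the space `j` -/
def Inp.fzS (iR iz : Fin 10) (c : ∀ j, TR (J.S j)) (r r' a b p η : ℝ) (j : ℕ) : Prop :=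
  FzE (S := J.S j) (VAs (J.H j) 0) (VBs (J.H j) r') ((J.H j).K r) (J.r10 0 j) (J.r10 1 j) (J.r10 iR j) (J.r10 iz j)
    (c j) a b p η

/-- its finite form, with a loss -/
def Inp.fzC (iR iz : Fin 10) (c : ∀ j, TR (J.S j)) (r r' a b : ℝ) (i : ℚ × ℚ × ℚ) (j k : ℕ) : Prop :=
  0 < i.2.2 → J.fzS iR iz c r r' a (b - i.2.2) i.1 i.2.1 j →
    FzF ((J.S j).F k) (VAs (J.H j) 0 k) (VBs (J.H j) r' k) ((J.H j).K r k) ((J.r10 0 j).1 k) ((J.r10 1 j).1 k)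
      ((J.r10 iR j).1 k) ((J.r10 iz j).1 k) ((c j).1 k) a (b - 2 * i.2.2) i.1 i.2.1

theorem Inp.fzC_ev (iR iz : Fin 10) (c : ∀ j, TR (J.S j)) (r r' a b : ℝ) (i : ℚ × ℚ × ℚ) (j : ℕ) :
    ∀ᶠ k in UF, J.fzC iR iz c r r' a b i j k := by
  by_cases h : 0 < i.2.2 ∧ J.fzS iR iz c r r' a (b - i.2.2) i.1 i.2.1 j
  · obtain ⟨h1, h2⟩ := h
    have h3 : (0 : ℝ) < i.2.2 := by exact_mod_cast h1
    filter_upwards [FzE.fin h2 (b' := b - 2 * i.2.2) (by linarith)] with k hk _ _ using hk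
  · exact Eventually.of_forall fun k a b => absurd ⟨a, b⟩ h

/-- the tilt of `z` (`false`), and `0` for the exchanged corner (`true`) -/
def Inp.fzc (m : Bool) (r : Sc) : ∀ j, TR (J.S j) := bif m then 0 else J.r9 8 r

/-- fullness of the projections at the space `j`: `z - g R` (`m = false`), `R - g z` (`m = true`) -/
def Inp.fzS2 (w1 w : ℝ) (m : Bool) (r r' : Sc) (τ p η : ℝ) (j : ℕ) : Prop :=
  J.fzS (bif m then 3 else 2) (bif m then 2 else 3) (J.fzc m r) r r' (bif m then (w1 - w) * r else (w - w1) * r)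
    ((bif m then 1 - w1 * r else 1 - w * r) - τ) p η j

/-- the list of the conditions on the diagonal -/
def Inp.fzL (w1 w : ℝ) (i : Bool × Sc × Sc × ℚ × ℚ × ℚ) (j k : ℕ) : Prop :=
  J.fzC (bif i.1 then 3 else 2) (bif i.1 then 2 else 3) (J.fzc i.1 i.2.1) i.2.1 i.2.2.1
    (bif i.1 then (w1 - w) * i.2.1 else (w - w1) * i.2.1) (bif i.1 then 1 - w1 * i.2.1 else 1 - w * i.2.1) i.2.2.2 j k

theorem Inp.fzL_ev (w1 w : ℝ) (i : Bool × Sc × Sc × ℚ × ℚ × ℚ) (j : ℕ) : ∀ᶠ k in UF, J.fzL w1 w i j k :=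
  J.fzC_ev _ _ _ _ _ _ _ _ _

variable {J} {Λ : Type} {lv : Λ → ℝ} (s : Dg J lv)

include s in
/-- passage to the diagonal, one projection -/
theorem Dg.fz_one {w1 w : ℝ} (m : Bool) (hL : ∀ i, ∀ᶠ k in UF, J.fzL w1 w i (s.J k) k) (r r' : Sc)
    (hS : ∀ p τ : ℚ, 0 < p → 0 < τ → ∃ η : ℚ, 0 < η ∧ ∀ᶠ j in atTop, J.fzS2 w1 w m r r' τ p η j)
    (c : TR s.T) (hc : ∀ k, c.1 k = (J.fzc m r (s.J k)).1 k) {a b : ℝ}
    (hae : a = bif m then (w1 - w) * (r : ℝ) else (w - w1) * r) (hbe : b = bif m then 1 - w1 * (r : ℝ) else 1 - w * r)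
    (ha : a ≤ 1) {z R : QS s.T} (hz : z = s.g10 (bif m then 2 else 3)) (hR : R = s.g10 (bif m then 3 else 2))
    (E : ∀ k, (s.T.F k).Ω → Prop) (hE : 0 < ul (s.T.pr E)) (gA gB : QS s.T) (hA : Lit (VAs s.HT 0) gA)
    (hB : Lit (VBs s.HT r') gB) (hAB : QS.rest E hE gA = QS.rest E hE gB)
    (hcc : QS.rest E hE (gB - QS.mk c) ∈ QS.Id (s.T.rest E) a) :
    b ≤ Pool.Agent.Helper31.EC.h (dg (QS.rest E hE (z - gB * R)) 1) (restL E hE (s.HT.κ r ⊔ s.HT.q)) := by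
  subst hae hbe hz hR
  have h1 := fz_of_fin (T := s.T) (VA := VAs s.HT 0) (VB := VBs s.HT r') (K := s.HT.K r) (s.bddK r.2)
    (t := bf s.toUni (Sum.inl 0)) (y := bf s.toUni (Sum.inl 1)) (R := bf s.toUni (Sum.inl (bif m then 3 else 2)))
    (z := bf s.toUni (Sum.inl (bif m then 2 else 3))) (c := c)
    (a := bif m then (w1 - w) * (r : ℝ) else (w - w1) * r) (b := bif m then 1 - w1 * (r : ℝ) else 1 - w * r) ha ?_
    E hE gA gB hA hB hAB hcc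
  · exact h1
  · intro p τ hp hτ
    have hτ' : 0 < τ / 2 := by positivity
    obtain ⟨η, hη, hj⟩ := hS p (τ / 2) hp hτ'
    refine ⟨η, hη, ?_⟩
    filter_upwards [hL (m, r, r', p, η, τ / 2), s.tend.eventually hj] with k h2 h3
    have h4 := h2 hτ' (by
      unfold Inp.fzS2 at h3
      push_cast at h3 ⊢
      exact h3)
    have e1 : ∀ i, (bf s.toUni (Sum.inl i)).1 k = (J.r10 i (s.J k)).1 k := fun i => bf_ev s.toUni (Sum.inl i) k
    rw [e1, e1, e1, e1, hc]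
    have e2 : (2 : ℝ) * ((τ / 2 : ℚ) : ℝ) = τ := by
      push_cast
      ring
    rw [e2] at h4
    exact h4

/-- FULLNESS OF THE PROJECTIONS passes to the diagonal -/
theorem Dg.fz {w1 w : ℝ} (hL : ∀ i, ∀ᶠ k in UF, J.fzL w1 w i (s.J k) k) (hnn : ∀ r ∈ Sc, 0 ≤ r) (hw1 : 0 ≤ w1)
    (hS : ∀ r r' : Sc, ∀ p τ : ℚ, 0 < p → 0 < τ → ∃ η : ℚ, 0 < η ∧ ∀ᶠ j in atTop,
      J.fzS2 w1 w false r r' τ p η j) : Fz s.HT s.fT w1 w Sc := by
  intro r hr r' hr' E hE gA gB hA hB hAB hc hwr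
  have h0 := mul_nonneg hw1 (hnn r hr)
  have e1 : s.fT.c r = QS.mk (bf s.toUni (Sum.inr (8, (⟨r, hr⟩ : Sc)))) := by
    show s.g9 8 r = _
    unfold g9
    rw [dif_pos hr]
  have e2 : s.HT.z = s.g10 (bif false then 2 else 3) := rfl
  have e3 : s.HT.R = s.g10 (bif false then 3 else 2) := rfl
  rw [e1] at hc
  exact s.fz_one (w1 := w1) (w := w) false hL ⟨r, hr⟩ ⟨r', hr'⟩ (hS ⟨r, hr⟩ ⟨r', hr'⟩)
    (bf s.toUni (Sum.inr (8, (⟨r, hr⟩ : Sc)))) (fun k => bf_ev s.toUni (Sum.inr (8, (⟨r, hr⟩ : Sc))) k) rfl rfl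
    (show (w - w1) * r ≤ 1 by linarith) e2 e3 E hE gA gB hA hB hAB hc

/-- `Fz` of the exchanged corner -/
theorem fz_swp_of {S : Sp} (H : RD S) (f : FR S) {w1 w : ℝ} {Sc : Set ℝ}
    (h : ∀ r ∈ Sc, ∀ r' ∈ Sc, ∀ (E : ∀ k, (S.F k).Ω → Prop) (hE : 0 < ul (S.pr E)) (gA gB : QS S),
      Lit (VAs H 0) gA → Lit (VBs H r') gB → QS.rest E hE gA = QS.rest E hE gB →
      QS.rest E hE (gB - QS.mk 0) ∈ Id (S.rest E) ((w1 - w) * r) → w1 * r ≤ 1 →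
      1 - w1 * r ≤ Pool.Agent.Helper31.EC.h (dg (QS.rest E hE (H.R - gB * H.z)) 1) (restL E hE (H.κ r ⊔ H.q))) :
    Fz (swp H) (swf f) w w1 Sc := by
  intro r hr r' hr' E hE gA gB hA hB hAB hc hwr
  have e1 : (swf f).c r = QS.mk 0 := (map_zero _).symm
  rw [e1] at hc
  exact h r hr r' hr' E hE gA gB hA hB hAB hc hwr

/-- the exchanged corner -/
theorem Dg.fz_swp {w1 w : ℝ} (hL : ∀ i, ∀ᶠ k in UF, J.fzL w1 w i (s.J k) k) (hnn : ∀ r ∈ Sc, 0 ≤ r) (hw : 0 ≤ w)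
    (hS : ∀ r r' : Sc, ∀ p τ : ℚ, 0 < p → 0 < τ → ∃ η : ℚ, 0 < η ∧ ∀ᶠ j in atTop,
      J.fzS2 w1 w true r r' τ p η j) : Fz (swp s.HT) (swf s.fT) w w1 Sc := by
  apply fz_swp_of
  intro r hr r' hr' E hE gA gB hA hB hAB hc hwr
  have h0 := mul_nonneg hw (hnn r hr)
  have e2 : s.HT.R = s.g10 (bif true then 2 else 3) := rfl
  have e3 : s.HT.z = s.g10 (bif true then 3 else 2) := rfl
  have e4 : ∀ j k, (J.fzc true ⟨r, hr⟩ j).1 k = fun _ => 0 := fun j k => rfl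
  have e5 : ∀ k, (0 : TR s.T).1 k = fun _ => 0 := fun k => rfl
  exact s.fz_one (w1 := w1) (w := w) true hL ⟨r, hr⟩ ⟨r', hr'⟩ (hS ⟨r, hr⟩ ⟨r', hr'⟩) 0
    (fun k => (e5 k).trans (e4 (s.J k) k).symm) rfl rfl
    (show (w1 - w) * r ≤ 1 by linarith) e2 e3 E hE gA gB hA hB hAB hc

end dg

end

end Pool.Agent.Helper80.HCI
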