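import Pool.Agent.Helper80.HCI.Fzb
import Pool.Agent.Helper98.LV.Fld

/-! FULLNESS OF THE PROJECTIONS at the spaces of the sequence of boxes. -/

set_option autoImplicit false

namespace Pool.Agent.Helper80.HCI

open Finset Filter Topology Pool.Agent.Helper69.RK Pool.Agent.Helper31.EC Pool.Agent.Helper40.EL
open Pool.Agent.Helper60.CS Pool.Agent.Helper82.TP Pool.Agent.Helper79.NF Pool.Agent.Helper31.NSB
open Pool.Agent.Helper98.FR Pool.Agent.Helper98.LV Pool.Agent.Helper71.AGR Pool.Agent.Helper30.UNS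

noncomputable section

open Sp QS

/-- nothing to prove -/
theorem FzE.of_nonpos {S : Sp} {α γ β : ℕ → Type} {VA : ∀ k, (S.F k).Ω → α k} {VB : ∀ k, (S.F k).Ω → γ k}
    {K : ∀ k, (S.F k).Ω → β k} {t y R z c : TR S} {a b p η : ℝ} (hb : b ≤ 0) : FzE VA VB K t y R z c a b p η := by
  intro E gA gB hE _ _ _ ζ hζ
  refine Eventually.of_forall fun k => ?_
  have h1 := (S.F k).pos
  have h2 := (CH_floor_rt (F := S.F k) (fun ω => ⌊(z.1 k ω - gB k ω * R.1 k ω) / S.dl 1 k⌋)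
    (fun ω => (K k ω, (⌊t.1 k ω / S.dl 1 k⌋, ⌊y.1 k ω / S.dl 1 k⌋))) (E k))
  refine le_trans ?_ h2.symm.le
  have h3 := ((S.F k).rest (E k)).e_nonneg (Setoid.ker (fun ω => ⌊(z.1 k ω - gB k ω * R.1 k ω) / S.dl 1 k⌋))
    (Setoid.ker (fun ω => (K k ω, (⌊t.1 k ω / S.dl 1 k⌋, ⌊y.1 k ω / S.dl 1 k⌋))) ⊓ (S.F k).Z)
  refine le_trans ?_ h3
  exact mul_nonpos_of_nonpos_of_nonneg (by linarith) h1.le

/-- a smaller bound -/
theorem FzE.mono {S : Sp} {α γ β : ℕ → Type} {VA : ∀ k, (S.F k).Ω → α k} {VB : ∀ k, (S.F k).Ω → γ k}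
    {K : ∀ k, (S.F k).Ω → β k} {t y R z c : TR S} {a b b' p η : ℝ} (h : FzE VA VB K t y R z c a b p η) (hb : b' ≤ b) :
    FzE VA VB K t y R z c a b' p η := by
  intro E gA gB hE h1 h2 h3 ζ hζ
  filter_upwards [h E gA gB hE h1 h2 h3 ζ hζ] with k hk
  refine le_trans ?_ hk
  exact mul_le_mul_of_nonneg_right (by linarith) (S.F k).pos.le

section sq

variable {S : Sp} {σ A : ℝ} {s : Sys S 3} {lamf etaf : ℝ → ℝ} {c w1 w : ℝ} {N : Scl σ A} (Q : Sq s lamf etaf c w1 w N)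

/-- exact fullness of all projections at the window `i`, error `δ` -/
def Hfz (j i : ℕ) (δ : ℝ) : Prop := ∀ he1 : 0 < Q.e j * (1 - N.ν i),
  H4P (U := (Q.X j).b.bd.Sj i (Q.e j * (1 - N.ν i)) he1) δ (QS.mk ((Q.X j).b.bd.tT i (Q.e j * (1 - N.ν i)) he1))
    (QS.mk ((Q.X j).b.bd.yT i (Q.e j * (1 - N.ν i)) he1)) (QS.mk ((Q.X j).b.bd.RT i (Q.e j * (1 - N.ν i)) he1))
    (QS.mk ((Q.X j).b.bd.zT i (Q.e j * (1 - N.ν i)) he1 ((Q.X j).b.bd.eta i) le_rfl))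

theorem fz_core_j (j : ℕ) {r r' : ℝ} (hr : r ∈ N.Sc) (hr' : r' ∈ N.Sc) {i : ℕ} (hi : r ≤ N.ν i)
    (he1 : 0 < Q.e j * (1 - N.ν i)) {iR iz : Fin 10} {cc : Fin 8 → ∀ k, (((Q.X j).b.M.sp).F k).Ω → ℝ}
    {aa : Fin 4 → ∀ k, (((Q.X j).b.M.sp).F k).Ω → ℝ} {β : ℝ} {A' : ∀ k, (((Q.X j).b.M.sp).F k).Ω → Prop} {K : ℕ → ℝ}
    (hz : ZRel (Q.X j).b.M.sp ((Q.X j).b.bd.V 0) ((Q.X j).b.bd.V i) (Q.e j) (Q.e j * (1 - N.ν i)) (Q.he j) he1
      ((Q.X j).b.ld.r10 0 (Q.e j) (Q.he j) (lvt etaf c (Q.ε j) (Q.e j)) (Cb.lvt_le (Q.hε j) (Q.he j) (Q.X j)) 0)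
      ((Q.X j).b.ld.r10 0 (Q.e j) (Q.he j) (lvt etaf c (Q.ε j) (Q.e j)) (Cb.lvt_le (Q.hε j) (Q.he j) (Q.X j)) 1)
      ((Q.X j).b.ld.r10 0 (Q.e j) (Q.he j) (lvt etaf c (Q.ε j) (Q.e j)) (Cb.lvt_le (Q.hε j) (Q.he j) (Q.X j)) iR)
      ((Q.X j).b.ld.r10 0 (Q.e j) (Q.he j) (lvt etaf c (Q.ε j) (Q.e j)) (Cb.lvt_le (Q.hε j) (Q.he j) (Q.X j)) iz)
      cc aa ((Q.X j).b.bd.tT i (Q.e j * (1 - N.ν i)) he1) ((Q.X j).b.bd.yT i (Q.e j * (1 - N.ν i)) he1)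
      ((Q.X j).b.bd.RT i (Q.e j * (1 - N.ν i)) he1)
      ((Q.X j).b.bd.zT i (Q.e j * (1 - N.ν i)) he1 ((Q.X j).b.bd.eta i) le_rfl) (N.ν i) β A' K)
    {δ : ℝ} (hδ : 0 ≤ δ) (h4 : Hfz Q j i δ) (ag : AgW (Q.H j) 0 r') {a' b p η : ℝ} (hp : 0 < p) (hη : 0 < η)
    (hη1 : η < 1 / 2) (hb1 : b ≤ 1 - N.ν i) (hb2 : b ≤ 1 - 2 * η - β)
    (c' : TR ((Q.X j).b.bd.Sj 0 (Q.e j) (Q.he j))) :
    FzE (S := Q.rin.inp.S j) (VAs (Q.rin.inp.H j) 0) (VBs (Q.rin.inp.H j) r') ((Q.rin.inp.H j).K r)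
      (Q.rin.inp.r10 0 j) (Q.rin.inp.r10 1 j) (Q.rin.inp.r10 iR j) (Q.rin.inp.r10 iz j) c' a' (b - δ) p η := by
  have he := Q.he j
  have hag : AgW (Q.rin.inp.H j) 0 r' := Q.rin.agw (j := j) N.zero_mem hr' ag
  have hee : Q.e j * (1 - N.ν i) ≤ Q.e j := by
    have h1 := N.nn i
    nlinarith
  have hVB : Bdd (S := (Q.X j).b.bd.Sj 0 (Q.e j) (Q.he j)) (VBs (Q.rin.inp.H j) r') :=
    Bdd.pair (Q.rin.bB.bdd j) (Q.rin.bdd hr' j)
  exact fzE_core (S := (Q.X j).b.M.sp) hz hδ hee (h4 he1) (W0 := (Q.H j).K 0) (W := (Q.H j).K r) (Q := Q.rin.E j)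
    (Q' := Q.rin.E j) hVB (by
      have h1 := (Q.X j).b.ld.k0 0 (Q.e j) (Q.he j) (lvt etaf c (Q.ε j) (Q.e j))
        (Cb.lvt_le (Q.hε j) (Q.he j) (Q.X j)) N.ix N.ix0
      filter_upwards [h1] with k hk ω ω' a b c d using hk ω ω' a b ⟨d, c⟩) (by
      refine Eventually.of_forall fun k ω ω' _ _ _ h => Quotient.sound ?_
      refine (Q.X j).b.nest _ _ ?_ k h
      show c + Q.e j * N.ν (N.ix r) ≤ c + Q.e j * N.ν i
      rw [N.ix_eq hr]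
      have := mul_le_mul_of_nonneg_left hi he.le
      linarith) hag hp hη hη1 hb1 hb2 c'

/-- the agreement at the windows `0` and `r'` -/
theorem sq_ag (hl1 : lamf c < 1) (he1 : etaf c < 1) : ∀ᶠ j in atTop, ∀ r' ∈ N.Sc, AgW (Q.H j) 0 r' := by
  filter_upwards [Q.small hl1 he1 1 one_pos] with j hj r' hr'
  obtain ⟨-, k2, k3⟩ := hj
  have ho := ofSys_bx (Q.X j).b
  have k2' : (Q.X j).b.bd.lam 0 + Q.e j ≤ 1 := by
    rw [Q.lam0 j]
    exact k2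
  exact ho.agW 0 (Q.he j) (Cb.lvt_le (Q.hε j) (Q.he j) (Q.X j)) N.ix k2' k3 (Q.q_ix0 j N.zero_mem)
    (Q.q_le j N.zero_mem hr' (N.Sc_nn hr'))

/-- a window slightly deeper than `r`, not the base window -/
theorem exists_win {σ A : ℝ} (N : Scl σ A) (hσ : 0 < σ) {r : ℝ} (hr : r ∈ N.Sc) {κ : ℝ} (hκ : 0 < κ) :
    ∃ i, i ≠ 0 ∧ r ≤ N.ν i ∧ N.ν i ≤ r + κ ∧ N.ν i ≤ σ := by
  by_cases h0 : r = 0
  · obtain ⟨q, hq0, hq1⟩ := exists_rat_btwn (lt_min hκ hσ)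
    have h1 := hq1.trans_le (min_le_left _ _)
    have h2 := hq1.trans_le (min_le_right _ _)
    obtain ⟨i, hi⟩ := N.rat q hq0 (lt_of_lt_of_le h2 N.σ_le)
    refine ⟨i, fun h => ?_, ?_, ?_, ?_⟩
    · rw [h, N.ν0] at hi
      linarith
    · rw [hi, h0]; exact hq0.le
    · rw [hi, h0]; linarith
    · rw [hi]; exact h2.le
  · have h1 := N.ix_eq hr
    refine ⟨N.ix r, fun h => h0 ?_, h1.ge, by rw [h1]; linarith, by rw [h1]; exact N.Sc_le hr⟩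
    rw [← h1, h, N.ν0]

/-- the window `i` in the space of the sequence -/
theorem sq_dn (j : ℕ) : (Q.X j).b.bd.Dn 0 (c + Q.e j * σ) := (Q.wnd j).dn

/-- FULLNESS OF THE PROJECTIONS at the sequence, `z` over `R` -/
theorem sq_fz (hh : HasDerivAt etaf w c) (hw1 : 1 ≤ w1) (hw : 1 ≤ w) (hσ : max w1 w * σ = 1)
    (hl1 : lamf c < 1) (he1 : etaf c < 1)
    (H4 : ∀ i, i ≠ 0 → N.ν i ≤ σ → N.ν i < 1 → ∀ δ : ℝ, 0 < δ → ∀ᶠ j in atTop, Hfz Q j i δ) :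
    ∀ r r' : N.Sc, ∀ p τ : ℚ, 0 < p → 0 < τ → ∃ η : ℚ, 0 < η ∧ ∀ᶠ j in atTop,
      Q.rin.inp.fzS2 w1 w false r r' τ p η j := by
  intro r r' p τ hp hτ
  have hτ' : (0 : ℝ) < τ := by exact_mod_cast hτ
  have hp' : (0 : ℝ) < p := by exact_mod_cast hp
  have hσ0 : 0 < σ := by
    by_contra h
    push Not at h
    have h1 : 0 < max w1 w := lt_of_lt_of_le one_pos (hw1.trans (le_max_left _ _))
    have := mul_nonpos_of_nonneg_of_nonpos h1.le h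
    linarith
  by_cases hb : 1 - w * (r : ℝ) - τ ≤ 0
  · exact ⟨1, one_pos, Eventually.of_forall fun j => FzE.of_nonpos hb⟩
  push Not at hb
  obtain ⟨i, hi0, hi1, hi2, hi3⟩ := exists_win N hσ0 r.2 (show 0 < (τ : ℝ) / (4 * w) by positivity)
  have hr0 := N.Sc_nn r.2
  have hwi : w * N.ν i ≤ w * r + τ / 4 := by
    have h1 := mul_le_mul_of_nonneg_left hi2 (show 0 ≤ w by linarith)
    have h2 : w * ((r : ℝ) + τ / (4 * w)) = w * r + τ / 4 := by field_simp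
    linarith
  have hν1 : N.ν i ≤ w * N.ν i := by
    have := mul_le_mul_of_nonneg_right hw (N.nn i)
    linarith
  have hνl : N.ν i < 1 := by linarith
  obtain ⟨η, hη0, hη1⟩ := exists_rat_btwn (show (0 : ℝ) < min ((τ : ℝ) / 16) (1 / 4) from
    lt_min (by positivity) (by norm_num))
  have hη2 := hη1.trans_le (min_le_left _ _)
  have hη3 := hη1.trans_le (min_le_right _ _)
  obtain ⟨e0, he0, g⟩ := incr_e hh hσ0.le (show (0 : ℝ) < τ / 32 by positivity)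
  refine ⟨η, by exact_mod_cast hη0, ?_⟩
  filter_upwards [H4 i hi0 hi3 hνl (τ / 2) (by positivity), sq_ag Q hl1 he1, Q.small hl1 he1 e0 he0,
    Q.ε0.eventually (gt_mem_nhds (show (0 : ℝ) < τ / 32 by positivity))] with j x1 x2 x3 x4
  have he := Q.he j
  have h1 : 0 < Q.e j * (1 - N.ν i) := mul_pos he (by linarith)
  have hq0 : (Q.X j).b.bd.q 0 = c := (Q.wnd j).q0
  have hqi : (Q.X j).b.bd.q i = c + Q.e j * N.ν i := rfl
  have hq : (Q.X j).b.bd.q i = (Q.X j).b.bd.q 0 + Q.e j * N.ν i := by rw [hqi, hq0]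
  have hq' : (Q.X j).b.bd.q 0 ≤ (Q.X j).b.bd.q i := by
    rw [hq]
    have := mul_nonneg he.le (N.nn i)
    linarith
  have hqb : (Q.X j).b.bd.q i ≤ c + Q.e j * σ := by
    rw [hqi]
    have := mul_le_mul_of_nonneg_left hi3 he.le
    linarith
  obtain ⟨A', K, hz⟩ := exists_zrel (he := he) (he1 := h1) (Q.X j).b.ld (sq_dn Q j) hq' hqb
    (Cb.lvt_le (Q.hε j) (Q.he j) (Q.X j)) hq (by ring)
  have hle : Q.e j ≤ e0 := x3.1
  have heta : (Q.X j).b.bd.eta i = etaf (c + N.ν i * Q.e j) := by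
    have h2 : (Q.X j).b.bd.eta i = etaf (c + Q.e j * N.ν i) := (Q.X j).eq i hi0
    rw [h2, mul_comm]
  have h2 := (abs_le.1 (g (Q.e j) he hle (N.ν i) (by rw [abs_of_nonneg (N.nn i)]; exact hi3))).2
  have hβ : ((Q.X j).b.bd.eta i - lvt etaf c (Q.ε j) (Q.e j)) / Q.e j ≤ w * N.ν i + τ / 16 := by
    rw [div_le_iff₀ he, heta]
    unfold lvt
    have h3 : Q.ε j * Q.e j ≤ τ / 32 * Q.e j := mul_le_mul_of_nonneg_right x4.le he.le
    have h4 : (w * N.ν i + τ / 16) * Q.e j = w * N.ν i * Q.e j + τ / 32 * Q.e j + τ / 32 * Q.e j := by ring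
    linarith
  have key := fz_core_j Q j r.2 r'.2 hi1 h1 hz (show (0 : ℝ) ≤ τ / 2 by positivity) x1 (x2 r' r'.2)
    (a' := (w - w1) * r) (b := 1 - w * r - τ / 2) hp' hη0 (by linarith) (by linarith) (by linarith)
    ((Q.rin.inp.fzc false r) j)
  refine FzE.mono key ?_
  show (1 - w * (r : ℝ)) - τ ≤ _
  linarith

/-- FULLNESS OF THE PROJECTIONS at the sequence, `R` over `z` -/
theorem sq_fz' (hl : HasDerivAt lamf w1 c) (hh : HasDerivAt etaf w c) (hw1 : 1 ≤ w1) (hw : 1 ≤ w) (hlt : w < w1)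
    (hσ : max w1 w * σ = 1) (hl1 : lamf c < 1) (he1 : etaf c < 1)
    (H4 : ∀ i, i ≠ 0 → N.ν i ≤ σ → N.ν i < 1 → ∀ δ : ℝ, 0 < δ → ∀ᶠ j in atTop, Hfz Q j i δ) :
    ∀ r r' : N.Sc, ∀ p τ : ℚ, 0 < p → 0 < τ → ∃ η : ℚ, 0 < η ∧ ∀ᶠ j in atTop,
      Q.rin.inp.fzS2 w1 w true r r' τ p η j := by
  intro r r' p τ hp hτ
  have hτ' : (0 : ℝ) < τ := by exact_mod_cast hτ
  have hp' : (0 : ℝ) < p := by exact_mod_cast hp
  have hσ0 : 0 < σ := by
    by_contra h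
    push Not at h
    have h1 : 0 < max w1 w := lt_of_lt_of_le one_pos (hw1.trans (le_max_left _ _))
    have := mul_nonpos_of_nonneg_of_nonpos h1.le h
    linarith
  by_cases hb : 1 - w1 * (r : ℝ) - τ ≤ 0
  · exact ⟨1, one_pos, Eventually.of_forall fun j => FzE.of_nonpos hb⟩
  push Not at hb
  obtain ⟨i, hi0, hi1, hi2, hi3⟩ := exists_win N hσ0 r.2 (show 0 < (τ : ℝ) / (4 * w1) by positivity)
  have hr0 := N.Sc_nn r.2
  have hν0 := N.nn i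
  have hwi : w1 * N.ν i ≤ w1 * r + τ / 4 := by
    have h1 := mul_le_mul_of_nonneg_left hi2 (show 0 ≤ w1 by linarith)
    have h2 : w1 * ((r : ℝ) + τ / (4 * w1)) = w1 * r + τ / 4 := by field_simp
    linarith
  have hν1 : N.ν i ≤ w1 * N.ν i := by
    have := mul_le_mul_of_nonneg_right hw1 (N.nn i)
    linarith
  have hνl : N.ν i < 1 := by linarith
  obtain ⟨η, hη0, hη1⟩ := exists_rat_btwn (show (0 : ℝ) < min ((τ : ℝ) / 16) (1 / 4) from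
    lt_min (by positivity) (by norm_num))
  have hη2 := hη1.trans_le (min_le_left _ _)
  have hη3 := hη1.trans_le (min_le_right _ _)
  obtain ⟨e0, he0, g⟩ := incr_e hh hσ0.le (show (0 : ℝ) < τ / 32 by positivity)
  obtain ⟨e2, he2, g2⟩ := incr_e hl hσ0.le (show (0 : ℝ) < τ / 32 by positivity)
  obtain ⟨e3, he3, g3⟩ := real_win hl hh hw1 hw hσ0.le (show (0 : ℝ) < τ / 64 by positivity)
  refine ⟨η, by exact_mod_cast hη0, ?_⟩
  filter_upwards [H4 i hi0 hi3 hνl (τ / 2) (by positivity), sq_ag Q hl1 he1,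
    Q.small hl1 he1 (min e0 (min e2 e3)) (lt_min he0 (lt_min he2 he3)),
    Q.ε0.eventually (gt_mem_nhds (show (0 : ℝ) < τ / 32 by positivity))] with j x1 x2 x3 x4
  have he := Q.he j
  have hεp := Q.hε j
  have h1 : 0 < Q.e j * (1 - N.ν i) := mul_pos he (by linarith)
  have hq0 : (Q.X j).b.bd.q 0 = c := (Q.wnd j).q0
  have hqi : (Q.X j).b.bd.q i = c + Q.e j * N.ν i := rfl
  have hq : (Q.X j).b.bd.q i = (Q.X j).b.bd.q 0 + Q.e j * N.ν i := by rw [hqi, hq0]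
  have hq' : (Q.X j).b.bd.q 0 ≤ (Q.X j).b.bd.q i := by
    rw [hq]
    have := mul_nonneg he.le (N.nn i)
    linarith
  have hqb : (Q.X j).b.bd.q i ≤ c + Q.e j * σ := by
    rw [hqi]
    have := mul_le_mul_of_nonneg_left hi3 he.le
    linarith
  have hle : Q.e j ≤ e0 := x3.1.trans (min_le_left _ _)
  have hle2 : Q.e j ≤ e2 := x3.1.trans ((min_le_right _ _).trans (min_le_left _ _))
  have hle3 : Q.e j ≤ e3 := x3.1.trans ((min_le_right _ _).trans (min_le_right _ _))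
  have heta : (Q.X j).b.bd.eta i = etaf (c + N.ν i * Q.e j) := by
    have h2 : (Q.X j).b.bd.eta i = etaf (c + Q.e j * N.ν i) := (Q.X j).eq i hi0
    rw [h2, mul_comm]
  have hlam : (Q.X j).b.bd.lam i = lamf (c + N.ν i * Q.e j) := by
    have h2 : (Q.X j).b.bd.lam i = lamf (c + Q.e j * N.ν i) := rfl
    rw [h2, mul_comm]
  have hlam0 := Q.lam0 j
  have h2 := (abs_le.1 (g (Q.e j) he hle (N.ν i) (by rw [abs_of_nonneg (N.nn i)]; exact hi3))).2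
  have h3 := (abs_le.1 (g2 (Q.e j) he hle2 (N.ν i) (by rw [abs_of_nonneg (N.nn i)]; exact hi3))).2
  have hmax : max (w1 - w) 0 = w1 - w := max_eq_left (by linarith)
  have hεe : 0 < Q.ε j * Q.e j := mul_pos hεp he
  have hεe' : Q.ε j * Q.e j ≤ τ / 32 * Q.e j := mul_le_mul_of_nonneg_right x4.le he.le
  have hτe : 0 < (τ : ℝ) * Q.e j := mul_pos hτ' he
  obtain ⟨th, hth⟩ : ∃ th, th = etaf c - lamf c - (w1 - w) * N.ν i * Q.e j - 3 / 4 * (τ / 64) * Q.e j -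
    Q.ε j * Q.e j / 8 := ⟨_, rfl⟩
  have hl0 : 0 ≤ lamf c := by
    rw [← hlam0]
    exact (Q.X j).b.bd.lam0 0
  have hwν : 0 ≤ (w1 - w) * N.ν i * Q.e j := mul_nonneg (mul_nonneg (by linarith) hν0) he.le
  have hth1 : th ≤ 1 := by
    rw [hth]
    linarith
  have hmsh : 0 < msh w1 w (τ / 64) (Q.e j) := by
    unfold msh
    have : 0 < w1 + w := by linarith
    positivity
  have hsh := ((Q.X j).b.bd.sheet (i0 := 0) (i := i) (b := (Q.X j).b.bd.q i) (th := th)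
    (fun a a' b1 b2 b3 => sq_dn Q j a a' b1 b2 (b3.trans hqb)) hq' le_rfl hmsh hth1 (by
      intro l l' b1 b2 b3 b4
      have h5 := (g3 (Q.e j) he hle3).2 (N.ν i) hν0 hi3 ((Q.X j).b.bd.q l) ((Q.X j).b.bd.q l')
        (hq0.ge.trans b1) b2 (b3.trans hqi.le) b4
      have h6 := (Q.wnd j).eta l
      have h7 := (Q.wnd j).lam l'
      rw [hmax] at h5
      rw [h7, hth]
      linarith)).1
  obtain ⟨β, hβ⟩ : ∃ β, β = w1 * N.ν i + τ / 16 := ⟨_, rfl⟩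
  obtain ⟨A', K, cc, aa, hz⟩ := exists_zrel' (he := he) (he1 := h1) (Q.X j).b.ld (sq_dn Q j) hq' hqb
    (Cb.lvt_le (Q.hε j) (Q.he j) (Q.X j)) hq (by ring) (β := β) hsh hth1 (by
      rw [hlam, hlam0, hβ]
      have h5 : Q.e j * (w1 * N.ν i + τ / 16) = w1 * N.ν i * Q.e j + τ / 32 * Q.e j + τ / 32 * Q.e j := by ring
      linarith) (by
      rw [heta, hlam0, hβ, hth]
      have h5 : Q.e j * (w1 * N.ν i + τ / 16) = w * N.ν i * Q.e j + (w1 - w) * N.ν i * Q.e j + τ / 16 * Q.e j := by ring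
      linarith)
  have key := fz_core_j Q j r.2 r'.2 hi1 h1 hz (show (0 : ℝ) ≤ τ / 2 by positivity) x1 (x2 r' r'.2)
    (a' := (w1 - w) * r) (b := 1 - w1 * r - τ / 2) hp' hη0 (by linarith) (by linarith) (by linarith)
    ((Q.rin.inp.fzc true r) j)
  refine FzE.mono key ?_
  show (1 - w1 * (r : ℝ)) - τ ≤ _
  linarith

end sq

end

end Pool.Agent.Helper80.HCI
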