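import Pool.Agent.Helper80.HCI.Cce

/-! The output of the flat and the Heisenberg corners (literal form) as a finite statement, and its passage from the
diagonal back to the spaces of the sequence. -/

set_option autoImplicit false

namespace Pool.Agent.Helper80.HCI

open Finset Filter Topology Pool.Agent.Helper69.RK Pool.Agent.Helper31.EC Pool.Agent.Helper40.EL
open Pool.Agent.Helper60.CS Pool.Agent.Helper82.TP Pool.Agent.Helper79.NF Pool.Agent.Helper31.NSB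
open Pool.Agent.Helper57.TA (sc scT ev_scT mem_of_sc_mul sc_mul_mem)
open Pool.Agent.Helper3.LF (Mon)

noncomputable section

open Sp QS

/-- real box coordinates of a window (`q = t y R z ..`, `c` = frames) -/
def bxr (n w1 s : ℝ) (q : Fin 10 → ℝ) (c : Fin 9 → ℝ) : Fin 3 → ℝ :=
  ![(q 0 - c 0) / 2 ^ (-(s * n)), (q 1 - c 1) / 2 ^ (-(s * n)),
    (q 2 - (c 2 + c 3 * q 0 + c 4 * q 1)) / 2 ^ (-(w1 * s * n))]

/-- distance to the sheet -/
def shr {D : ℕ} (n w1 w s : ℝ) (q : Fin 10 → ℝ) (c : Fin 9 → ℝ) (cB : Mon 3 D → ℝ) : ℝ :=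
  q 3 - (c 5 + c 6 * q 0 + c 7 * q 1 + c 8 * q 2) -
    2 ^ (-(w * s * n)) * ∑ a, cB a * ∏ i, bxr n w1 s q c i ^ (a.1 i : ℕ)

/-- THE OUTPUT, finite form: box coordinates of the window `s0` (frames `c`), literal variables with the label `K` of the
window `s` -/
def OLf (F : FSp) {α γ β : Type} (VA : F.Ω → α) (VB : F.Ω → γ) (K : F.Ω → β) (q : Fin 10 → F.Ω → ℝ)
    (c : Fin 9 → F.Ω → ℝ) (w1 w : ℝ) (D : ℕ) (s0 s v p η : ℝ) : Prop :=
  ∃ (E : F.Ω → Prop) (cA cB : Mon 3 D → F.Ω → ℝ), p ≤ F.pb E ∧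
    (∀ a, FLit F (fun ω => (VA ω, K ω)) (cA a)) ∧ (∀ a, FLit F (fun ω => (VB ω, K ω)) (cB a)) ∧
    ∀ ω, F.μ ω ≠ 0 → E ω → (∀ a, |cA a ω| ≤ 2 ^ (η * F.n)) ∧ (∀ a, |cB a ω| ≤ 2 ^ (η * F.n)) ∧
      (∀ a, |cA a ω - cB a ω| ≤ 2 ^ (-((w * (s - s0) + v) * F.n))) ∧
      |shr F.n w1 w s0 (fun i => q i ω) (fun i => c i ω) fun a => cB a ω| ≤ 2 ^ (-((w * s + v) * F.n))

/-! ### tools -/

theorem typ_fin {S : Sp} {ι : Type} (t : Finset ι) (E : ι → ∀ k, (S.F k).Ω → Prop)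
    (h : ∀ i ∈ t, Typ (S := S) (E i)) : Typ (S := S) (fun k ω => ∀ i ∈ t, E i k ω) := by
  classical
  induction t using Finset.induction_on with
  | empty => exact Typ_true.mono (Eventually.of_forall fun k ω _ _ i hi => absurd hi (Finset.notMem_empty i))
  | insert a t ha ih =>
    have h1 := (h a (Finset.mem_insert_self a t)).and (ih fun i hi => h i (Finset.mem_insert_of_mem hi))
    refine h1.mono (Eventually.of_forall fun k ω _ h2 i hi => ?_)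
    rcases Finset.mem_insert.mp hi with rfl | h3
    · exact h2.1
    · exact h2.2 i h3

theorem ev_sum' {S : Sp} {ι : Type*} (t : Finset ι) (f : ι → TR S) (k : ℕ) (ω : (S.F k).Ω) :
    TR.ev (∑ i ∈ t, f i) k ω = ∑ i ∈ t, TR.ev (f i) k ω := by
  classical
  induction t using Finset.induction_on with
  | empty => rw [Finset.sum_empty, Finset.sum_empty]; rfl
  | insert a t ha ih => rw [Finset.sum_insert ha, Finset.sum_insert ha, TR.ev_add, ih]

theorem ev_prod' {S : Sp} {ι : Type*} (t : Finset ι) (f : ι → TR S) (k : ℕ) (ω : (S.F k).Ω) :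
    TR.ev (∏ i ∈ t, f i) k ω = ∏ i ∈ t, TR.ev (f i) k ω := by
  classical
  induction t using Finset.induction_on with
  | empty => rw [Finset.prod_empty, Finset.prod_empty]; rfl
  | insert a t ha ih => rw [Finset.prod_insert ha, Finset.prod_insert ha, TR.ev_mul, ih]

theorem ev_pow' {S : Sp} (f : TR S) (n k : ℕ) (ω : (S.F k).Ω) : TR.ev (f ^ n) k ω = TR.ev f k ω ^ n := by
  induction n with
  | zero => rw [pow_zero, pow_zero]; rfl
  | succ n ih => rw [pow_succ, pow_succ, TR.ev_mul, ih]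

/-- division of a small function by the scale -/
theorem box_fn {S : Sp} (f g : TR S) {u : ℝ} (hu : 0 ≤ u) (hu1 : u ≤ 1) (h : QS.mk f = sc S u * QS.mk g) :
    ∃ b : TR S, Typ (S := S) (fun k ω => TR.ev b k ω = TR.ev f k ω / S.dl u k) ∧
      QS.mk b - QS.mk g ∈ QS.Id S (1 - u) := by
  classical
  have h1 : TR.Ag 1 f (scT S u * g) := by
    rw [← QS.mk_eq, map_mul]
    exact h
  obtain ⟨E, K, hE, hK, hh⟩ := h1
  obtain ⟨G, hG, hg⟩ := g.2
  have key : Typ (S := S) (fun k ω => |TR.ev f k ω / S.dl u k| ≤ G k + K k) := by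
    refine hE.mono ?_
    filter_upwards [hh, hg, hK.1] with k h2 h3 h4 ω hω h5
    have h6 := h2 ω hω h5
    rw [TR.ev_mul, ev_scT hu] at h6
    have hd := S.dl_pos u k
    have h7 : |TR.ev f k ω / S.dl u k - TR.ev g k ω| ≤ K k := by
      have e1 : TR.ev f k ω / S.dl u k - TR.ev g k ω = (TR.ev f k ω - S.dl u k * TR.ev g k ω) / S.dl u k := by
        field_simp
      rw [e1, abs_div, abs_of_pos hd, div_le_iff₀ hd]
      exact h6.trans (mul_le_mul_of_nonneg_left (S.dl_anti hu1 k) h4)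
    have h8 : |TR.ev g k ω| ≤ G k := h3 ω hω
    calc |TR.ev f k ω / S.dl u k| = |(TR.ev f k ω / S.dl u k - TR.ev g k ω) + TR.ev g k ω| := by
          rw [sub_add_cancel]
      _ ≤ _ := (abs_add_le _ _).trans (by linarith)
  obtain ⟨b, hb⟩ : ∃ b : TR S, ∀ k ω, TR.ev b k ω =
      if |TR.ev f k ω / S.dl u k| ≤ G k + K k then TR.ev f k ω / S.dl u k else 0 :=
    ⟨⟨fun k ω => if |TR.ev f k ω / S.dl u k| ≤ G k + K k then TR.ev f k ω / S.dl u k else 0, fun k => G k + K k,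
      hG.add hK, by
        filter_upwards [hG.1, hK.1] with k a b ω _
        split_ifs with h
        · exact h
        · rw [abs_zero]; exact add_nonneg a b⟩, fun _ _ => rfl⟩
  have hbt : Typ (S := S) (fun k ω => TR.ev b k ω = TR.ev f k ω / S.dl u k) := by
    refine key.mono (Eventually.of_forall fun k ω _ h2 => ?_)
    rw [hb, if_pos h2]
  refine ⟨b, hbt, ?_⟩
  have h2 : QS.mk f = sc S u * QS.mk b := by
    unfold sc
    rw [← map_mul, QS.mk_eq]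
    refine ⟨_, fun _ => 0, hbt, S.Sub_const le_rfl, Eventually.of_forall fun k ω _ h3 => ?_⟩
    rw [TR.ev_mul, ev_scT hu, h3, mul_div_cancel₀ _ (S.dl_pos u k).ne', sub_self, abs_zero, zero_mul]
  apply mem_of_sc_mul hu le_rfl
  rw [mul_sub, ← h2, h, sub_self]
  exact Ideal.zero_mem _

/-- polynomials of functions which agree up to a level -/
theorem poly_congr {S : Sp} {D : ℕ} (I : Ideal (QS S)) (c : Mon 3 D → QS S) (x y : Fin 3 → QS S)
    (h : ∀ i, x i - y i ∈ I) : ∑ a, c a * ∏ i, x i ^ (a.1 i : ℕ) - ∑ a, c a * ∏ i, y i ^ (a.1 i : ℕ) ∈ I := by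
  rw [← Ideal.Quotient.eq_zero_iff_mem, map_sub, sub_eq_zero]
  simp only [map_sum, map_mul, map_prod, map_pow]
  have h1 : ∀ i, Ideal.Quotient.mk I (x i) = Ideal.Quotient.mk I (y i) := fun i => Ideal.Quotient.eq.mpr (h i)
  simp only [h1]

/-- FINITE FORM of the output -/
theorem olf_of_outl {T : Sp} (H : RD T) (f : FR T) (q : Fin 10 → TR T) (hq : ∀ i, QS.mk (q i) = b10 H i)
    (c : Fin 9 → TR T) {r r' : ℝ} (hc : ∀ i, QS.mk (c i) = f9 f r i) {w1 w v v' : ℝ} {D : ℕ} (hr : 0 ≤ r)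
    (hw1 : 1 ≤ w1) (hw : 0 ≤ w) (hv' : v' < v) (hv1 : v' < 1 - (w1 * r + w * (r' - r))) (hv0' : 0 < v')
    (h : OutL H f w1 w D r r' v) :
    ∃ p : ℚ, 0 < p ∧ ∀ η : ℝ, 0 < η → ∀ᶠ k in UF, OLf (T.F k) (H.VA k) (H.VB k) (H.K r' k) (fun i => (q i).1 k)
      (fun i => (c i).1 k) w1 w D r r' v' p η := by
  classical
  obtain ⟨hv0, hrr', hwv, E, hE, cA, cB, g, hA, hB, hAB, hbox, hz⟩ := h
  choose gA hgA lA using hA
  choose gB hgB lB using hB
  have hwr : 0 ≤ w * r := mul_nonneg hw hr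
  have hwd : 0 ≤ w * (r' - r) := mul_nonneg hw (by linarith)
  have hwd' : w * (r' - r) = w * r' - w * r := mul_sub _ _ _
  have hr1 : w1 * r < 1 := by linarith
  have hrr : r ≤ w1 * r := by nlinarith
  have hv11 : w * (r' - r) + v ≤ 1 := by linarith
  -- box coordinates
  obtain ⟨b0, hb0, hb0'⟩ := box_fn (q 0 - c 0) (rep (g 0)) hr (by linarith) (by
    rw [map_sub, hq, hc, mk_rep]
    exact hbox.1)
  obtain ⟨b1, hb1, hb1'⟩ := box_fn (q 1 - c 1) (rep (g 1)) hr (by linarith) (by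
    rw [map_sub, hq, hc, mk_rep]
    exact hbox.2.1)
  obtain ⟨b2, hb2, hb2'⟩ := box_fn (q 2 - (c 2 + c 3 * q 0 + c 4 * q 1)) (rep (g 2))
    (show (0 : ℝ) ≤ w1 * r from mul_nonneg (by linarith) hr) hr1.le (by
    rw [map_sub, map_add, map_add, map_mul, map_mul, hq, hq, hq, hc, hc, hc, mk_rep]
    exact hbox.2.2)
  rw [mk_rep] at hb0' hb1' hb2'
  obtain ⟨b, hb⟩ : ∃ b : Fin 3 → TR T, b = ![b0, b1, b2] := ⟨_, rfl⟩
  have hbI : ∀ i, QS.mk (b i) - g i ∈ QS.Id T (1 - w1 * r) := by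
    intro i
    rw [hb]
    fin_cases i
    · exact QS.Id_anti (by linarith) hb0'
    · exact QS.Id_anti (by linarith) hb1'
    · exact hb2'
  have hbT : Typ (S := T) (fun k ω => ∀ i, TR.ev (b i) k ω =
      bxr (T.F k).n w1 r (fun i => (q i).1 k ω) (fun i => (c i).1 k ω) i) := by
    refine ((hb0.and hb1).and hb2).mono (Eventually.of_forall fun k ω _ h2 i => ?_)
    rw [hb]
    fin_cases i
    · exact h2.1.1
    · exact h2.1.2
    · exact h2.2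
  -- the sheet
  obtain ⟨P, hP⟩ : ∃ P : TR T, P = q 3 - (c 5 + c 6 * q 0 + c 7 * q 1 + c 8 * q 2) -
    scT T (w * r) * ∑ a, gB a * ∏ i, b i ^ (a.1 i : ℕ) := ⟨_, rfl⟩
  obtain ⟨u, hu, huv, hu1⟩ : ∃ u, v' < u ∧ u ≤ v ∧ u ≤ 1 - (w1 * r + w * (r' - r)) :=
    ⟨min v (1 - (w1 * r + w * (r' - r))), lt_min hv' hv1, min_le_left _ _, min_le_right _ _⟩
  have hPm : QS.rest E hE (QS.mk P) ∈ QS.Id (T.rest E) (w * r' + u) := by
    have e1 : QS.mk P = H.z - (f.z0 r + f.k0 r * H.t + f.k1 r * H.y + f.c r * H.R) -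
        sc T (w * r) * ∑ a, cB a * ∏ i, g i ^ (a.1 i : ℕ) -
        sc T (w * r) * (∑ a, cB a * ∏ i, QS.mk (b i) ^ (a.1 i : ℕ) - ∑ a, cB a * ∏ i, g i ^ (a.1 i : ℕ)) := by
      have e2 : QS.mk P = QS.mk (q 3) - (QS.mk (c 5) + QS.mk (c 6) * QS.mk (q 0) + QS.mk (c 7) * QS.mk (q 1) +
          QS.mk (c 8) * QS.mk (q 2)) - sc T (w * r) * ∑ a, cB a * ∏ i, QS.mk (b i) ^ (a.1 i : ℕ) := by
        rw [hP]
        simp only [map_sub, map_add, map_mul, map_sum, map_prod, map_pow, hgB]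
        rfl
      rw [e2, hq, hq, hq, hq, hc, hc, hc, hc]
      show H.z - (f.z0 r + f.k0 r * H.t + f.k1 r * H.y + f.c r * H.R) -
        sc T (w * r) * ∑ a, cB a * ∏ i, QS.mk (b i) ^ (a.1 i : ℕ) = _
      ring
    rw [e1, map_sub]
    apply Ideal.sub_mem
    · exact QS.Id_anti (by linarith) hz
    · have h3 := sc_mul_mem (S := T) (u := w * r) hwr (poly_congr (QS.Id T (w * (r' - r) + u)) cB (fun i => QS.mk (b i)) g
        fun i => QS.Id_anti (by linarith) (hbI i))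
      have e3 : w * r + (w * (r' - r) + u) = w * r' + u := by ring
      rw [e3] at h3
      exact Pool.Agent.Helper82.TP.rest_mem_Id E hE h3
  rw [QS.rest_mk, Pool.Agent.Helper82.TP.mk_mem_Id', min_eq_left (by linarith : w * r' + u ≤ 1)] at hPm
  obtain ⟨E3, K3, hE3, hK3, h3⟩ := hPm
  -- agreement
  have hAB' : ∀ a, TR.Ag (w * (r' - r) + v) (TR.rest E (gA a - gB a)) 0 := by
    intro a
    have h4 := hAB a
    rw [← hgA, ← hgB, ← map_sub, QS.rest_mk, Pool.Agent.Helper82.TP.mk_mem_Id', min_eq_left hv11] at h4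
    exact h4
  choose E2 K2 hE2 hK2 h2 using hAB'
  have bA : ∀ a, ∃ K : ℕ → ℝ, T.Sub K ∧ ∀ᶠ k in UF, ∀ ω, (T.F k).μ ω ≠ 0 → |(gA a).1 k ω| ≤ K k := fun a => (gA a).2
  have bB : ∀ a, ∃ K : ℕ → ℝ, T.Sub K ∧ ∀ᶠ k in UF, ∀ ω, (T.F k).μ ω ≠ 0 → |(gB a).1 k ω| ≤ K k := fun a => (gB a).2
  choose KA hKA hA1 using bA
  choose KB hKB hB1 using bB
  -- the event
  obtain ⟨X, hX⟩ : ∃ X : ∀ k, ((T.rest E).F k).Ω → Prop, X = fun k ω =>
      ((∀ i, TR.ev (b i) k ω = bxr (T.F k).n w1 r (fun i => (q i).1 k ω) (fun i => (c i).1 k ω) i) ∧ E3 k ω) ∧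
      ∀ a ∈ (Finset.univ : Finset (Mon 3 D)), E2 a k ω := ⟨_, rfl⟩
  have hXT : Typ (S := T.rest E) X := by
    rw [hX]
    exact ((hbT.rest E hE).and hE3).and (typ_fin (S := T.rest E) _ E2 fun a _ => hE2 a)
  have hEE : ∀ᶠ k in UF, ul (T.pr E) / 4 ≤ (T.F k).pb (fun ω => E k ω ∧ X k ω) := by
    have h4 := ul_pr_typ _ hXT
    have h5 : ∀ᶠ k in UF, (1 : ℝ) / 2 ≤ (T.rest E).pr X k := by
      have h6 := pr_half' (E := X) (by rw [h4]; norm_num)
      rw [h4] at h6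
      exact h6
    filter_upwards [pr_half' hE, h5] with k h6 h7
    refine le_trans ?_ (pb_and _ _ _)
    have h8 : (1 : ℝ) / 2 ≤ ((T.F k).rest (E k)).pb (X k) := h7
    have h9 : ul (T.pr E) / 2 ≤ (T.F k).pb (E k) := h6
    nlinarith
  obtain ⟨p, hp1, hp2⟩ := exists_rat_btwn (show 0 < ul (T.pr E) / 4 by linarith)
  refine ⟨p, by exact_mod_cast hp1, fun η hη => ?_⟩
  have hlA : ∀ᶠ k in UF, ∀ a, ∀ ω ω', (T.F k).μ ω ≠ 0 → (T.F k).μ ω' ≠ 0 → (T.F k).Z ω ω' →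
      VAs H r' k ω = VAs H r' k ω' → TR.ev (gA a) k ω = TR.ev (gA a) k ω' := (eventually_all).mpr lA
  have hlB : ∀ᶠ k in UF, ∀ a, ∀ ω ω', (T.F k).μ ω ≠ 0 → (T.F k).μ ω' ≠ 0 → (T.F k).Z ω ω' →
      VBs H r' k ω = VBs H r' k ω' → TR.ev (gB a) k ω = TR.ev (gB a) k ω' := (eventually_all).mpr lB
  have h2' : ∀ᶠ k in UF, ∀ a, ∀ ω, ((T.rest E).F k).μ ω ≠ 0 → E2 a k ω →
      |TR.ev (TR.rest E (gA a - gB a)) k ω - TR.ev (0 : TR (T.rest E)) k ω| ≤
        K2 a k * (T.rest E).dl (w * (r' - r) + v) k :=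
    (eventually_all).mpr h2
  have hA2 : ∀ᶠ k in UF, ∀ a, ∀ ω, (T.F k).μ ω ≠ 0 → |(gA a).1 k ω| ≤ KA a k := (eventually_all).mpr hA1
  have hB2 : ∀ᶠ k in UF, ∀ a, ∀ ω, (T.F k).μ ω ≠ 0 → |(gB a).1 k ω| ≤ KB a k := (eventually_all).mpr hB1
  have sA : ∀ᶠ k in UF, ∀ a, KA a k + 2 ≤ 2 ^ (η * (T.F k).n) := (eventually_all).mpr fun a => (hKA a).eventually_le hη
  have sB : ∀ᶠ k in UF, ∀ a, KB a k + 2 ≤ 2 ^ (η * (T.F k).n) := (eventually_all).mpr fun a => (hKB a).eventually_le hη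
  have s2 : ∀ᶠ k in UF, ∀ a, K2 a k + 2 ≤ 2 ^ ((v - v') * ((T.rest E).F k).n) :=
    (eventually_all).mpr fun a => (hK2 a).eventually_le (by linarith)
  filter_upwards [hEE, hlA, hlB, h2', h3, hA2, hB2, sA, sB, s2, hK3.eventually_le (show (0 : ℝ) < u - v' by linarith)]
    with k x1 x2 x3 x4 x5 x6 x7 x8 x9 x10 x11
  refine ⟨fun ω => E k ω ∧ X k ω, fun a => (gA a).1 k, fun a => (gB a).1 k, hp2.le.trans x1, fun a ω ω' a1 a2 a3 a4 =>
    x2 a ω ω' a1 a2 a3 a4, fun a ω ω' a1 a2 a3 a4 => x3 a ω ω' a1 a2 a3 a4, ?_⟩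
  intro ω hω hEω
  have hω' := (T.F k).rest_supp' (E k) ω hω hEω.1
  have hXω := hEω.2
  rw [hX] at hXω
  refine ⟨fun a => (x6 a ω hω).trans (le_trans (by linarith) (x8 a)), fun a =>
    (x7 a ω hω).trans (le_trans (by linarith) (x9 a)), fun a => ?_, ?_⟩
  · have y1 : |(gA a).1 k ω - (gB a).1 k ω - 0| ≤ K2 a k * T.dl (w * (r' - r) + v) k :=
      x4 a ω hω' (hXω.2 a (Finset.mem_univ a))
    rw [sub_zero] at y1
    refine y1.trans ?_
    have y2 : K2 a k ≤ 2 ^ ((v - v') * (T.F k).n) := le_trans (by linarith) (x10 a)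
    refine (mul_le_mul_of_nonneg_right y2 (T.dl_pos _ k).le).trans (le_of_eq ?_)
    show (2 : ℝ) ^ ((v - v') * (T.F k).n) * 2 ^ (-((w * (r' - r) + v) * (T.F k).n)) =
      2 ^ (-((w * (r' - r) + v') * (T.F k).n))
    rw [← Real.rpow_add (by norm_num : (0 : ℝ) < 2)]
    congr 1
    ring
  · have y1 : |TR.ev P k ω - 0| ≤ K3 k * T.dl (w * r' + u) k := x5 ω hω' hXω.1.2
    rw [sub_zero] at y1
    have y2 : TR.ev P k ω = shr (T.F k).n w1 w r (fun i => (q i).1 k ω) (fun i => (c i).1 k ω)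
        fun a => (gB a).1 k ω := by
      rw [hP, TR.ev_sub, TR.ev_mul, ev_scT hwr, ev_sum']
      unfold shr
      have e1 : TR.ev (q 3 - (c 5 + c 6 * q 0 + c 7 * q 1 + c 8 * q 2)) k ω = (q 3).1 k ω -
        ((c 5).1 k ω + (c 6).1 k ω * (q 0).1 k ω + (c 7).1 k ω * (q 1).1 k ω + (c 8).1 k ω * (q 2).1 k ω) := rfl
      rw [e1]
      congr 1
      congr 1
      apply Finset.sum_congr rfl
      intro a _
      rw [TR.ev_mul, ev_prod']
      congr 1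
      apply Finset.prod_congr rfl
      intro i _
      rw [ev_pow', hXω.1.1 i]
    rw [← y2]
    refine y1.trans ?_
    have y3 : K3 k ≤ 2 ^ ((u - v') * (T.F k).n) := le_trans (by linarith) x11
    refine (mul_le_mul_of_nonneg_right y3 (T.dl_pos _ k).le).trans (le_of_eq ?_)
    show (2 : ℝ) ^ ((u - v') * (T.F k).n) * 2 ^ (-((w * r' + u) * (T.F k).n)) = 2 ^ (-((w * r' + v') * (T.F k).n))
    rw [← Real.rpow_add (by norm_num : (0 : ℝ) < 2)]
    congr 1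
    ring

/-! ### back to the spaces of the sequence -/

/-- the output at the space `j`, finite form -/
def Inp.olf {Sc : Set ℝ} (J : Inp Sc) (w1 w : ℝ) (D : ℕ) (r r' : Sc) (v p η : ℝ) (j k : ℕ) : Prop :=
  OLf ((J.S j).F k) ((J.H j).VA k) ((J.H j).VB k) ((J.H j).K r' k) (fun i => (J.r10 i j).1 k)
    (fun i => (J.r9 i r j).1 k) w1 w D r r' v p η

/-- the list of the finite statements of the outputs -/
def Inp.olL {Sc : Set ℝ} (J : Inp Sc) (w1 w : ℝ) (i : ℕ × Sc × Sc × ℚ × ℚ × ℚ) : ℕ → ℕ → Prop :=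
  J.olf w1 w i.1 i.2.1 i.2.2.1 i.2.2.2.1 i.2.2.2.2.1 i.2.2.2.2.2

/-- THE OUTPUT at a space of the sequence: real functions of size at most `2 ^ (η n)` -/
def OutE {S : Sp} (H : RD S) (q : Fin 10 → TR S) (c : Fin 9 → TR S) (w1 w : ℝ) (D : ℕ) (s0 s v p η : ℝ) : Prop :=
  ∃ (E : ∀ k, (S.F k).Ω → Prop) (cA cB : Mon 3 D → ∀ k, (S.F k).Ω → ℝ), p ≤ ul (S.pr E) ∧
    (∀ a, ∀ᶠ k in UF, FLit (S.F k) (VAs H s k) (cA a k)) ∧ (∀ a, ∀ᶠ k in UF, FLit (S.F k) (VBs H s k) (cB a k)) ∧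
    ∀ᶠ k in UF, ∀ ω, (S.F k).μ ω ≠ 0 → E k ω → (∀ a, |cA a k ω| ≤ 2 ^ (η * (S.F k).n)) ∧
      (∀ a, |cB a k ω| ≤ 2 ^ (η * (S.F k).n)) ∧
      (∀ a, |cA a k ω - cB a k ω| ≤ 2 ^ (-((w * (s - s0) + v) * (S.F k).n))) ∧
      |shr (S.F k).n w1 w s0 (fun i => (q i).1 k ω) (fun i => (c i).1 k ω) fun a => cB a k ω| ≤
        2 ^ (-((w * s + v) * (S.F k).n))

/-- choice of the functions -/
theorem outE_of_olf {S : Sp} {H : RD S} {q : Fin 10 → TR S} {c : Fin 9 → TR S} {w1 w : ℝ} {D : ℕ} {s0 s v p η : ℝ}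
    (h : ∀ᶠ k in UF, OLf (S.F k) (H.VA k) (H.VB k) (H.K s k) (fun i => (q i).1 k) (fun i => (c i).1 k) w1 w D s0 s v p η) :
    OutE H q c w1 w D s0 s v p η := by
  classical
  have h1 : ∀ k, ∃ (E : (S.F k).Ω → Prop) (cA cB : Mon 3 D → (S.F k).Ω → ℝ),
      (OLf (S.F k) (H.VA k) (H.VB k) (H.K s k) (fun i => (q i).1 k) (fun i => (c i).1 k) w1 w D s0 s v p η →
        p ≤ (S.F k).pb E ∧
        (∀ a, FLit (S.F k) (fun ω => (H.VA k ω, H.K s k ω)) (cA a)) ∧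
        (∀ a, FLit (S.F k) (fun ω => (H.VB k ω, H.K s k ω)) (cB a)) ∧
        ∀ ω, (S.F k).μ ω ≠ 0 → E ω → (∀ a, |cA a ω| ≤ 2 ^ (η * (S.F k).n)) ∧
          (∀ a, |cB a ω| ≤ 2 ^ (η * (S.F k).n)) ∧
          (∀ a, |cA a ω - cB a ω| ≤ 2 ^ (-((w * (s - s0) + v) * (S.F k).n))) ∧
          |shr (S.F k).n w1 w s0 (fun i => (q i).1 k ω) (fun i => (c i).1 k ω) fun a => cB a ω| ≤
            2 ^ (-((w * s + v) * (S.F k).n))) := by
    intro k
    by_cases h2 : OLf (S.F k) (H.VA k) (H.VB k) (H.K s k) (fun i => (q i).1 k) (fun i => (c i).1 k) w1 w D s0 s v p η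
    · obtain ⟨E, cA, cB, h3⟩ := h2
      exact ⟨E, cA, cB, fun _ => h3⟩
    · exact ⟨fun _ => True, fun _ _ => 0, fun _ _ => 0, fun h3 => absurd h3 h2⟩
  choose E cA cB h2 using h1
  refine ⟨E, fun a k => cA k a, fun a k => cB k a, const_le_ul (UB_pr E) (h.mono fun k hk => (h2 k hk).1),
    fun a => h.mono fun k hk => (h2 k hk).2.1 a, fun a => h.mono fun k hk => (h2 k hk).2.2.1 a,
    h.mono fun k hk => (h2 k hk).2.2.2⟩

/-- BACK: the literal output of the diagonal gives the output in spaces of the sequence with large index, for every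
precision `η > 0` (`p` and `v'` do not depend on `η`) -/
theorem Dg.outl_back {Sc : Set ℝ} {J : Inp Sc} {Λ : Type} {lv : Λ → ℝ} (s : Dg J lv) {w1 w v : ℝ} {D : ℕ}
    (hl : ∀ i, ∀ᶠ k in UF, (J.olL w1 w i (s.J k) k ↔ ∀ᶠ k' in UF, J.olL w1 w i (s.J k) k'))
    {r r' : ℝ} (hr : r ∈ Sc) (hr' : r' ∈ Sc) (hr0 : 0 ≤ r) (hw1 : 1 ≤ w1) (hw : 0 ≤ w) (hr1 : w1 * r + w * (r' - r) < 1)
    (h : OutL s.HT s.fT w1 w D r r' v) :
    ∃ v' p : ℚ, 0 < v' ∧ 0 < p ∧ (v' : ℝ) < v ∧ ∀ η : ℚ, 0 < η → ∀ N : ℕ, ∃ j, N ≤ j ∧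
      OutE (J.H j) (fun i => J.r10 i j) (fun i => J.r9 i ⟨r, hr⟩ j) w1 w D r r' v' p η := by
  obtain ⟨v', hv1, hv2⟩ := exists_rat_btwn (show 0 < min v (1 - (w1 * r + w * (r' - r))) from
    lt_min h.1 (by linarith))
  have hc : ∀ i, QS.mk (bf s.toUni (Sum.inr (i, (⟨r, hr⟩ : Sc)))) = f9 s.fT r i := by
    intro i
    have h1 : f9 s.fT r i = s.g9 i r := by
      fin_cases i <;> rfl
    rw [h1]
    unfold g9
    rw [dif_pos hr]
  have hq : ∀ i, QS.mk (bf s.toUni (Sum.inl i)) = b10 s.HT i := by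
    intro i
    have h1 : b10 s.HT i = s.g10 i := by
      fin_cases i <;> first | rfl | exact s.a_eq | exact s.cR_eq | exact s.az_eq
    rw [h1]
    rfl
  obtain ⟨p, hp, h1⟩ := olf_of_outl s.HT s.fT (fun i => bf s.toUni (Sum.inl i)) hq
    (fun i => bf s.toUni (Sum.inr (i, (⟨r, hr⟩ : Sc)))) hc hr0 hw1 hw (hv2.trans_le (min_le_left _ _))
    (hv2.trans_le (min_le_right _ _)) hv1 h
  refine ⟨v', p, by exact_mod_cast hv1, hp, hv2.trans_le (min_le_left _ _), fun η hη N => ?_⟩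
  have h2 : ∀ᶠ k in UF, J.olL w1 w (D, ⟨r, hr⟩, ⟨r', hr'⟩, v', p, η) (s.J k) k := by
    filter_upwards [h1 η (by exact_mod_cast hη)] with k hk
    have e1 : (fun i => (bf s.toUni (Sum.inl i)).1 k) = fun i => (J.r10 i (s.J k)).1 k :=
      funext fun i => bf_ev s.toUni (Sum.inl i) k
    have e2 : (fun i => (bf s.toUni (Sum.inr (i, (⟨r, hr⟩ : Sc)))).1 k) = fun i => (J.r9 i ⟨r, hr⟩ (s.J k)).1 k :=
      funext fun i => bf_ev s.toUni (Sum.inr (i, (⟨r, hr⟩ : Sc))) k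
    rw [e1, e2] at hk
    exact hk
  obtain ⟨j, h3, h4⟩ := los_back s.tend (hl _) h2 N
  exact ⟨j, h3, outE_of_olf h4⟩

end

end Pool.Agent.Helper80.HCI
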