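import Pool.Agent.Helper80.HCI.Dia

/-! Diagonals: rings of functions, digits at real levels, represented functions. -/

set_option autoImplicit false

namespace Pool.Agent.Helper80.HCI

open Finset Filter Topology Pool.Agent.Helper69.RK Pool.Agent.Helper31.EC Pool.Agent.Helper40.EL
open Pool.Agent.Helper60.CS

noncomputable section

open Sp

/-- input of a diagonal: base functions, informations, real levels -/
structure PD (κ ι Λ : Type) where
  S : ℕ → Sp
  f : κ → ∀ j, TR (S j)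
  x : ι → ∀ j, (S j).Inf
  hx : ∀ i, ∃ C : ℝ, ∀ j, ∀ᶠ k in UF, ∀ ω, ((S j).F k).μ ω ≠ 0 →
    (nv ((S j).F k) ((x i j).1 k) ω : ℝ) ≤ 2 ^ (C * ((S j).F k).n)
  lv : Λ → ℝ

namespace PD

variable {κ ι Λ : Type} (P : PD κ ι Λ)

/-- polynomials of the base functions -/
def pf (e : MvPolynomial κ ℤ) (j : ℕ) : TR (P.S j) := MvPolynomial.aeval (fun a => P.f a j) e

/-- the input with all polynomials and the digits at the real levels -/
def di : DI (MvPolynomial κ ℤ) (ι ⊕ (MvPolynomial κ ℤ × Λ)) where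
  S := P.S
  f := P.pf
  x := fun g j => Sum.elim (fun i => P.x i j)
    (fun p => ((TR.vec fun _ : Fin 1 => P.pf p.1 j).bdd (P.lv p.2)).toInf) g
  hx := by
    rintro (i | p)
    · exact P.hx i
    · exact ⟨max (P.lv p.2) 0 + 1, fun j => nv_cell_le _ _⟩

variable {P}

/-- polynomials of the base functions in the diagonal -/
def fnH (s : Uni P.di) : MvPolynomial κ ℤ →+* TR s.sp where
  toFun e := s.fn e
  map_one' := by
    apply Subtype.ext
    funext k ω
    show (P.pf 1 (s.J k)).1 k ω = 1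
    have h : P.pf 1 (s.J k) = 1 := map_one _
    rw [h]
    rfl
  map_mul' a b := s.fn_mul fun j => map_mul _ _ _
  map_zero' := by
    apply Subtype.ext
    funext k ω
    show (P.pf 0 (s.J k)).1 k ω = 0
    have h : P.pf 0 (s.J k) = 0 := map_zero _
    rw [h]
    rfl
  map_add' a b := s.fn_add fun j => map_add _ _ _

theorem fn_eq (s : Uni P.di) (e : MvPolynomial κ ℤ) :
    s.fn e = MvPolynomial.aeval (fun a => s.fn (MvPolynomial.X a)) e := by
  have h : fnH s = ((MvPolynomial.aeval fun a : κ => s.fn (MvPolynomial.X a) : MvPolynomial κ ℤ →ₐ[ℤ] TR s.sp) :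
      MvPolynomial κ ℤ →+* TR s.sp) := by
    apply MvPolynomial.ringHom_ext
    · intro r
      rw [eq_intCast MvPolynomial.C r, map_intCast, map_intCast]
    · intro a
      show s.fn (MvPolynomial.X a) = _
      exact (MvPolynomial.aeval_X (R := ℤ) (fun a : κ => s.fn (MvPolynomial.X a)) a).symm
  exact RingHom.congr_fun h e

end PD

variable {κ ι Λ : Type} {P : PD κ ι Λ}

/-- `f` is the function of the diagonal of the family `F` -/
def Rf (s : Uni P.di) (F : ∀ j, QS (P.S j)) (f : QS s.sp) : Prop :=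
  ∃ e : MvPolynomial κ ℤ, (∀ j, F j = QS.mk (P.pf e j)) ∧ f = QS.mk (s.fn e)

/-- the function of the diagonal of a base function -/
def bf (s : Uni P.di) (a : κ) : TR s.sp := s.fn (MvPolynomial.X a)

theorem bf_ev (s : Uni P.di) (a : κ) (k : ℕ) : (bf s a).1 k = (P.f a (s.J k)).1 k := by
  show (P.pf (MvPolynomial.X a) (s.J k)).1 k = _
  have h : P.pf (MvPolynomial.X a) (s.J k) = P.f a (s.J k) := MvPolynomial.aeval_X _ _
  rw [h]

namespace Rf

variable {s : Uni P.di} {F G : ∀ j, QS (P.S j)} {f g : QS s.sp}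

theorem base (s : Uni P.di) (a : κ) : Rf s (fun j => QS.mk (P.f a j)) (QS.mk (bf s a)) := by
  refine ⟨MvPolynomial.X a, fun j => ?_, rfl⟩
  have h : P.pf (MvPolynomial.X a) j = P.f a j := MvPolynomial.aeval_X _ _
  rw [h]

theorem add (hf : Rf s F f) (hg : Rf s G g) : Rf s (fun j => F j + G j) (f + g) := by
  obtain ⟨e, h1, rfl⟩ := hf
  obtain ⟨e', h2, rfl⟩ := hg
  refine ⟨e + e', fun j => ?_, ?_⟩
  · have h : P.pf (e + e') j = P.pf e j + P.pf e' j := map_add _ _ _
    rw [h, map_add, ← h1, ← h2]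
  · rw [← map_add]
    congr 1
    exact ((PD.fnH s).map_add e e').symm

theorem mul (hf : Rf s F f) (hg : Rf s G g) : Rf s (fun j => F j * G j) (f * g) := by
  obtain ⟨e, h1, rfl⟩ := hf
  obtain ⟨e', h2, rfl⟩ := hg
  refine ⟨e * e', fun j => ?_, ?_⟩
  · have h : P.pf (e * e') j = P.pf e j * P.pf e' j := map_mul _ _ _
    rw [h, map_mul, ← h1, ← h2]
  · rw [← map_mul]
    congr 1
    exact ((PD.fnH s).map_mul e e').symm

theorem neg (hf : Rf s F f) : Rf s (fun j => -F j) (-f) := by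
  obtain ⟨e, h1, rfl⟩ := hf
  refine ⟨-e, fun j => ?_, ?_⟩
  · have h : P.pf (-e) j = -P.pf e j := map_neg _ _
    rw [h, map_neg, ← h1]
  · rw [← map_neg]
    congr 1
    exact ((PD.fnH s).map_neg e).symm

theorem congr (hf : Rf s F f) (h : ∀ j, F j = G j) : Rf s G f := by
  obtain ⟨e, h1, rfl⟩ := hf
  exact ⟨e, fun j => (h j).symm.trans (h1 j), rfl⟩

theorem sub (hf : Rf s F f) (hg : Rf s G g) : Rf s (fun j => F j - G j) (f - g) := by
  rw [sub_eq_add_neg]
  exact (hf.add hg.neg).congr fun j => (sub_eq_add_neg _ _).symm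

theorem zero (s : Uni P.di) : Rf s (fun _ => 0) 0 := by
  refine ⟨0, fun j => ?_, ?_⟩
  · have h : P.pf (0 : MvPolynomial κ ℤ) j = 0 := map_zero _
    rw [h, map_zero]
  · have h : s.fn (0 : MvPolynomial κ ℤ) = 0 := (PD.fnH s).map_zero
    rw [h, map_zero]

theorem one (s : Uni P.di) : Rf s (fun _ => 1) 1 := by
  refine ⟨1, fun j => ?_, ?_⟩
  · have h : P.pf (1 : MvPolynomial κ ℤ) j = 1 := map_one _
    rw [h, map_one]
  · have h : s.fn (1 : MvPolynomial κ ℤ) = 1 := (PD.fnH s).map_one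
    rw [h, map_one]

theorem pow (hf : Rf s F f) (n : ℕ) : Rf s (fun j => F j ^ n) (f ^ n) := by
  induction n with
  | zero =>
    rw [pow_zero]
    exact (one s).congr fun j => (pow_zero _).symm
  | succ n ih =>
    rw [pow_succ]
    exact (ih.mul hf).congr fun j => (pow_succ _ _).symm

theorem sum {β : Type} (t : Finset β) {F : β → ∀ j, QS (P.S j)} {f : β → QS s.sp} (h : ∀ i ∈ t, Rf s (F i) (f i)) :
    Rf s (fun j => ∑ i ∈ t, F i j) (∑ i ∈ t, f i) := by
  classical
  induction t using Finset.induction_on with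
  | empty => exact zero s
  | insert a t ha ih =>
    rw [Finset.sum_insert ha]
    refine ((h a (Finset.mem_insert_self a t)).add (ih fun i hi => h i (Finset.mem_insert_of_mem hi))).congr
      fun j => ?_
    rw [Finset.sum_insert ha]

/-- IDENTITIES up to a level -/
theorem mem_Id (hf : Rf s F f) {r : ℕ → ℝ} {ρ : ℝ} (hr : Tendsto r atTop (𝓝 ρ))
    (h : ∀ᶠ j in atTop, F j ∈ QS.Id (P.S j) (r j)) : f ∈ QS.Id s.sp ρ := by
  obtain ⟨e, h1, rfl⟩ := hf
  have h2 : TR.Ag (min ρ 1) (s.fn e) (s.fn 0) := by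
    refine s.agr (r := fun j => min (r j) 1) (hr.min tendsto_const_nhds) ?_
    filter_upwards [h] with j hj
    have h3 : QS.mk (P.pf e j) ∈ QS.Id (P.S j) (min (r j) 1) := by
      rw [← h1]
      exact QS.Id_anti (min_le_left _ _) hj
    rw [QS.mk_mem_Id (min_le_right _ _)] at h3
    have h4 : P.pf (0 : MvPolynomial κ ℤ) j = 0 := map_zero _
    show TR.Ag _ (P.pf e j) (P.pf 0 j)
    rw [h4]
    exact h3
  have h3 : s.fn (0 : MvPolynomial κ ℤ) = 0 := (PD.fnH s).map_zero
  rw [h3] at h2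
  rw [← QS.mk_mem_Id (min_le_right _ _)] at h2
  rcases le_total ρ 1 with h4 | h4
  · rwa [min_eq_left h4] at h2
  · rw [min_eq_right h4] at h2
    have h5 := QS.mem_Id_one.mp h2
    rw [h5]
    exact Ideal.zero_mem _

/-- exact identities -/
theorem eq (hf : Rf s F f) (hg : Rf s G g) (h : ∀ᶠ j in atTop, F j = G j) : f = g := by
  have h1 := (hf.sub hg).mem_Id (r := fun _ => 1) tendsto_const_nhds (by
    filter_upwards [h] with j hj
    rw [hj, sub_self]
    exact Ideal.zero_mem _)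
  exact sub_eq_zero.mp (QS.mem_Id_one.mp h1)

/-- digits at the real levels of the input -/
theorem dgL (hf : Rf s F f) (l : Λ) (hl : P.lv l ≤ 1) :
    Rp s (fun j => QS.dg (F j) (P.lv l)) (QS.dg f (P.lv l)) := by
  obtain ⟨e, h1, rfl⟩ := hf
  have h2 := Rp.gen s (Sum.inl (Sum.inr (e, l)))
  have h3 : cl (s.gen (Sum.inl (Sum.inr (e, l)))) = QS.dg (QS.mk (s.fn e)) (P.lv l) := by
    rw [QS.dg_mk _ hl]
    unfold TR.dg VV.dg
    rw [io_eq (VV.bdd _ _)]
    rfl
  rw [← h3]
  refine h2.congr fun j => ?_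
  have h4 : QS.dg (F j) (P.lv l) = TR.dg (P.pf e j) (P.lv l) := by
    rw [h1, QS.dg_mk _ hl]
  have h5 : TR.dg (P.pf e j) (P.lv l) =
      cl (((TR.vec fun _ : Fin 1 => P.pf e j).bdd (P.lv l)).toInf) := io_eq _
  exact (h4.trans h5).symm

/-- digits at rational levels -/
theorem dgq (hf : Rf s F f) (q : ℚ) (hq : (q : ℝ) ≤ 1) : Rp s (fun j => QS.dg (F j) q) (QS.dg f q) := by
  obtain ⟨e, h1, rfl⟩ := hf
  have h2 := Rp.gen s (Sum.inr (e, q))
  have h3 : cl (s.gen (Sum.inr (e, q))) = QS.dg (QS.mk (s.fn e)) q := s.toSlow.qf_dg e hq |>.symm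
  rw [← h3]
  refine h2.congr fun j => ?_
  have h4 : QS.dg (F j) q = TR.dg (P.pf e j) q := by
    rw [h1, QS.dg_mk _ hq]
  exact (P.di.gen_inr e q j).trans h4.symm

theorem dg1 (hf : Rf s F f) : Rp s (fun j => QS.dg (F j) 1) (QS.dg f 1) := by
  have h := hf.dgq 1 (by norm_num)
  rw [Rat.cast_one] at h
  exact h

end Rf

/-- informations of the diagonal -/
theorem Rp.el (s : Uni P.di) (i : ι) : Rp s (fun j => cl (P.x i j)) (cl (s.gen (Sum.inl (Sum.inl i)))) :=
  Rp.gen s (Sum.inl (Sum.inl i))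

end

end Pool.Agent.Helper80.HCI
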